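import Pool.Agent.Lib.MP_c82047_co18.Defs

/-!
# Basic facts: `g`, single steps, closures
-/

namespace Pool.Agent.Lib.MP_c82047_co18

open Pool.Agent.Lib.MP_c82047_co97

section

variable {V : Type*} [DecidableEq V] {H : Finset (Finset V)}

theorem g_submod (H : Finset (Finset V)) (A B : Finset V) :
    g H (A ∪ B) + g H (A ∩ B) ≤ g H A + g H B := by
  have h1 := e_submod H A B
  have h2 := Finset.card_union_add_card_inter A B
  unfold g
  omega

theorem line_eq (hH : Lin H) {a b : Finset V} (ha : a ∈ H) (hb : b ∈ H) {x y : V} (hxy : x ≠ y)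
    (hxa : x ∈ a) (hya : y ∈ a) (hxb : x ∈ b) (hyb : y ∈ b) : a = b := by
  by_contra hne
  have h5 := hH.2 a ha b hb hne
  have h6 : 1 < (a ∩ b).card :=
    Finset.one_lt_card.2 ⟨x, Finset.mem_inter.2 ⟨hxa, hxb⟩, y, Finset.mem_inter.2 ⟨hya, hyb⟩, hxy⟩
  omega

theorem e_eq_zero_of_le_two (hH : Lin H) {A : Finset V} (hA : A.card ≤ 2) : e H A = 0 := by
  unfold e
  rw [Finset.card_eq_zero, Finset.filter_eq_empty_iff]
  intro h hh hhA
  have h1 := Finset.card_le_card hhA
  have h2 := hH.1 h hh
  omega

/-- Sets with at most two points contain no triple. -/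
theorem g_eq_card_of_le_two (hH : Lin H) {A : Finset V} (hA : A.card ≤ 2) : g H A = A.card := by
  unfold g
  rw [e_eq_zero_of_le_two hH hA]
  simp

theorem g_empty (hH : Lin H) : g H ∅ = 0 := by
  rw [g_eq_card_of_le_two hH (by simp)]; simp

theorem g_singleton (hH : Lin H) (v : V) : g H {v} = 1 := by
  rw [g_eq_card_of_le_two hH (by simp)]; simp

theorem g_edge (hH : Lin H) {h : Finset V} (hh : h ∈ H) : g H h = 2 := by
  have h3 := hH.1 h hh
  have h1 : e H h = 1 := by
    unfold e
    rw [Finset.card_eq_one]
    refine ⟨h, ?_⟩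
    ext f
    rw [Finset.mem_filter, Finset.mem_singleton]
    constructor
    · rintro ⟨hf, hfh⟩
      exact Finset.eq_of_subset_of_card_le hfh (by rw [h3, hH.1 f hf])
    · rintro rfl
      exact ⟨hh, subset_rfl⟩
  unfold g
  rw [h1, h3]; norm_num

theorem g_union_le (H : Finset (Finset V)) (A B : Finset V) :
    g H (A ∪ B) ≤ g H A + (B \ A).card := by
  have h1 := e_mono H (Finset.subset_union_left : A ⊆ A ∪ B)
  have h2 : (A ∪ B).card = A.card + (B \ A).card := by
    rw [← Finset.union_sdiff_self_eq_union, Finset.card_union_of_disjoint Finset.disjoint_sdiff]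
  unfold g
  omega

theorem e_union_edge {A h : Finset V} (hh : h ∈ H) (hA : ¬ h ⊆ A) :
    e H A + 1 ≤ e H (A ∪ h) := by
  unfold e
  have h1 : insert h (H.filter (fun E => E ⊆ A)) ⊆ H.filter (fun E => E ⊆ A ∪ h) := by
    intro f hf
    rw [Finset.mem_insert] at hf
    rcases hf with rfl | hf
    · exact Finset.mem_filter.2 ⟨hh, Finset.subset_union_right⟩
    · rw [Finset.mem_filter] at hf ⊢
      exact ⟨hf.1, hf.2.trans Finset.subset_union_left⟩
  have h2 := Finset.card_le_card h1
  rw [Finset.card_insert_of_notMem] at h2
  · exact h2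
  · intro h3
    exact hA (Finset.mem_filter.1 h3).2

/-- Adding a triple meeting `A` in a point (at most two new points). -/
theorem g_union_edge_le (hH : Lin H) {A h : Finset V} (hh : h ∈ H) (hA : (h ∩ A).Nonempty) :
    g H (A ∪ h) ≤ g H A + 1 := by
  by_cases hs : h ⊆ A
  · rw [Finset.union_eq_left.2 hs]; omega
  · have h1 := e_union_edge hh hs
    have h2 : (A ∪ h).card = A.card + (h \ A).card := by
      rw [← Finset.union_sdiff_self_eq_union, Finset.card_union_of_disjoint Finset.disjoint_sdiff]
    have h3 := hH.1 h hh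
    have h4 := Finset.card_sdiff_add_card_inter h A
    have h5 := Finset.card_pos.2 hA
    unfold g
    omega

theorem g_insert_le (hH : Lin H) {N h : Finset V} {x : V} (hh : h ∈ H) (hx : x ∈ h) (hxN : x ∉ N)
    (hN : h.erase x ⊆ N) : g H (insert x N) ≤ g H N := by
  have h0 : insert x N = N ∪ h := by
    ext y
    rw [Finset.mem_insert, Finset.mem_union]
    constructor
    · rintro (rfl | h)
      · exact Or.inr hx
      · exact Or.inl h
    · rintro (h | h)
      · exact Or.inr h
      · by_cases hy : y = x
        · exact Or.inl hy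
        · exact Or.inr (hN (Finset.mem_erase.2 ⟨hy, h⟩))
  have h1 : e H N + 1 ≤ e H (N ∪ h) := e_union_edge hh (fun hs => hxN (hs hx))
  have h2 : (insert x N).card = N.card + 1 := Finset.card_insert_of_notMem hxN
  unfold g
  rw [← h0] at h1
  omega

theorem Reach.subset {A N : Finset V} (h : Reach H A N) : A ⊆ N := by
  induction h with
  | refl => exact subset_rfl
  | step _ _ _ _ _ ih => exact ih.trans (Finset.subset_insert _ _)

theorem Reach.trans {A B C : Finset V} (h : Reach H A B) (h' : Reach H B C) : Reach H A C := by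
  induction h' with
  | refl => exact h
  | step _ h1 h2 h3 h4 ih => exact Reach.step ih h1 h2 h3 h4

theorem Reach.union {A N : Finset V} (h : Reach H A N) (B : Finset V) :
    Reach H (A ∪ B) (N ∪ B) := by
  induction h with
  | refl => exact Reach.refl
  | @step N f x _ h1 h2 h3 h4 ih =>
    by_cases hx : x ∈ N ∪ B
    · have : insert x N ∪ B = N ∪ B := by
        rw [Finset.insert_union, Finset.insert_eq_of_mem hx]
      rw [this]; exact ih
    · have := Reach.step ih h1 h2 hx (h4.trans Finset.subset_union_left)
      rwa [← Finset.insert_union] at this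

/-- If `A ⊆ B ⊆ N` and `N` is reached from `A` then `N` is reached from `B`. -/
theorem Reach.mono {A B N : Finset V} (h : Reach H A N) (hAB : A ⊆ B) (hBN : B ⊆ N) :
    Reach H B N := by
  have := h.union B
  rwa [Finset.union_eq_right.2 hAB, Finset.union_eq_left.2 hBN] at this

theorem reach_edge (hH : Lin H) {N h : Finset V} (hh : h ∈ H) (h2 : 2 ≤ (h ∩ N).card) :
    Reach H N (N ∪ h) := by
  by_cases hs : h ⊆ N
  · rw [Finset.union_eq_left.2 hs]; exact Reach.refl
  · obtain ⟨x, hx, hxN⟩ := Finset.not_subset.1 hs
    have h3 := hH.1 h hh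
    have h4 : h ∩ N ⊆ h.erase x := fun y hy => by
      rw [Finset.mem_inter] at hy
      exact Finset.mem_erase.2 ⟨fun hyx => hxN (hyx ▸ hy.2), hy.1⟩
    have h5 : h ∩ N = h.erase x := Finset.eq_of_subset_of_card_le h4 (by
      rw [Finset.card_erase_of_mem hx]; omega)
    have h6 : h.erase x ⊆ N := by rw [← h5]; exact Finset.inter_subset_right
    have h7 := Reach.step Reach.refl hh hx hxN h6
    have h8 : insert x N = N ∪ h := by
      ext y
      rw [Finset.mem_insert, Finset.mem_union]
      constructor
      · rintro (rfl | h)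
        · exact Or.inr hx
        · exact Or.inl h
      · rintro (h | h)
        · exact Or.inr h
        · by_cases hy : y = x
          · exact Or.inl hy
          · exact Or.inr (h6 (Finset.mem_erase.2 ⟨hy, h⟩))
    rwa [h8] at h7

theorem Reach.g_le (hH : Lin H) {A N : Finset V} (h : Reach H A N) : g H N ≤ g H A := by
  induction h with
  | refl => exact le_refl _
  | step _ h1 h2 h3 h4 ih => exact (g_insert_le hH h1 h2 h3 h4).trans ih

theorem KFree.card_ne {k : ℕ} (hk : KFree H k) {S : Finset V} (hg : g H S ≤ 3) : S.card ≠ k := by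
  intro h
  have := hk S h
  unfold g at hg
  omega

/-- No crossing: single steps starting from a small tight set never reach `k` points. -/
theorem Reach.card_lt (hH : Lin H) {k : ℕ} (hk : KFree H k) {A N : Finset V} (h : Reach H A N)
    (hA : A.card < k) (hg : g H A ≤ 3) : N.card < k := by
  induction h with
  | refl => exact hA
  | @step N f x hr h1 h2 h3 h4 ih =>
    have h5 := (Reach.step hr h1 h2 h3 h4).g_le hH
    have h6 := hk.card_ne (h5.trans hg)
    have h7 : (insert x N).card = N.card + 1 := Finset.card_insert_of_notMem h3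
    omega

/-- Adding a triple meeting the set in a point, to a set with `g ≤ 2`, does not cross `k`. -/
theorem union_edge_card_lt (hH : Lin H) {k : ℕ} (hk : KFree H k) {A h : Finset V}
    (hA : A.card < k) (hg : g H A ≤ 2) (hh : h ∈ H) (hm : (h ∩ A).Nonempty) :
    (A ∪ h).card < k := by
  have h0 := g_union_edge_le hH hh hm
  have h1 := hk.card_ne (show g H (A ∪ h) ≤ 3 by omega)
  have h2 : (A ∪ h).card = A.card + (h \ A).card := by
    rw [← Finset.union_sdiff_self_eq_union, Finset.card_union_of_disjoint Finset.disjoint_sdiff]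
  have h3 := hH.1 h hh
  have h4 := Finset.card_sdiff_add_card_inter h A
  have h5 := Finset.card_pos.2 hm
  by_contra hcon
  -- then `(h \ A).card = 2` and `A.card = k - 1`
  have h6 : (h \ A).card = 2 := by omega
  obtain ⟨x, hx⟩ := Finset.card_pos.1 (by omega : 0 < (h \ A).card)
  have hxA := (Finset.mem_sdiff.1 hx).2
  have h7 : (insert x A).card = A.card + 1 := Finset.card_insert_of_notMem hxA
  have h8 : g H (insert x A) ≤ 3 := by
    have h9 := g_union_le H A {x}
    have h10 : ({x} \ A : Finset V).card ≤ 1 := by
      have := Finset.card_le_card (Finset.sdiff_subset : ({x} : Finset V) \ A ⊆ {x})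
      simpa using this
    have h11 : A ∪ {x} = insert x A := by
      rw [Finset.union_comm, Finset.singleton_union]
    rw [h11] at h9
    omega
  have h12 := hk.card_ne h8
  omega

theorem Closed.inter {A B : Finset V} (hA : Closed H A) (hB : Closed H B) :
    Closed H (A ∩ B) := by
  intro h hh h2
  refine Finset.subset_inter (hA h hh (h2.trans (Finset.card_le_card ?_)))
    (hB h hh (h2.trans (Finset.card_le_card ?_)))
  · exact Finset.inter_subset_inter_left Finset.inter_subset_left
  · exact Finset.inter_subset_inter_left Finset.inter_subset_right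

/-- Everything reached from a subset of a closed set stays in the closed set. -/
theorem Closed.reach_subset {A S N : Finset V} (hS : Closed H S) (hA : A ⊆ S) (h : Reach H A N)
    (hH : Lin H) : N ⊆ S := by
  induction h with
  | refl => exact hA
  | @step N f x hr h1 h2 h3 h4 ih =>
    have h5 : f ⊆ S := by
      refine hS f h1 ?_
      have h6 : f.erase x ⊆ f ∩ S := Finset.subset_inter (Finset.erase_subset _ _) (h4.trans ih)
      have h7 := Finset.card_le_card h6
      rw [Finset.card_erase_of_mem h2, hH.1 f h1] at h7
      exact h7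
    exact Finset.insert_subset (h5 h2) ih

theorem Cherry.symm {a b : Finset V} (h : Cherry H a b) : Cherry H b a :=
  ⟨h.hb, h.ha, h.ne.symm, by rw [Finset.inter_comm]; exact h.meet⟩

theorem Cherry.card_inter (hH : Lin H) {a b : Finset V} (h : Cherry H a b) :
    (a ∩ b).card = 1 := by
  have h1 := hH.2 a h.ha b h.hb h.ne
  have h2 := Finset.card_pos.2 h.meet
  omega

theorem Cherry.card (hH : Lin H) {a b : Finset V} (h : Cherry H a b) : (a ∪ b).card = 5 := by
  have h1 := h.card_inter hH
  have h2 := Finset.card_union_add_card_inter a b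
  have h3 := hH.1 a h.ha
  have h4 := hH.1 b h.hb
  omega

theorem Cherry.g_le (hH : Lin H) {a b : Finset V} (h : Cherry H a b) : g H (a ∪ b) ≤ 3 := by
  have h1 := g_union_edge_le hH h.hb (A := a) (by rw [Finset.inter_comm]; exact h.meet)
  rw [g_edge hH h.ha] at h1
  exact h1

theorem Gen.symm {N a b : Finset V} (h : Gen H N a b) : Gen H N b a :=
  ⟨h.cherry.symm, by rw [Finset.union_comm]; exact h.reach⟩

/-- If `k`-freeness holds and there is a cherry then `6 ≤ k`. -/
theorem six_le (hH : Lin H) {k : ℕ} (hk : KFree H k) {a b : Finset V} (h : Cherry H a b) :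
    6 ≤ k := by
  by_contra hcon
  have ha := hH.1 a h.ha
  have h4 : 4 ≤ k := by
    by_contra h4
    obtain ⟨S, hSa, hSk⟩ := Finset.exists_subset_card_eq (s := a) (n := k) (by omega)
    have := hk S hSk
    omega
  have h5 := union_edge_card_lt hH hk (A := a) (by omega) (by rw [g_edge hH h.ha]) h.hb
    (by rw [Finset.inter_comm]; exact h.meet)
  rw [h.card hH] at h5
  omega

theorem Sparse.mono {M N : Finset V} (h : Sparse H M) (hN : N ⊆ M) : Sparse H N :=
  fun A hA => h A (hA.trans hN)

/-- In a sparse set everything with at least four points has `g ≥ 3`. -/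
theorem Sparse.three_le (hH : Lin H) {M A : Finset V} (h : Sparse H M) (hA : A ⊆ M)
    (h4 : 4 ≤ A.card) : 3 ≤ g H A := by
  refine h A hA (by omega) fun hAH => ?_
  have := hH.1 A hAH
  omega

/-- `g` does not increase by removing a point on at most one triple. -/
theorem g_erase_ge {A : Finset V} {x : V} (hx : x ∈ A)
    (h1 : (H.filter (fun h => h ⊆ A ∧ x ∈ h)).card ≤ 1) : g H (A.erase x) ≤ g H A := by
  have h2 : e H A ≤ e H (A.erase x) + (H.filter (fun h => h ⊆ A ∧ x ∈ h)).card := by
    unfold e
    rw [← Finset.card_union_of_disjoint]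
    · refine Finset.card_le_card fun h hh => ?_
      rw [Finset.mem_filter] at hh
      rw [Finset.mem_union, Finset.mem_filter, Finset.mem_filter]
      by_cases hxh : x ∈ h
      · exact Or.inr ⟨hh.1, hh.2, hxh⟩
      · refine Or.inl ⟨hh.1, fun y hy => Finset.mem_erase.2 ⟨fun hyx => hxh (hyx ▸ hy), hh.2 hy⟩⟩
    · rw [Finset.disjoint_left]
      intro h hh hh'
      rw [Finset.mem_filter] at hh hh'
      exact Finset.notMem_erase x A (hh.2 hh'.2.2)
  have h3 := Finset.card_erase_add_one hx
  unfold g
  omega

/-- Sparseness is kept by a single step adding exactly one triple. -/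
theorem Sparse.insert_of (hH : Lin H) {N h : Finset V} {x : V} (hN : Sparse H N)
    (hh : h ∈ H) (hx : x ∈ h) (hxN : x ∉ N) (hhN : h.erase x ⊆ N)
    (hg : g H N ≤ g H (insert x N)) : Sparse H (insert x N) := by
  -- the triple `h` is the only one through `x`
  have huniq : ∀ f ∈ H, f ⊆ insert x N → x ∈ f → f = h := by
    intro f hf hfN hxf
    by_contra hne
    have h0 : insert x N = N ∪ h := by
      ext y
      rw [Finset.mem_insert, Finset.mem_union]
      constructor
      · rintro (rfl | h)
        · exact Or.inr hx
        · exact Or.inl h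
      · rintro (h | h')
        · exact Or.inr h
        · by_cases hy : y = x
          · exact Or.inl hy
          · exact Or.inr (hhN (Finset.mem_erase.2 ⟨hy, h'⟩))
    have h1 : e H N + 2 ≤ e H (insert x N) := by
      have h2 : insert f (insert h (H.filter (fun E => E ⊆ N))) ⊆
          H.filter (fun E => E ⊆ insert x N) := by
        intro t ht
        rw [Finset.mem_insert, Finset.mem_insert] at ht
        rcases ht with rfl | rfl | ht
        · exact Finset.mem_filter.2 ⟨hf, hfN⟩
        · rw [h0]; exact Finset.mem_filter.2 ⟨hh, Finset.subset_union_right⟩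
        · rw [Finset.mem_filter] at ht ⊢
          exact ⟨ht.1, ht.2.trans (Finset.subset_insert _ _)⟩
      have h3 := Finset.card_le_card h2
      have h4 : h ∉ H.filter (fun E => E ⊆ N) := fun h4 => hxN ((Finset.mem_filter.1 h4).2 hx)
      have h5 : f ∉ insert h (H.filter (fun E => E ⊆ N)) := by
        intro h5
        rw [Finset.mem_insert] at h5
        rcases h5 with h5 | h5
        · exact hne h5
        · exact hxN ((Finset.mem_filter.1 h5).2 hxf)
      rw [Finset.card_insert_of_notMem h5, Finset.card_insert_of_notMem h4] at h3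
      unfold e
      omega
    have h6 : (insert x N).card = N.card + 1 := Finset.card_insert_of_notMem hxN
    unfold g at hg
    omega
  intro A hA h3 hAH
  by_cases hxA : x ∈ A
  · have hsub : A.erase x ⊆ N := fun y hy => by
      rw [Finset.mem_erase] at hy
      rcases Finset.mem_insert.1 (hA hy.2) with h | h
      · exact absurd h hy.1
      · exact h
    have hc := Finset.card_erase_add_one hxA
    -- number of triples through `x` inside `A`
    have hle1 : (H.filter (fun f => f ⊆ A ∧ x ∈ f)).card ≤ 1 := by
      rw [Finset.card_le_one]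
      intro f hf f' hf'
      rw [Finset.mem_filter] at hf hf'
      rw [huniq f hf.1 (hf.2.1.trans hA) hf.2.2, huniq f' hf'.1 (hf'.2.1.trans hA) hf'.2.2]
    by_cases hA' : 3 ≤ (A.erase x).card ∧ A.erase x ∉ H
    · have h4 := hN _ hsub hA'.1 hA'.2
      have h5 := g_erase_ge hxA hle1
      omega
    · -- then no triple through `x` lies inside `A`
      have h0 : ¬ h ⊆ A := by
        intro hhA
        by_cases h3' : 3 ≤ (A.erase x).card
        · have h6 : A.erase x ∈ H := by
            by_contra h6; exact hA' ⟨h3', h6⟩
          -- `A.erase x` and `h` share two points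
          have h7 : h.erase x ⊆ h ∩ A.erase x :=
            Finset.subset_inter (Finset.erase_subset _ _) (Finset.erase_subset_erase x hhA)
          have h8 := Finset.card_le_card h7
          rw [Finset.card_erase_of_mem hx, hH.1 h hh] at h8
          have h9 : h ≠ A.erase x := fun h9 => by
            have := h9 ▸ hx
            exact Finset.notMem_erase x A this
          have := hH.2 h hh _ h6 h9
          omega
        · have h6 : h = A := Finset.eq_of_subset_of_card_le hhA (by rw [hH.1 h hh]; omega)
          exact hAH (h6 ▸ hh)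
      have h1 : H.filter (fun f => f ⊆ A) ⊆ H.filter (fun f => f ⊆ A.erase x) := by
        intro f hf
        rw [Finset.mem_filter] at hf ⊢
        refine ⟨hf.1, fun y hy => Finset.mem_erase.2 ⟨fun hyx => ?_, hf.2 hy⟩⟩
        have := huniq f hf.1 (hf.2.trans hA) (hyx ▸ hy)
        exact h0 (this ▸ hf.2)
      have h2 : e H A ≤ e H (A.erase x) := Finset.card_le_card h1
      have h5 : 2 ≤ g H (A.erase x) := by
        by_cases h3' : 3 ≤ (A.erase x).card
        · have h6 : A.erase x ∈ H := by
            by_contra h6; exact hA' ⟨h3', h6⟩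
          rw [g_edge hH h6]
        · rw [g_eq_card_of_le_two hH (by omega)]
          omega
      unfold g at h5 ⊢
      omega
  · exact hN A (fun y hy => by
      rcases Finset.mem_insert.1 (hA hy) with h | h
      · exact absurd (h ▸ hy) hxA
      · exact h) h3 hAH

theorem Cherry.sparse (hH : Lin H) {a b : Finset V} (h : Cherry H a b)
    (hg : g H (a ∪ b) = 3) : Sparse H (a ∪ b) := by
  -- the triples inside `a ∪ b` are `a` and `b`
  have he : e H (a ∪ b) = 2 := by
    have h5 := h.card hH
    unfold g at hg
    omega
  have hsub : ∀ f ∈ H, f ⊆ a ∪ b → f = a ∨ f = b := by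
    intro f hf hfab
    by_contra hcon
    push Not at hcon
    have h2 : insert f (insert a {b}) ⊆ H.filter (fun E => E ⊆ a ∪ b) := by
      intro t ht
      rw [Finset.mem_insert, Finset.mem_insert, Finset.mem_singleton] at ht
      rcases ht with rfl | rfl | rfl
      · exact Finset.mem_filter.2 ⟨hf, hfab⟩
      · exact Finset.mem_filter.2 ⟨h.ha, Finset.subset_union_left⟩
      · exact Finset.mem_filter.2 ⟨h.hb, Finset.subset_union_right⟩
    have h3 := Finset.card_le_card h2
    have h4 : a ∉ ({b} : Finset (Finset V)) := by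
      rw [Finset.mem_singleton]; exact h.ne
    have h5 : f ∉ (insert a {b} : Finset (Finset V)) := by
      rw [Finset.mem_insert, Finset.mem_singleton]
      push Not
      exact hcon
    rw [Finset.card_insert_of_notMem h5, Finset.card_insert_of_notMem h4,
      Finset.card_singleton] at h3
    unfold e at he
    omega
  intro A hA h3 hAH
  have hcard := h.card hH
  have ha3 := hH.1 a h.ha
  have hb3 := hH.1 b h.hb
  by_cases haA : a ⊆ A
  · by_cases hbA : b ⊆ A
    · have : A = a ∪ b := Finset.Subset.antisymm hA (Finset.union_subset haA hbA)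
      rw [this]; exact hg.ge
    · -- only `a` inside
      have h1 : e H A ≤ 1 := by
        unfold e
        rw [Finset.card_le_one]
        intro f hf f' hf'
        rw [Finset.mem_filter] at hf hf'
        have e1 : f = a := by
          rcases hsub f hf.1 (hf.2.trans hA) with h | h
          · exact h
          · exact absurd (h ▸ hf.2) hbA
        have e2 : f' = a := by
          rcases hsub f' hf'.1 (hf'.2.trans hA) with h | h
          · exact h
          · exact absurd (h ▸ hf'.2) hbA
        rw [e1, e2]
      have h2 : a.card < A.card := Finset.card_lt_card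
        ⟨haA, fun h' => hAH (by rw [Finset.Subset.antisymm h' haA]; exact h.ha)⟩
      unfold g
      omega
  · by_cases hbA : b ⊆ A
    · have h1 : e H A ≤ 1 := by
        unfold e
        rw [Finset.card_le_one]
        intro f hf f' hf'
        rw [Finset.mem_filter] at hf hf'
        have e1 : f = b := by
          rcases hsub f hf.1 (hf.2.trans hA) with h | h
          · exact absurd (h ▸ hf.2) haA
          · exact h
        have e2 : f' = b := by
          rcases hsub f' hf'.1 (hf'.2.trans hA) with h | h
          · exact absurd (h ▸ hf'.2) haA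
          · exact h
        rw [e1, e2]
      have h2 : b.card < A.card := Finset.card_lt_card
        ⟨hbA, fun h' => hAH (by rw [Finset.Subset.antisymm h' hbA]; exact h.hb)⟩
      unfold g
      omega
    · have h1 : e H A = 0 := by
        unfold e
        rw [Finset.card_eq_zero, Finset.filter_eq_empty_iff]
        intro f hf hfA
        rcases hsub f hf (hfA.trans hA) with h | h
        · exact haA (h ▸ hfA)
        · exact hbA (h ▸ hfA)
      unfold g
      omega

theorem Reach.sparse (hH : Lin H) {A N : Finset V} (h : Reach H A N) (hA : Sparse H A)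
    (hg : g H A ≤ g H N) : Sparse H N := by
  induction h with
  | refl => exact hA
  | @step N f x hr h1 h2 h3 h4 ih =>
    have h5 := hr.g_le hH
    have h6 := g_insert_le hH h1 h2 h3 h4
    exact Sparse.insert_of hH (ih (by omega)) h1 h2 h3 h4 (by omega)

/-- A tight set generated by a cherry is sparse. -/
theorem Gen.sparse (hH : Lin H) {N a b : Finset V} (h : Gen H N a b) (hg : g H N = 3) :
    Sparse H N := by
  have h1 := h.reach.g_le hH
  have h2 := h.cherry.g_le hH
  exact h.reach.sparse hH (h.cherry.sparse hH (by omega)) (by omega)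

theorem Loose.swap₁₂ {a b c : Finset V} (h : Loose a b c) : Loose b a c := by
  obtain ⟨h1, h2, h3, h4, h5, h6, h7⟩ := h
  refine ⟨h1.symm, h3, h2, ?_, h6, h5, ?_⟩
  · rwa [Finset.inter_comm]
  · rwa [Finset.inter_comm b a]

theorem Loose.swap₂₃ {a b c : Finset V} (h : Loose a b c) : Loose a c b := by
  obtain ⟨h1, h2, h3, h4, h5, h6, h7⟩ := h
  refine ⟨h2, h1, h3.symm, h5, h4, ?_, ?_⟩
  · rwa [Finset.inter_comm]
  · rwa [Finset.inter_right_comm]

/-- The third triple of a loose triangle meets the union of the two others in two points. -/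
theorem Loose.two_le {a b c : Finset V} (h : Loose a b c) : 2 ≤ (c ∩ (a ∪ b)).card := by
  obtain ⟨h1, h2, h3, h4, ⟨x, hx⟩, ⟨y, hy⟩, h7⟩ := h
  rw [Finset.mem_inter] at hx hy
  have hxy : x ≠ y := by
    rintro rfl
    have : x ∈ a ∩ b ∩ c := by
      rw [Finset.mem_inter, Finset.mem_inter]; exact ⟨⟨hx.1, hy.1⟩, hx.2⟩
    rw [h7] at this
    simp at this
  exact Finset.one_lt_card.2 ⟨x, by simp [hx.1, hx.2], y, by simp [hy.1, hy.2], hxy⟩

theorem Loose.cherry {H : Finset (Finset V)} {a b c : Finset V} (h : Loose a b c) (ha : a ∈ H)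
    (hc : c ∈ H) : Cherry H a c := ⟨ha, hc, h.2.1, h.2.2.2.2.1⟩

/-- If `(a, b)` generates `N` and `c ⊆ N` forms a loose triangle with `a, b` then `(a, c)`
generates `N`. -/
theorem Gen.loose (hH : Lin H) {N a b c : Finset V} (h : Gen H N a b) (hc : c ∈ H)
    (hL : Loose a b c) (hcN : c ⊆ N) : Gen H N a c := by
  refine ⟨hL.cherry h.cherry.ha hc, ?_⟩
  have hab : a ∪ b ⊆ N := h.reach.subset
  have h1 := reach_edge hH h.cherry.hb (hL.swap₂₃.two_le)
  refine h1.trans (h.reach.mono ?_ ?_)
  · intro y hy
    simp only [Finset.mem_union] at hy ⊢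
    tauto
  · refine Finset.union_subset (Finset.union_subset ?_ hcN) ?_
    · exact Finset.subset_union_left.trans hab
    · exact Finset.subset_union_right.trans hab

end

section

variable {V : Type*} [DecidableEq V] [Fintype V] {H : Finset (Finset V)}

theorem reach_cl (H : Finset (Finset V)) (A : Finset V) : Reach H A (cl H A) := by
  classical
  -- a reachable set of maximum size
  obtain ⟨N, hN, hmax⟩ : ∃ N, Reach H A N ∧ ∀ N', Reach H A N' → N'.card ≤ N.card := by
    obtain ⟨N, hN, hmax⟩ := Finset.exists_max_image
      (Finset.univ.filter (fun N => Reach H A N)) Finset.card ⟨A, by simp [Reach.refl]⟩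
    rw [Finset.mem_filter] at hN
    exact ⟨N, hN.2, fun N' hN' => hmax N' (by simp [hN'])⟩
  have hall : ∀ N', Reach H A N' → N' ⊆ N := by
    intro N' hN'
    have h1 : Reach H A (N' ∪ N) := by
      have h2 := hN'.union N
      rw [Finset.union_eq_right.2 hN.subset] at h2
      exact hN.trans h2
    have h3 := hmax _ h1
    have h4 : N = N' ∪ N := Finset.eq_of_subset_of_card_le Finset.subset_union_right h3
    rw [h4]; exact Finset.subset_union_left
  have hcl : cl H A = N := by
    ext x
    simp only [cl, Finset.mem_filter, Finset.mem_univ, true_and]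
    constructor
    · rintro ⟨N', hN', hx⟩
      exact hall N' hN' hx
    · intro hx
      exact ⟨N, hN, hx⟩
  rw [hcl]; exact hN

theorem Reach.subset_cl {A N : Finset V} (h : Reach H A N) : N ⊆ cl H A := by
  intro x hx
  simp only [cl, Finset.mem_filter, Finset.mem_univ, true_and]
  exact ⟨N, h, hx⟩

theorem subset_cl (H : Finset (Finset V)) (A : Finset V) : A ⊆ cl H A := (reach_cl H A).subset

theorem closed_cl (hH : Lin H) (A : Finset V) : Closed H (cl H A) := by
  intro h hh h2
  have h1 := (reach_cl H A).trans (reach_edge hH hh h2)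
  exact Finset.subset_union_right.trans h1.subset_cl

theorem cl_subset (hH : Lin H) {A S : Finset V} (hS : Closed H S) (hA : A ⊆ S) :
    cl H A ⊆ S := hS.reach_subset hA (reach_cl H A) hH

theorem cl_mono (hH : Lin H) {A B : Finset V} (h : A ⊆ B) : cl H A ⊆ cl H B :=
  cl_subset hH (closed_cl hH B) (h.trans (subset_cl H B))

theorem Reach.cl_eq (hH : Lin H) {A N : Finset V} (h : Reach H A N) : cl H N = cl H A :=
  Finset.Subset.antisymm (cl_subset hH (closed_cl hH A) h.subset_cl) (cl_mono hH h.subset)

theorem Reach.eq_cl (hH : Lin H) {A N : Finset V} (h : Reach H A N) (hN : Closed H N) :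
    N = cl H A :=
  Finset.Subset.antisymm h.subset_cl (cl_subset hH hN h.subset)

theorem IsCls.cl_eq (hH : Lin H) {M a b : Finset V} (hM : IsCls H M) (h : Gen H M a b) :
    cl H (a ∪ b) = M := (h.reach.eq_cl hH hM.closed).symm

theorem isCls_cl (hH : Lin H) {a b : Finset V} (h : Cherry H a b) (hg : g H (cl H (a ∪ b)) = 3) :
    IsCls H (cl H (a ∪ b)) := ⟨closed_cl hH _, hg, a, b, h, reach_cl H _⟩

theorem IsCls.sparse (hH : Lin H) {M : Finset V} (hM : IsCls H M) : Sparse H M := by
  obtain ⟨a, b, hab⟩ := hM.ne
  exact hab.sparse hH hM.g_eq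

/-- The closure of a cherry inside a class is a class. -/
theorem IsCls.isCls_cl (hH : Lin H) {M a b : Finset V} (hM : IsCls H M) (h : Cherry H a b)
    (haM : a ⊆ M) (hbM : b ⊆ M) : IsCls H (cl H (a ∪ b)) := by
  have h1 : cl H (a ∪ b) ⊆ M := cl_subset hH hM.closed (Finset.union_subset haM hbM)
  refine MP_c82047_co18.isCls_cl hH h (le_antisymm ?_ ?_)
  · exact ((reach_cl H _).g_le hH).trans (h.g_le hH)
  · refine (hM.sparse hH).three_le hH h1 ?_
    have := Finset.card_le_card (subset_cl H (a ∪ b))
    rw [h.card hH] at this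
    omega

end

end Pool.Agent.Lib.MP_c82047_co18
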