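import Pool.Agent.Lib.MP_c82047_co18.Defs

/-!
# Cleaning (section 0)
-/

namespace Pool.Agent.Lib.MP_c82047_co18

open Pool.Agent.Lib.MP_c82047_co97

variable {V : Type*} [DecidableEq V] [Fintype V] {H : Finset (Finset V)} {k : ℕ}

theorem e_union_disjoint_ge {H' : Finset (Finset V)} {Z : Finset V} (hH : Lin H)
    (hH' : H' ⊆ H.filter (fun h => Disjoint h Z)) (S : Finset V) :
    e H' S + e H Z ≤ e H ((S \ Z) ∪ Z) := by
  unfold e
  rw [← Finset.card_union_of_disjoint]
  · refine Finset.card_le_card fun h hh => ?_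
    rw [Finset.mem_union, Finset.mem_filter, Finset.mem_filter] at hh
    rw [Finset.mem_filter]
    rcases hh with ⟨h1, h2⟩ | ⟨h1, h2⟩
    · have h3 := hH' h1
      rw [Finset.mem_filter] at h3
      refine ⟨h3.1, fun x hx => ?_⟩
      rw [Finset.mem_union, Finset.mem_sdiff]
      exact Or.inl ⟨h2 hx, Finset.disjoint_left.1 h3.2 hx⟩
    · exact ⟨h1, h2.trans Finset.subset_union_right⟩
  · rw [Finset.disjoint_left]
    intro h h1 h2
    rw [Finset.mem_filter] at h1 h2
    have h3 := hH' h1.1
    rw [Finset.mem_filter] at h3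
    have h4 := hH.1 h h3.1
    obtain ⟨x, hx⟩ := Finset.card_pos.1 (by omega : 0 < h.card)
    exact Finset.disjoint_left.1 h3.2 hx (h2.2 hx)

/-- Removing one small set makes a `k`-free system clean (with a smaller `k`). -/
theorem exists_clean (hH : Lin H) (hk : KFree H k) (hkn : k ≤ Fintype.card V) :
    ∃ Z : Finset V, Z.card < k ∧ ∀ H' ⊆ H.filter (fun h => Disjoint h Z),
      KFree H' (k - Z.card) ∧ Clean H' (k - Z.card) := by
  classical
  have hk0 : 0 < k := by
    rcases Nat.eq_zero_or_pos k with h | h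
    · have := hk ∅ (by rw [Finset.card_empty, h])
      rw [Finset.card_empty] at this
      omega
    · exact h
  have he : e H ∅ = 0 := by
    unfold e
    rw [Finset.card_eq_zero, Finset.filter_eq_empty_iff]
    intro h hh h1
    have h2 := hH.1 h hh
    rw [Finset.subset_empty.1 h1, Finset.card_empty] at h2
    omega
  obtain ⟨Z, hZ, hmax⟩ := Finset.exists_max_image
    ((Finset.univ : Finset (Finset V)).filter (fun Z => Z.card < k ∧ Z.card ≤ e H Z))
    Finset.card ⟨∅, by simp [hk0]⟩
  rw [Finset.mem_filter] at hZ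
  obtain ⟨-, hZk, hZe⟩ := hZ
  refine ⟨Z, hZk, fun H' hH' => ⟨?_, ?_⟩⟩
  · intro S hS
    by_contra hcon
    push Not at hcon
    have h1 := e_union_disjoint_ge hH hH' S
    have h2 : ((S \ Z) ∪ Z).card = (S \ Z).card + Z.card :=
      Finset.card_union_of_disjoint Finset.sdiff_disjoint
    have h3 : (S \ Z).card ≤ S.card := Finset.card_le_card Finset.sdiff_subset
    obtain ⟨T, hT1, hT2⟩ := Finset.exists_superset_card_eq (s := (S \ Z) ∪ Z) (n := k)
      (by omega) hkn
    have h4 := hk T hT2
    have h5 := e_mono H hT1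
    omega
  · intro S hS hSk
    by_contra hcon
    unfold g at hcon
    have h1 := e_union_disjoint_ge hH hH' S
    have h2 : ((S \ Z) ∪ Z).card = (S \ Z).card + Z.card :=
      Finset.card_union_of_disjoint Finset.sdiff_disjoint
    have h3 : (S \ Z).card ≤ S.card := Finset.card_le_card Finset.sdiff_subset
    have h4 : ((S \ Z) ∪ Z).card ≤ Z.card := by
      refine hmax _ ?_
      rw [Finset.mem_filter]
      exact ⟨Finset.mem_univ _, by omega, by omega⟩
    have h5 : S \ Z = ∅ := by
      rw [← Finset.card_eq_zero]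
      omega
    have h6 : e H' S = 0 := by
      unfold e
      rw [Finset.card_eq_zero, Finset.filter_eq_empty_iff]
      intro h hh hhS
      have h7 := hH' hh
      rw [Finset.mem_filter] at h7
      have h8 := hH.1 h h7.1
      obtain ⟨x, hx⟩ := Finset.card_pos.1 (by omega : 0 < h.card)
      have h9 : x ∈ Z := by
        by_contra hxZ
        have : x ∈ S \ Z := Finset.mem_sdiff.2 ⟨hhS hx, hxZ⟩
        rw [h5] at this
        exact absurd this (Finset.notMem_empty x)
      exact Finset.disjoint_left.1 h7.2 hx h9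
    have h7 := Finset.card_pos.2 hS
    omega

/-- Few triples meet a small set. -/
theorem card_meet_le (hH : Lin H) (Z : Finset V) :
    2 * (H \ H.filter (fun h => Disjoint h Z)).card ≤ Z.card * Fintype.card V := by
  have h1 : H \ H.filter (fun h => Disjoint h Z) ⊆ Z.biUnion (fun z => H.filter (fun h => z ∈ h)) := by
    intro h hh
    rw [Finset.mem_sdiff, Finset.mem_filter, not_and] at hh
    have h2 := hh.2 hh.1
    rw [Finset.not_disjoint_iff] at h2
    obtain ⟨z, hz, hzZ⟩ := h2
    exact Finset.mem_biUnion.2 ⟨z, hzZ, Finset.mem_filter.2 ⟨hh.1, hz⟩⟩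
  have h2 := (Finset.card_le_card h1).trans Finset.card_biUnion_le
  calc 2 * (H \ H.filter (fun h => Disjoint h Z)).card
      ≤ 2 * ∑ z ∈ Z, (H.filter (fun h => z ∈ h)).card := Nat.mul_le_mul_left _ h2
    _ = ∑ z ∈ Z, 2 * deg H z := by rw [Finset.mul_sum]; rfl
    _ ≤ ∑ _z ∈ Z, Fintype.card V := Finset.sum_le_sum fun z _ => deg_le hH z
    _ = Z.card * Fintype.card V := by rw [Finset.sum_const, smul_eq_mul]

end Pool.Agent.Lib.MP_c82047_co18
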