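import Pool.Agent.Lib.MP_c82047_co18.Own
import Pool.Agent.Lib.MP_c82047_co80.Cnt.Leaf

/-!
# Counting cherries, loose triangles and wheels of a class (section 3)
-/

namespace Pool.Agent.Lib.MP_c82047_co18

open Pool.Agent.Lib.MP_c82047_co97
open Pool.Agent.Lib.MP_c82047_co80

namespace Counts

section

variable {V : Type*} [DecidableEq V] {H : Finset (Finset V)}

/-- the triples inside `N` -/
def E (H : Finset (Finset V)) (N : Finset V) : Finset (Finset V) := H.filter fun f => f ⊆ N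

theorem mem_E {N f : Finset V} : f ∈ E H N ↔ f ∈ H ∧ f ⊆ N := by
  unfold E; rw [Finset.mem_filter]

theorem E_subset (N : Finset V) : E H N ⊆ H := Finset.filter_subset _ _

theorem gen_mem {N a b : Finset V} (h : Gen H N a b) : a ∈ E H N :=
  mem_E.2 ⟨h.cherry.ha, h.subset.1⟩

theorem own_gen (hH : Lin H) (N : Finset V) : Cnt.Own (E H N) (Gen H N) where
  symm := fun a b h => h.symm
  mem := fun a b h => gen_mem h
  ne := fun a b h => h.cherry.ne
  meet := fun a b h => h.cherry.meet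
  tri := by
    intro a b c h hc hac hbc he
    rw [mem_E] at hc
    refine h.loose hH hc.1 ⟨h.cherry.ne, ?_, ?_, h.cherry.meet, hac, hbc, he⟩ hc.2
    · rintro rfl
      rw [Finset.inter_right_comm, Finset.inter_self] at he
      exact Finset.nonempty_iff_ne_empty.1 h.cherry.meet he
    · rintro rfl
      rw [Finset.inter_assoc, Finset.inter_self] at he
      exact Finset.nonempty_iff_ne_empty.1 h.cherry.meet he

theorem tr_iff (hH : Lin H) {N a b c : Finset V} (h : Gen H N a b) (hc : c ∈ E H N) :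
    Cnt.Tr (Gen H N) a b c ↔ Loose a b c := by
  constructor
  · rintro ⟨h1, h2, h3, h4⟩
    exact ⟨h1.cherry.ne, h2.cherry.ne, h3.cherry.ne, h1.cherry.meet, h2.cherry.meet,
      h3.cherry.meet, h4⟩
  · intro hL
    rw [mem_E] at hc
    exact ⟨h, h.loose hH hc.1 hL hc.2, h.symm.loose hH hc.1 hL.swap₁₂ hc.2, hL.2.2.2.2.2.2⟩

theorem chN_congr {R R' : Finset V → Finset V → Prop} {E : Finset (Finset V)}
    (h : ∀ a ∈ E, ∀ b ∈ E, (R a b ↔ R' a b)) : Cnt.chN R E = Cnt.chN R' E := by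
  classical
  unfold Cnt.chN
  exact Finset.sum_congr rfl fun a ha => Finset.sum_congr rfl fun b hb =>
    if_congr (h a ha b hb) rfl rfl

theorem tr_congr {R R' : Finset V → Finset V → Prop} {E : Finset (Finset V)}
    (h : ∀ a ∈ E, ∀ b ∈ E, (R a b ↔ R' a b)) {a b c : Finset V} (ha : a ∈ E) (hb : b ∈ E)
    (hc : c ∈ E) : Cnt.Tr R a b c ↔ Cnt.Tr R' a b c := by
  unfold Cnt.Tr
  rw [h a ha b hb, h a ha c hc, h b hb c hc]

theorem trN_congr {R R' : Finset V → Finset V → Prop} {E : Finset (Finset V)}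
    (h : ∀ a ∈ E, ∀ b ∈ E, (R a b ↔ R' a b)) : Cnt.trN R E = Cnt.trN R' E := by
  classical
  unfold Cnt.trN
  exact Finset.sum_congr rfl fun a ha => Finset.sum_congr rfl fun b hb =>
    Finset.sum_congr rfl fun c hc => if_congr (tr_congr h ha hb hc) rfl rfl

theorem whN_congr {R R' : Finset V → Finset V → Prop} {E : Finset (Finset V)}
    (h : ∀ a ∈ E, ∀ b ∈ E, (R a b ↔ R' a b)) : Cnt.whN R E = Cnt.whN R' E := by
  classical
  unfold Cnt.whN
  refine Finset.sum_congr rfl fun a ha => Finset.sum_congr rfl fun b hb =>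
    Finset.sum_congr rfl fun c hc => Finset.sum_congr rfl fun r hr => ?_
  have : Cnt.Wh R a b c r ↔ Cnt.Wh R' a b c r := by
    unfold Cnt.Wh
    rw [tr_congr h ha hb hr, tr_congr h ha hc hr, tr_congr h hb hc hr]
  exact if_congr this rfl rfl

theorem E_insert (hH : Lin H) {N : Finset V} {x y z : V} (hm : ({x, y, z} : Finset V) ∈ H)
    (hx : x ∉ N) (hy : y ∈ N) (hz : z ∈ N) (hg : g H N ≤ g H (insert x N)) :
    E H (insert x N) = insert {x, y, z} (E H N) := by
  ext f
  rw [Finset.mem_insert, mem_E, mem_E]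
  constructor
  · rintro ⟨hf, hfN⟩
    by_cases hxf : x ∈ f
    · exact Or.inl (uniq_edge hH hm hx hy hz hg hf hfN hxf)
    · exact Or.inr ⟨hf, fun w hw => (Finset.mem_insert.1 (hfN hw)).resolve_left
        fun h => hxf (h ▸ hw)⟩
  · rintro (rfl | ⟨hf, hfN⟩)
    · refine ⟨hm, fun w hw => ?_⟩
      simp only [Finset.mem_insert, Finset.mem_singleton] at hw
      rcases hw with rfl | rfl | rfl
      · exact Finset.mem_insert_self _ _
      · exact Finset.mem_insert_of_mem hy
      · exact Finset.mem_insert_of_mem hz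
    · exact ⟨hf, hfN.trans (Finset.subset_insert _ _)⟩

theorem sparse_union (hH : Lin H) {N : Finset V} (hs : Sparse H N) {F : Finset (Finset V)}
    (hF : F ⊆ E H N) (h2 : 2 ≤ F.card) :
    Pool.Agent.Lib.MP_c82047_co97.e H (F.biUnion id) + 3 ≤ (F.biUnion id).card := by
  obtain ⟨a, ha, b, hb, hab⟩ := Finset.one_lt_card.1 (by omega : 1 < F.card)
  have ha' := mem_E.1 (hF ha)
  have hb' := mem_E.1 (hF hb)
  have h4 : 4 ≤ (F.biUnion id).card := by
    have h1 : a ∪ b ⊆ F.biUnion id :=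
      Finset.union_subset (Finset.subset_biUnion_of_mem id ha) (Finset.subset_biUnion_of_mem id hb)
    have h2 := Finset.card_le_card h1
    have h3 := Finset.card_union_add_card_inter a b
    have h5 := hH.2 a ha'.1 b hb'.1 hab
    rw [hH.1 a ha'.1, hH.1 b hb'.1] at h3
    omega
  have h5 : F.biUnion id ⊆ N := by
    intro w hw
    rw [Finset.mem_biUnion] at hw
    obtain ⟨f, hf, hw⟩ := hw
    exact (mem_E.1 (hF hf)).2 hw
  have h6 := hs.three_le hH h5 h4
  unfold g at h6
  omega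

theorem sparse_sub (hH : Lin H) {N : Finset V} (hs : Sparse H N) :
    ∀ P ⊆ N, 4 ≤ P.card → Pool.Agent.Lib.MP_c82047_co97.e H P + 3 ≤ P.card := by
  intro P hP h4
  have h6 := hs.three_le hH hP h4
  unfold g at h6
  omega

/-- the triangle completing a new cherry, one side -/
theorem rec_aux (hH : Lin H) {N : Finset V} {x y z : V} (hN : Full H N)
    (h : OwnStep H N x y z) (hN' : Full H (insert x N)) {f : Finset V} (hf : f ∈ E H N)
    (hg : Gen H (insert x N) {x, y, z} f) (hy : y ∈ f) :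
    ∃ f' ∈ E H N, Cnt.Tr (Gen H (insert x N)) {x, y, z} f f' := by
  have hgg : g H N ≤ g H (insert x N) := by rw [hN.g_eq, hN'.g_eq]
  obtain ⟨f', hzf', hff'⟩ := gen_new hH h.mem h.hx h.hy h.hz hgg hg hy (hN.five_le hH)
  have hfN := (mem_E.1 hf).2
  have hf'E : f' ∈ E H N := gen_mem hff'.symm
  have hf'N := (mem_E.1 hf'E).2
  have hxf : x ∉ f := fun hx => h.hx (hfN hx)
  have hxf' : x ∉ f' := fun hx => h.hx (hf'N hx)
  have hm' : ({x, z, y} : Finset V) ∈ H := h.symm.mem
  have heq : ({x, z, y} : Finset V) = {x, y, z} := by rw [Finset.pair_comm]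
  have hgf' : Gen H (insert x N) {x, y, z} f' := by
    have := gen_new_of hH hm' h.hx hff'.symm hzf' hy
    rwa [heq] at this
  refine ⟨f', hf'E, hg, hgf', (gen_old hH h.mem h.hx h.hy h.hz hgg hxf hxf').2 hff', ?_⟩
  rw [Finset.eq_empty_iff_forall_notMem]
  intro v hv
  simp only [Finset.mem_inter, Finset.mem_insert, Finset.mem_singleton] at hv
  obtain ⟨⟨rfl | rfl | rfl, hvf⟩, hvf'⟩ := hv
  · exact hxf hvf
  · exact h.not_adj hH (mem_E.1 hf'E).1 hf'N hvf' hzf'
  · exact h.not_adj hH (mem_E.1 hf).1 hfN hy hvf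

/-- one own step -/
theorem step_full (hH : Lin H) {N : Finset V} {x y z : V} (hN : Full H N)
    (h : OwnStep H N x y z) (hN' : Full H (insert x N))
    (h1 : 6 ≤ 3 * Cnt.chN (Gen H N) (E H N) - 2 * Cnt.trN (Gen H N) (E H N)
        + Cnt.whN (Gen H N) (E H N))
    (h2 : 6 * ((N.card : ℤ) - 3) ≤ 6 * Cnt.chN (Gen H N) (E H N)
        - 3 * Cnt.trN (Gen H N) (E H N) + Cnt.whN (Gen H N) (E H N)) :
    (6 ≤ 3 * Cnt.chN (Gen H (insert x N)) (E H (insert x N))
        - 2 * Cnt.trN (Gen H (insert x N)) (E H (insert x N))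
        + Cnt.whN (Gen H (insert x N)) (E H (insert x N))) ∧
    (6 * (((insert x N).card : ℤ) - 3) ≤ 6 * Cnt.chN (Gen H (insert x N)) (E H (insert x N))
        - 3 * Cnt.trN (Gen H (insert x N)) (E H (insert x N))
        + Cnt.whN (Gen H (insert x N)) (E H (insert x N))) := by
  have hgg : g H N ≤ g H (insert x N) := by rw [hN.g_eq, hN'.g_eq]
  have hE := E_insert hH h.mem h.hx h.hy h.hz hgg
  have hcong : ∀ a ∈ E H N, ∀ b ∈ E H N, (Gen H N a b ↔ Gen H (insert x N) a b) := by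
    intro a ha b hb
    exact (gen_old hH h.mem h.hx h.hy h.hz hgg (fun hx => h.hx ((mem_E.1 ha).2 hx))
      (fun hx => h.hx ((mem_E.1 hb).2 hx))).symm
  rw [chN_congr hcong, trN_congr hcong, whN_congr hcong] at h1 h2
  have heE : ({x, y, z} : Finset V) ∉ E H N := by
    intro hm
    exact h.hx ((mem_E.1 hm).2 (Finset.mem_insert_self _ _))
  obtain ⟨f, f', hff', hyf, hzf'⟩ := h.own
  have hR : Cnt.Own (insert {x, y, z} (E H N)) (Gen H (insert x N)) := by
    rw [← hE]; exact own_gen hH _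
  have hx : ∀ f ∈ E H N, x ∉ f := fun f hf hxf => h.hx ((mem_E.1 hf).2 hxf)
  have key := Cnt.step hH hR (E_subset N) h.mem heE rfl (h.ne hH).2.2 hx
    ⟨f, gen_mem hff', gen_new_of hH h.mem h.hx hff' hyf hzf'⟩
    (by
      intro f1 hf1 hg1
      have hxf1 := hx f1 hf1
      obtain ⟨v, hv⟩ := hg1.cherry.meet
      simp only [Finset.mem_inter, Finset.mem_insert, Finset.mem_singleton] at hv
      obtain ⟨rfl | rfl | rfl, hvf⟩ := hv
      · exact absurd hvf hxf1
      · exact rec_aux hH hN h hN' hf1 hg1 hvf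
      · have heq : ({x, v, y} : Finset V) = {x, y, v} := by rw [Finset.pair_comm]
        have := rec_aux hH hN h.symm hN' hf1 (by rw [heq]; exact hg1) hvf
        rwa [heq] at this)
    (fun F hF h2 => sparse_union hH (hN.sparse hH) hF h2)
  have hcard : ((insert x N).card : ℤ) = N.card + 1 := by
    rw [Finset.card_insert_of_notMem h.hx]; push_cast; ring
  rw [hE, hcard]
  constructor
  · linarith [key.1]
  · linarith [key.2]

theorem E_cherry (hH : Lin H) {a b : Finset V} (hc : Cherry H a b) (hg : g H (a ∪ b) = 3) :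
    E H (a ∪ b) = {a, b} := by
  have h1 : (E H (a ∪ b)).card = 2 := by
    have h5 := hc.card hH
    unfold g at hg
    have : (E H (a ∪ b)).card = Pool.Agent.Lib.MP_c82047_co97.e H (a ∪ b) := rfl
    omega
  symm
  apply Finset.eq_of_subset_of_card_le
  · intro f hf
    rw [Finset.mem_insert, Finset.mem_singleton] at hf
    rw [mem_E]
    rcases hf with rfl | rfl
    · exact ⟨hc.ha, Finset.subset_union_left⟩
    · exact ⟨hc.hb, Finset.subset_union_right⟩
  · rw [h1, Finset.card_pair hc.ne]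

theorem whN_nonneg (R : Finset V → Finset V → Prop) (E : Finset (Finset V)) :
    0 ≤ Cnt.whN R E := by
  unfold Cnt.whN
  exact Finset.sum_nonneg fun a _ => Finset.sum_nonneg fun b _ => Finset.sum_nonneg fun c _ =>
    Finset.sum_nonneg fun r _ => by split_ifs <;> norm_num

theorem base_full (hH : Lin H) {a b : Finset V} (hN : Full H (a ∪ b)) (hc : Cherry H a b) :
    (6 ≤ 3 * Cnt.chN (Gen H (a ∪ b)) (E H (a ∪ b)) - 2 * Cnt.trN (Gen H (a ∪ b)) (E H (a ∪ b))
        + Cnt.whN (Gen H (a ∪ b)) (E H (a ∪ b))) ∧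
    (6 * (((a ∪ b).card : ℤ) - 3) ≤ 6 * Cnt.chN (Gen H (a ∪ b)) (E H (a ∪ b))
        - 3 * Cnt.trN (Gen H (a ∪ b)) (E H (a ∪ b)) + Cnt.whN (Gen H (a ∪ b)) (E H (a ∪ b))) := by
  have hE := E_cherry hH hc hN.g_eq
  have hR := own_gen hH (a ∪ b)
  have hab : Gen H (a ∪ b) a b := ⟨hc, Reach.refl⟩
  have h1 : Cnt.chN (Gen H (a ∪ b)) (E H (a ∪ b)) = 2 := by
    unfold Cnt.chN
    rw [hE, Finset.sum_pair hc.ne, Finset.sum_pair hc.ne, Finset.sum_pair hc.ne,
      if_neg (fun h => hR.ne _ _ h rfl), if_pos hab, if_pos hab.symm,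
      if_neg (fun h => hR.ne _ _ h rfl)]
    norm_num
  have h2 : Cnt.trN (Gen H (a ∪ b)) (E H (a ∪ b)) = 0 := by
    unfold Cnt.trN
    refine Finset.sum_eq_zero fun u hu => Finset.sum_eq_zero fun v hv =>
      Finset.sum_eq_zero fun w hw => if_neg fun ht => ?_
    have e1 := hR.ne _ _ ht.1
    have e2 := hR.ne _ _ ht.2.1
    have e3 := hR.ne _ _ ht.2.2.1
    rw [hE, Finset.mem_insert, Finset.mem_singleton] at hu hv hw
    rcases hu with rfl | rfl <;> rcases hv with rfl | rfl <;> rcases hw with rfl | rfl <;>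
      first | exact e1 rfl | exact e2 rfl | exact e3 rfl
  have h3 := whN_nonneg (Gen H (a ∪ b)) (E H (a ∪ b))
  have h4 : ((a ∪ b).card : ℤ) = 5 := by rw [hc.card hH]; norm_num
  rw [h1, h2, h4]
  constructor <;> linarith

theorem counts_full (hH : Lin H) {N : Finset V} (hN : Full H N) :
    (6 ≤ 3 * Cnt.chN (Gen H N) (E H N) - 2 * Cnt.trN (Gen H N) (E H N)
        + Cnt.whN (Gen H N) (E H N)) ∧
    (6 * ((N.card : ℤ) - 3) ≤ 6 * Cnt.chN (Gen H N) (E H N)
        - 3 * Cnt.trN (Gen H N) (E H N) + Cnt.whN (Gen H N) (E H N)) := by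
  obtain ⟨a, b, hab⟩ := hN.ne
  exact hN.induction hH hab
    (motive := fun N => (6 ≤ 3 * Cnt.chN (Gen H N) (E H N) - 2 * Cnt.trN (Gen H N) (E H N)
        + Cnt.whN (Gen H N) (E H N)) ∧
    (6 * ((N.card : ℤ) - 3) ≤ 6 * Cnt.chN (Gen H N) (E H N)
        - 3 * Cnt.trN (Gen H N) (E H N) + Cnt.whN (Gen H N) (E H N)))
    (fun h => base_full hH h hab.cherry)
    (fun N' x y z h1 _ h3 h4 h5 => step_full hH h1 h3 h4 h5.1 h5.2)

/-- every point of a full hull is on a triple -/
theorem dg_pos {N : Finset V} (hN : Full H N) : ∀ v ∈ N, 1 ≤ Cnt.dg (E H N) v := by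
  intro v hv
  obtain ⟨a, b, hab, hva⟩ := hN.cov v hv
  exact Finset.card_pos.2 ⟨a, Finset.mem_filter.2 ⟨gen_mem hab, hva⟩⟩

theorem card_E {N : Finset V} (hN : Full H N) : (E H N).card + 3 = N.card := by
  have h := hN.g_eq
  unfold g at h
  have : (E H N).card = Pool.Agent.Lib.MP_c82047_co97.e H N := rfl
  omega

theorem leaf_eq (N : Finset V) : Cnt.leaf (E H N) N = leaves H N := by
  unfold Cnt.leaf leaves Cnt.dg E
  simp only [Finset.filter_filter]

theorem loose_of_reach (hH : Lin H) {a b N : Finset V} (hc : Cherry H a b)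
    (h : Reach H (a ∪ b) N) : N = a ∪ b ∨ ∃ c ∈ H, c ⊆ N ∧ Loose a b c := by
  induction h with
  | refl => exact Or.inl rfl
  | @step N h x hr hh hxh hxN hsub ih =>
    right
    rcases ih with rfl | ⟨c, hcH, hcN, hL⟩
    · refine ⟨h, hh, ?_, ?_⟩
      · intro w hw
        by_cases hwx : w = x
        · rw [hwx]; exact Finset.mem_insert_self _ _
        · exact Finset.mem_insert_of_mem (hsub (Finset.mem_erase.2 ⟨hwx, hw⟩))
      · have hxa : x ∉ a := fun hx => hxN (Finset.mem_union_left _ hx)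
        have hxb : x ∉ b := fun hx => hxN (Finset.mem_union_right _ hx)
        have hah : a ≠ h := fun he => hxa (he ▸ hxh)
        have hbh : b ≠ h := fun he => hxb (he ▸ hxh)
        have h2 : (h.erase x).card = 2 := by
          rw [Finset.card_erase_of_mem hxh, hH.1 h hh]
        obtain ⟨p, q, hpq, hs⟩ := Finset.card_eq_two.1 h2
        have hp : p ∈ h.erase x := by rw [hs]; simp
        have hq : q ∈ h.erase x := by rw [hs]; simp
        have hph := Finset.mem_of_mem_erase hp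
        have hqh := Finset.mem_of_mem_erase hq
        have nota : ¬ (p ∈ a ∧ q ∈ a) := fun hpa =>
          hah (line_eq hH hc.ha hh hpq hpa.1 hpa.2 hph hqh)
        have notb : ¬ (p ∈ b ∧ q ∈ b) := fun hpb =>
          hbh (line_eq hH hc.hb hh hpq hpb.1 hpb.2 hph hqh)
        have hpu := Finset.mem_union.1 (hsub hp)
        have hqu := Finset.mem_union.1 (hsub hq)
        have hpt : ∀ w ∈ h, w ∈ a → w ∈ b → False := by
          intro w hwh hwa hwb
          have hwx : w ≠ x := fun he => hxa (he ▸ hwa)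
          have : w ∈ h.erase x := Finset.mem_erase.2 ⟨hwx, hwh⟩
          rw [hs, Finset.mem_insert, Finset.mem_singleton] at this
          rcases this with rfl | rfl
          · rcases hqu with h' | h'
            · exact nota ⟨hwa, h'⟩
            · exact notb ⟨hwb, h'⟩
          · rcases hpu with h' | h'
            · exact nota ⟨h', hwa⟩
            · exact notb ⟨h', hwb⟩
        have hmeet : (a ∩ h).Nonempty ∧ (b ∩ h).Nonempty := by
          rcases hpu with h1 | h1
          · rcases hqu with h2 | h2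
            · exact absurd ⟨h1, h2⟩ nota
            · exact ⟨⟨p, Finset.mem_inter.2 ⟨h1, hph⟩⟩, ⟨q, Finset.mem_inter.2 ⟨h2, hqh⟩⟩⟩
          · rcases hqu with h2 | h2
            · exact ⟨⟨q, Finset.mem_inter.2 ⟨h2, hqh⟩⟩, ⟨p, Finset.mem_inter.2 ⟨h1, hph⟩⟩⟩
            · exact absurd ⟨h1, h2⟩ notb
        refine ⟨hc.ne, hah, hbh, hc.meet, hmeet.1, hmeet.2, ?_⟩
        rw [Finset.eq_empty_iff_forall_notMem]
        intro w hw
        simp only [Finset.mem_inter] at hw
        exact hpt w hw.2 hw.1.1 hw.1.2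
    · exact ⟨c, hcH, hcN.trans (Finset.subset_insert _ _), hL⟩

theorem tr_of_gen (hH : Lin H) {N : Finset V} (h6 : 6 ≤ N.card) {a b : Finset V}
    (hab : Gen H N a b) : ∃ c ∈ E H N, Cnt.Tr (Gen H N) a b c := by
  rcases loose_of_reach hH hab.cherry hab.reach with h | ⟨c, hc, hcN, hL⟩
  · have := hab.cherry.card hH
    rw [← h] at this
    omega
  · have hcE : c ∈ E H N := mem_E.2 ⟨hc, hcN⟩
    exact ⟨c, hcE, (tr_iff hH hab hcE).2 hL⟩

end

section

variable {V : Type*} [DecidableEq V] [Fintype V] {H : Finset (Finset V)}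

open Classical in
theorem sum_cher (hH : Lin H) {M : Finset V} (hM : IsCls H M)
    (F : Finset V → Finset V → ℤ) :
    ∑ p ∈ cher H M, F p.1 p.2 = ∑ a ∈ E H (hull H M), ∑ b ∈ E H (hull H M),
      if Gen H (hull H M) a b then F a b else 0 := by
  rw [← Finset.sum_product', ← Finset.sum_filter]
  refine Finset.sum_congr ?_ fun _ _ => rfl
  ext p
  rw [mem_cher, Finset.mem_filter, Finset.mem_product, gen_hull_iff hH hM]
  constructor
  · intro h
    have h' := (gen_hull_iff hH hM).2 h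
    exact ⟨⟨gen_mem h', gen_mem h'.symm⟩, h⟩
  · exact fun h => h.2

theorem w_eq (hH : Lin H) {M : Finset V} (hM : IsCls H M) {a b : Finset V}
    (hab : Gen H (hull H M) a b) : w H a b =
      ((E H (hull H M)).filter fun c => Loose a b c).card := by
  unfold w
  congr 1
  ext c
  rw [Finset.mem_filter, Finset.mem_filter, mem_E]
  constructor
  · rintro ⟨hc, hL⟩
    exact ⟨⟨hc, (loose_subset_hull hH hM ((gen_hull_iff hH hM).1 hab) hc hL).1⟩, hL⟩
  · rintro ⟨⟨hc, -⟩, hL⟩
    exact ⟨hc, hL⟩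

open Classical in
theorem sum_w (hH : Lin H) {M : Finset V} (hM : IsCls H M) :
    ∑ p ∈ cher H M, (w H p.1 p.2 : ℤ) = Cnt.trN (Gen H (hull H M)) (E H (hull H M)) := by
  rw [sum_cher hH hM (fun a b => (w H a b : ℤ))]
  unfold Cnt.trN
  refine Finset.sum_congr rfl fun a ha => Finset.sum_congr rfl fun b hb => ?_
  split_ifs with h
  · rw [w_eq hH hM h, Finset.card_filter]
    push_cast
    exact Finset.sum_congr rfl fun c hc => if_congr (tr_iff hH h hc).symm rfl rfl
  · exact (Finset.sum_eq_zero fun c hc => if_neg fun ht => h ht.1).symm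

theorem wheel_iff (hH : Lin H) {M : Finset V} (hM : IsCls H M) {a b : Finset V}
    (hab : Gen H (hull H M) a b) {c r : Finset V} :
    Wheel H a b c r ↔ c ∈ E H (hull H M) ∧ r ∈ E H (hull H M) ∧
      Cnt.Wh (Gen H (hull H M)) a b c r := by
  constructor
  · intro hw
    obtain ⟨g1, g2, g3, g4, g5⟩ := wheel_gen hH hM ((gen_hull_iff hH hM).1 hab) hw
    rw [← gen_hull_iff hH hM] at g1 g2 g3 g4 g5
    obtain ⟨v, hva, hvb, hvc, hvr⟩ := hw.hub
    have hempty : ∀ {p q : Finset V}, p ∈ H → q ∈ H → p ≠ q → v ∈ p → v ∈ q → p ∩ q ∩ r = ∅ := by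
      intro p q hp hq hpq hvp hvq
      rw [Finset.eq_empty_iff_forall_notMem]
      intro u hu
      simp only [Finset.mem_inter] at hu
      have huv : u ≠ v := fun h => hvr (h ▸ hu.2)
      exact hpq (line_eq hH hp hq huv hu.1.1 hvp hu.1.2 hvq)
    refine ⟨gen_mem g3, gen_mem g1.symm, ⟨v, by simp [hva, hvb, hvc]⟩,
      ⟨hab, g1, g2, hempty hw.ha hw.hb hw.ab hva hvb⟩,
      ⟨g4, g1, g3, hempty hw.ha hw.hc hw.ac hva hvc⟩,
      ⟨g5, g2, g3, hempty hw.hb hw.hc hw.bc hvb hvc⟩⟩
  · rintro ⟨hc, hr, hw⟩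
    obtain ⟨v, hv⟩ := hw.1
    simp only [Finset.mem_inter] at hv
    refine ⟨hab.cherry.ha, hab.cherry.hb, (mem_E.1 hc).1, (mem_E.1 hr).1, hab.cherry.ne,
      hw.2.2.1.1.cherry.ne, hw.2.2.2.1.cherry.ne,
      ⟨v, hv.1.1, hv.1.2, hv.2, Cnt.rim_not_mem hw hv.1.1 hv.1.2⟩, ?_, ?_, ?_⟩
    · rw [Finset.inter_comm]; exact hw.2.1.2.1.cherry.meet
    · rw [Finset.inter_comm]; exact hw.2.1.2.2.1.cherry.meet
    · rw [Finset.inter_comm]; exact hw.2.2.1.2.2.1.cherry.meet

open Classical in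
theorem sum_q (hH : Lin H) {M : Finset V} (hM : IsCls H M) :
    ∑ p ∈ cher H M, (q H p.1 p.2 : ℤ) = Cnt.whN (Gen H (hull H M)) (E H (hull H M)) := by
  rw [sum_cher hH hM (fun a b => (q H a b : ℤ))]
  unfold Cnt.whN
  refine Finset.sum_congr rfl fun a ha => Finset.sum_congr rfl fun b hb => ?_
  split_ifs with h
  · have h1 : q H a b = ((E H (hull H M) ×ˢ E H (hull H M)).filter
        fun p => Cnt.Wh (Gen H (hull H M)) a b p.1 p.2).card := by
      unfold q
      congr 1
      ext p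
      rw [Finset.mem_filter, Finset.mem_filter, Finset.mem_product, Finset.mem_product,
        wheel_iff hH hM h]
      constructor
      · rintro ⟨-, h1, h2, h3⟩
        exact ⟨⟨h1, h2⟩, h3⟩
      · rintro ⟨⟨h1, h2⟩, h3⟩
        exact ⟨⟨(mem_E.1 h1).1, (mem_E.1 h2).1⟩, h1, h2, h3⟩
    rw [h1, Finset.card_filter, Finset.sum_product]
    push_cast
    rfl
  · exact (Finset.sum_eq_zero fun c hc => Finset.sum_eq_zero fun r hr =>
      if_neg fun ht => h ht.2.1.1).symm

open Classical in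
theorem sum_one (hH : Lin H) {M : Finset V} (hM : IsCls H M) :
    ∑ _p ∈ cher H M, (1 : ℤ) = Cnt.chN (Gen H (hull H M)) (E H (hull H M)) := by
  rw [sum_cher hH hM (fun _ _ => (1 : ℤ))]
  rfl

theorem sum_lin (M : Finset V) (α β γ : ℤ) :
    ∑ p ∈ cher H M, (α - β * (w H p.1 p.2 : ℤ) + γ * (q H p.1 p.2 : ℤ))
      = α * ∑ _p ∈ cher H M, (1 : ℤ) - β * ∑ p ∈ cher H M, (w H p.1 p.2 : ℤ)
        + γ * ∑ p ∈ cher H M, (q H p.1 p.2 : ℤ) := by
  rw [Finset.mul_sum, Finset.mul_sum, Finset.mul_sum, ← Finset.sum_sub_distrib,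
    ← Finset.sum_add_distrib]
  exact Finset.sum_congr rfl fun p _ => by ring

end

end Counts

open Counts

variable {V : Type*} [DecidableEq V] [Fintype V] {H : Finset (Finset V)}

/-- (I1), six times `I - 2T + B ≥ 1`. -/
theorem counts_one (hH : Lin H) {M : Finset V} (hM : IsCls H M) :
    6 ≤ ∑ p ∈ cher H M, (3 - 2 * (w H p.1 p.2 : ℤ) + (q H p.1 p.2 : ℤ)) := by
  have h1 := (counts_full hH (hull_full hH hM)).1
  have h2 := sum_lin (H := H) M 3 2 1
  simp only [one_mul] at h2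
  rw [h2, sum_one hH hM, sum_w hH hM, sum_q hH hM]
  linarith

/-- (I2), six times `2I - 3T + B ≥ |V_C| - 3`. -/
theorem counts_two (hH : Lin H) {M : Finset V} (hM : IsCls H M) :
    6 * (((hull H M).card : ℤ) - 3) ≤ ∑ p ∈ cher H M, (6 - 3 * (w H p.1 p.2 : ℤ) + (q H p.1 p.2 : ℤ)) := by
  have h1 := (counts_full hH (hull_full hH hM)).2
  have h2 := sum_lin (H := H) M 6 3 1
  simp only [one_mul] at h2
  rw [h2, sum_one hH hM, sum_w hH hM, sum_q hH hM]
  linarith

theorem Counts.S_eq (hH : Lin H) {M : Finset V} (hM : IsCls H M) :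
    S H M = 2 * Cnt.chN (Gen H (hull H M)) (E H (hull H M))
      - Cnt.trN (Gen H (hull H M)) (E H (hull H M)) := by
  have h2 := sum_lin (H := H) M 2 1 0
  simp only [one_mul, zero_mul, add_zero] at h2
  unfold S
  rw [h2, sum_one hH hM, sum_w hH hM]

/-- (R1). -/
theorem two_S_ge (hH : Lin H) {M : Finset V} (hM : IsCls H M) :
    6 + ∑ p ∈ cher H M, (1 - (q H p.1 p.2 : ℤ)) ≤ 2 * S H M := by
  have h1 := (counts_full hH (hull_full hH hM)).1
  rw [Counts.S_eq hH hM, Finset.sum_sub_distrib, sum_one hH hM, sum_q hH hM]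
  linarith

/-- The number of wheels: `6B ≤ 6 (|V_C| - 9 + L)`. -/
theorem sum_q_le (hH : Lin H) {M : Finset V} (hM : IsCls H M) :
    ∑ p ∈ cher H M, (q H p.1 p.2 : ℤ) ≤
      6 * (((hull H M).card : ℤ) - 9 + ((leaves H (hull H M)).card : ℤ)) := by
  rw [sum_q hH hM]
  have hN := hull_full hH hM
  have h := Cnt.whN_le hH (own_gen hH (hull H M)) (E_subset _) (fun f hf => (mem_E.1 hf).2)
  have h2 : ∑ v ∈ hull H M, ((Cnt.rims (Gen H (hull H M)) (E H (hull H M)) v).card : ℤ)
      ≤ ∑ v ∈ hull H M, ((Cnt.dg (E H (hull H M)) v : ℤ) - 2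
        + if Cnt.dg (E H (hull H M)) v = 1 then 1 else 0) :=
    Finset.sum_le_sum fun v hv => Cnt.rims_le hH (own_gen hH (hull H M)) (E_subset _)
      (fun f hf => (mem_E.1 hf).2) (sparse_sub hH (hN.sparse hH)) (dg_pos hN v hv)
  have h3 : ∑ v ∈ hull H M, ((Cnt.dg (E H (hull H M)) v : ℤ) - 2
        + if Cnt.dg (E H (hull H M)) v = 1 then 1 else 0)
      = 3 * ((E H (hull H M)).card : ℤ) - 2 * (hull H M).card
        + (leaves H (hull H M)).card := by
    rw [Finset.sum_add_distrib, Finset.sum_sub_distrib, ← Nat.cast_sum,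
      Cnt.sum_dg (fun f hf => hH.1 f (E_subset _ hf)) (fun f hf => (mem_E.1 hf).2),
      Finset.sum_const, ← leaf_eq, Cnt.leaf, Finset.card_filter]
    push_cast
    ring
  have h4 := card_E hN
  have h5 : ((E H (hull H M)).card : ℤ) + 3 = (hull H M).card := by exact_mod_cast h4
  linarith

/-- (R2). -/
theorem six_le_leaves (hH : Lin H) {M : Finset V} (hM : IsCls H M) (hS : S H M ≤ 0) :
    6 ≤ (leaves H (hull H M)).card := by
  have hN := hull_full hH hM
  have h := Cnt.ineq2 hH (own_gen hH (hull H M)) (E_subset _) (fun f hf => (mem_E.1 hf).2)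
    (sparse_sub hH (hN.sparse hH)) (dg_pos hN) (card_E hN) (counts_full hH hN).2
  rw [← Counts.S_eq hH hM, leaf_eq] at h
  have : (6 : ℤ) ≤ (leaves H (hull H M)).card := by linarith
  exact_mod_cast this

/-- A triple of an own hull with at least six points contains at most one leaf. -/
theorem card_inter_leaves_le (hH : Lin H) {N : Finset V} (hN : Full H N) (h6 : 6 ≤ N.card)
    {h : Finset V} (hh : h ∈ H) (hhN : h ⊆ N) : (h ∩ leaves H N).card ≤ 1 := by
  obtain ⟨f, hf⟩ := hN.edge hH hh hhN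
  obtain ⟨c, hc, ht⟩ := tr_of_gen hH h6 hf
  rw [← leaf_eq]
  exact Cnt.leaf_le_one hH (own_gen hH N) (E_subset N) (mem_E.2 ⟨hh, hhN⟩) (gen_mem hf.symm) hc ht

/-- Removing a set of leaves from an own hull keeps it tight. -/
theorem g_sdiff_leaves_le (hH : Lin H) {N J : Finset V} (hN : Full H N) (hJ : J ⊆ leaves H N) :
    g H (N \ J) ≤ 3 := by
  classical
  have hJN : J ⊆ N := hJ.trans (Finset.filter_subset _ _)
  -- the triples meeting `J`
  have h1 : (E H N).card ≤ Pool.Agent.Lib.MP_c82047_co97.e H (N \ J) + J.card := by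
    have h2 : E H N ⊆ (H.filter fun f => f ⊆ N \ J) ∪
        J.biUnion (fun x => (E H N).filter fun f => x ∈ f) := by
      intro f hf
      rw [Finset.mem_union]
      by_cases hd : Disjoint f J
      · left
        rw [Finset.mem_filter]
        exact ⟨(mem_E.1 hf).1, Finset.subset_sdiff.2 ⟨(mem_E.1 hf).2, hd⟩⟩
      · right
        rw [Finset.not_disjoint_iff] at hd
        obtain ⟨x, hxf, hxJ⟩ := hd
        rw [Finset.mem_biUnion]
        exact ⟨x, hxJ, Finset.mem_filter.2 ⟨hf, hxf⟩⟩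
    have h3 := Finset.card_le_card h2
    have h4 := Finset.card_union_le (H.filter fun f => f ⊆ N \ J)
      (J.biUnion (fun x => (E H N).filter fun f => x ∈ f))
    have h5 : (J.biUnion (fun x => (E H N).filter fun f => x ∈ f)).card ≤ J.card := by
      refine Finset.card_biUnion_le.trans ?_
      have : ∀ x ∈ J, ((E H N).filter fun f => x ∈ f).card = 1 := by
        intro x hx
        have := hJ hx
        rw [← leaf_eq, Cnt.leaf, Finset.mem_filter] at this
        exact this.2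
      rw [Finset.sum_congr rfl this, ← Finset.card_eq_sum_ones]
    have h6 : (H.filter fun f => f ⊆ N \ J).card = Pool.Agent.Lib.MP_c82047_co97.e H (N \ J) := rfl
    omega
  have h2 := card_E hN
  have h3 : (N \ J).card + J.card = N.card := by
    rw [Finset.card_sdiff_of_subset hJN]
    have := Finset.card_le_card hJN
    omega
  unfold g
  omega

/-- An own hull with at least six leaves contains a triple without leaves. -/
theorem exists_nonleaf_edge (hH : Lin H) {N : Finset V} (hN : Full H N)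
    (hL : 6 ≤ (leaves H N).card) : ∃ h ∈ H, h ⊆ N ∧ Disjoint h (leaves H N) := by
  have h6 : 6 ≤ N.card := hL.trans (Finset.card_le_card (Finset.filter_subset _ _))
  obtain ⟨f, hf, he⟩ := Cnt.exists_core hH (E_subset N) (fun f hf => (mem_E.1 hf).2) (N := N)
    (fun f hf => by
      rw [leaf_eq]
      exact card_inter_leaves_le hH hN h6 (mem_E.1 hf).1 (mem_E.1 hf).2)
    (card_E hN) (by rw [leaf_eq]; omega)
  rw [leaf_eq] at he
  exact ⟨f, (mem_E.1 hf).1, (mem_E.1 hf).2, Finset.disjoint_iff_inter_eq_empty.2 he⟩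

end Pool.Agent.Lib.MP_c82047_co18
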