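import Pool.Agent.Lib.MP_c82047_co97.Hull

/-!
# Definitions for the exact two-colour Brown–Erdős–Sós theorem

`H` is always a linear triple system (`Lin H`), `e H S` the number of triples of `H` inside `S`
and `g H S = |S| - e H S`.
-/

namespace Pool.Agent.Lib.MP_c82047_co18

open Pool.Agent.Lib.MP_c82047_co97

section

variable {V : Type*} [DecidableEq V]

/-- `g H S = |S| - e H S`; a set is tight if `g H S ≤ 3`. -/
def g (H : Finset (Finset V)) (S : Finset V) : ℤ := (S.card : ℤ) - (e H S : ℤ)

/-- No set of exactly `k` points is tight. -/
def KFree (H : Finset (Finset V)) (k : ℕ) : Prop := ∀ S : Finset V, S.card = k → e H S + 4 ≤ S.card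

/-- Every nonempty set of fewer than `k` points has `g ≥ 1`. -/
def Clean (H : Finset (Finset V)) (k : ℕ) : Prop :=
  ∀ S : Finset V, S.Nonempty → S.card < k → 1 ≤ g H S

/-- `S` is closed: a triple with two points in `S` lies in `S`. -/
def Closed (H : Finset (Finset V)) (S : Finset V) : Prop := ∀ h ∈ H, 2 ≤ (h ∩ S).card → h ⊆ S

/-- `Reach H A N`: the set `N` is obtained from `A` by single steps (add the third point of a
triple having its two other points in the set). -/
inductive Reach (H : Finset (Finset V)) (A : Finset V) : Finset V → Prop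
  | refl : Reach H A A
  | step {N h : Finset V} {x : V} : Reach H A N → h ∈ H → x ∈ h → x ∉ N → h.erase x ⊆ N →
      Reach H A (insert x N)

/-- Ordered cherries: two different triples which meet. -/
structure Cherry (H : Finset (Finset V)) (a b : Finset V) : Prop where
  ha : a ∈ H
  hb : b ∈ H
  ne : a ≠ b
  meet : (a ∩ b).Nonempty

/-- The cherry `(a, b)` generates the set `N`. -/
structure Gen (H : Finset (Finset V)) (N a b : Finset V) : Prop where
  cherry : Cherry H a b
  reach : Reach H (a ∪ b) N

/-- Loose triangles: three pairwise meeting different sets without a common point. -/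
def Loose (a b c : Finset V) : Prop :=
  a ≠ b ∧ a ≠ c ∧ b ≠ c ∧ (a ∩ b).Nonempty ∧ (a ∩ c).Nonempty ∧ (b ∩ c).Nonempty ∧ a ∩ b ∩ c = ∅

instance (a b c : Finset V) : Decidable (Loose a b c) := by unfold Loose; infer_instance

/-- The number of loose triangles containing the cherry `(a, b)`. -/
def w (H : Finset (Finset V)) (a b : Finset V) : ℕ := (H.filter (fun c => Loose a b c)).card

/-- Wheels: three spokes `a, b, c` through a hub and a rim `r` meeting them outside the hub. -/
structure Wheel (H : Finset (Finset V)) (a b c r : Finset V) : Prop where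
  ha : a ∈ H
  hb : b ∈ H
  hc : c ∈ H
  hr : r ∈ H
  ab : a ≠ b
  ac : a ≠ c
  bc : b ≠ c
  hub : ∃ v, v ∈ a ∧ v ∈ b ∧ v ∈ c ∧ v ∉ r
  ra : (r ∩ a).Nonempty
  rb : (r ∩ b).Nonempty
  rc : (r ∩ c).Nonempty

/-- All sets with at least three points inside `M` which are not triples of `H` have `g ≥ 3`. -/
def Sparse (H : Finset (Finset V)) (M : Finset V) : Prop :=
  ∀ A ⊆ M, 3 ≤ A.card → A ∉ H → 3 ≤ g H A

/-- Full own hulls: tight sets generated by a cherry and covered by their generating cherries. -/
structure Full (H : Finset (Finset V)) (N : Finset V) : Prop where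
  g_eq : g H N = 3
  ne : ∃ a b, Gen H N a b
  cov : ∀ x ∈ N, ∃ a b, Gen H N a b ∧ x ∈ a

/-- An own step from `N` to `insert x N` with the new triple `{x, y, z}`. -/
structure OwnStep (H : Finset (Finset V)) (N : Finset V) (x y z : V) : Prop where
  mem : ({x, y, z} : Finset V) ∈ H
  hx : x ∉ N
  hy : y ∈ N
  hz : z ∈ N
  own : ∃ f f', Gen H N f f' ∧ y ∈ f ∧ z ∈ f'

/-- Points of `N` on exactly one triple inside `N`. -/
def leaves (H : Finset (Finset V)) (N : Finset V) : Finset V :=
  N.filter (fun x => (H.filter (fun h => h ⊆ N ∧ x ∈ h)).card = 1)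

/-- The closed tight sets generated by a cherry; they represent the classes of nondegenerate
cherries. -/
structure IsCls (H : Finset (Finset V)) (M : Finset V) : Prop where
  closed : Closed H M
  g_eq : g H M = 3
  ne : ∃ a b, Gen H M a b

open Classical in
/-- The ordered cherries generating `M`. -/
noncomputable def cher (H : Finset (Finset V)) (M : Finset V) : Finset (Finset V × Finset V) :=
  (H ×ˢ H).filter (fun p => Gen H M p.1 p.2)

/-- The own hull of a class: the union of its cherries. -/
noncomputable def hull (H : Finset (Finset V)) (M : Finset V) : Finset V :=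
  (cher H M).biUnion (fun p => p.1)

/-- `S H M` is the sum of `2 - w` over the ordered cherries generating `M`. -/
noncomputable def S (H : Finset (Finset V)) (M : Finset V) : ℤ :=
  ∑ p ∈ cher H M, (2 - (w H p.1 p.2 : ℤ))

open Classical in
/-- The number of pairs (third spoke, rim) completing `(a, b)` to a wheel. -/
noncomputable def q (H : Finset (Finset V)) (a b : Finset V) : ℕ :=
  ((H ×ˢ H).filter (fun p => Wheel H a b p.1 p.2)).card

/-- Two wheels with the same two spokes `a, b` of the class `M`. -/
structure Star (H : Finset (Finset V)) (M a b c d r s : Finset V) : Prop where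
  gen : Gen H M a b
  w₁ : Wheel H a b c r
  w₂ : Wheel H a b d s
  ne : c ≠ d

open Classical in
/-- The ordered opposite pairs of the class `M`. -/
noncomputable def opp (H : Finset (Finset V)) (M : Finset V) : Finset (Finset V × Finset V) :=
  (H ×ˢ H).filter (fun p => ∃ a b r s, Star H M a b p.1 p.2 r s)

/-- `BReach H A N`: `N` is obtained from `A` by single steps and block steps (add a star over an
opposite pair contained in the set). -/
inductive BReach (H : Finset (Finset V)) (A : Finset V) : Finset V → Prop
  | refl : BReach H A A
  | step {N h : Finset V} {x : V} : BReach H A N → h ∈ H → x ∈ h → x ∉ N → h.erase x ⊆ N →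
      BReach H A (insert x N)
  | block {N M a b c d r s : Finset V} : BReach H A N → IsCls H M → Star H M a b c d r s →
      c ∪ d ⊆ N → BReach H A (N ∪ (a ∪ b))

end

section

variable {V : Type*} [DecidableEq V] [Fintype V]

open Classical in
/-- The closure of a set under single steps. -/
noncomputable def cl (H : Finset (Finset V)) (A : Finset V) : Finset V :=
  Finset.univ.filter (fun x => ∃ N, Reach H A N ∧ x ∈ N)

/-- The classes of the opposite pairs of `M`. -/
noncomputable def kids (H : Finset (Finset V)) (M : Finset V) : Finset (Finset V) :=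
  (opp H M).image (fun p => cl H (p.1 ∪ p.2))

end

end Pool.Agent.Lib.MP_c82047_co18
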