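import Pool.Agent.Lib.MP_c82047_co18.Merge

/-!
# Degenerate cherries and degenerate merges (sections 1 and 9)
-/

namespace Pool.Agent.Lib.MP_c82047_co18

open Pool.Agent.Lib.MP_c82047_co97

variable {V : Type*} [DecidableEq V] [Fintype V] {H : Finset (Finset V)} {k : ℕ}

/-- `U` chooses maximum sets with `g ≤ 2` around triples, `W` maximum sets with `g ≤ 1` around
points. -/
structure Choice (H : Finset (Finset V)) (k : ℕ) (U : Finset V → Finset V) (W : V → Finset V) :
    Prop where
  subU : ∀ h ∈ H, h ⊆ U h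
  cardU : ∀ h ∈ H, (U h).card < k
  gU : ∀ h ∈ H, g H (U h) ≤ 2
  maxU : ∀ h ∈ H, ∀ X, h ⊆ X → X.card < k → g H X ≤ 2 → X.card ≤ (U h).card
  memW : ∀ v, v ∈ W v
  cardW : ∀ v, (W v).card < k
  gW : ∀ v, g H (W v) ≤ 1
  maxW : ∀ v, ∀ X, v ∈ X → X.card < k → g H X ≤ 1 → X.card ≤ (W v).card

theorem exists_choice (hH : Lin H) (h6 : 6 ≤ k) : ∃ U W, Choice H k U W := by
  classical
  have hU : ∀ h : Finset V, ∃ X : Finset V, h ∈ H → (h ⊆ X ∧ X.card < k ∧ g H X ≤ 2 ∧
      ∀ Y, h ⊆ Y → Y.card < k → g H Y ≤ 2 → Y.card ≤ X.card) := by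
    intro h
    by_cases hh : h ∈ H
    · obtain ⟨X, hX, hmax⟩ := Finset.exists_max_image
        ((Finset.univ : Finset (Finset V)).filter (fun X => h ⊆ X ∧ X.card < k ∧ g H X ≤ 2))
        Finset.card ⟨h, by
          rw [Finset.mem_filter]
          refine ⟨Finset.mem_univ _, subset_rfl, ?_, ?_⟩
          · rw [hH.1 h hh]; omega
          · rw [g_edge hH hh]⟩
      rw [Finset.mem_filter] at hX
      refine ⟨X, fun _ => ⟨hX.2.1, hX.2.2.1, hX.2.2.2, fun Y h1 h2 h3 => hmax Y ?_⟩⟩
      rw [Finset.mem_filter]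
      exact ⟨Finset.mem_univ _, h1, h2, h3⟩
    · exact ⟨∅, fun h' => absurd h' hh⟩
  have hW : ∀ v : V, ∃ X : Finset V, v ∈ X ∧ X.card < k ∧ g H X ≤ 1 ∧
      ∀ Y : Finset V, v ∈ Y → Y.card < k → g H Y ≤ 1 → Y.card ≤ X.card := by
    intro v
    obtain ⟨X, hX, hmax⟩ := Finset.exists_max_image
      ((Finset.univ : Finset (Finset V)).filter (fun X => v ∈ X ∧ X.card < k ∧ g H X ≤ 1))
      Finset.card ⟨{v}, by
        rw [Finset.mem_filter]
        refine ⟨Finset.mem_univ _, Finset.mem_singleton_self v, ?_, ?_⟩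
        · rw [Finset.card_singleton]; omega
        · rw [g_singleton hH v]⟩
    rw [Finset.mem_filter] at hX
    refine ⟨X, hX.2.1, hX.2.2.1, hX.2.2.2, fun Y h1 h2 h3 => hmax Y ?_⟩
    rw [Finset.mem_filter]
    exact ⟨Finset.mem_univ _, h1, h2, h3⟩
  choose U hU using hU
  choose W hW using hW
  exact ⟨U, W,
    { subU := fun h hh => (hU h hh).1
      cardU := fun h hh => (hU h hh).2.1
      gU := fun h hh => (hU h hh).2.2.1
      maxU := fun h hh => (hU h hh).2.2.2
      memW := fun v => (hW v).1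
      cardW := fun v => (hW v).2.1
      gW := fun v => (hW v).2.2.1
      maxW := fun v => (hW v).2.2.2 }⟩

/-- Bad cherries. -/
def Bad (U : Finset V → Finset V) (W : V → Finset V) (a b : Finset V) : Prop :=
  b ⊆ U a ∨ ∀ v ∈ a, a ⊆ W v

theorem e_le_sq (hH : Lin H) (X : Finset V) : e H X ≤ X.card ^ 2 := by
  classical
  -- every triple inside `X` contains a point of `X`, and there are at most `|X|/2` at each point
  have h1 : H.filter (fun h => h ⊆ X) ⊆ X.biUnion (fun v => H.filter (fun h => v ∈ h ∧ h ⊆ X)) := by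
    intro h hh
    rw [Finset.mem_filter] at hh
    have h2 := hH.1 h hh.1
    obtain ⟨x, hx⟩ := Finset.card_pos.1 (by omega : 0 < h.card)
    exact Finset.mem_biUnion.2 ⟨x, hh.2 hx, Finset.mem_filter.2 ⟨hh.1, hx, hh.2⟩⟩
  unfold e
  calc (H.filter (fun h => h ⊆ X)).card ≤ ∑ v ∈ X, (H.filter (fun h => v ∈ h ∧ h ⊆ X)).card :=
        (Finset.card_le_card h1).trans Finset.card_biUnion_le
    _ ≤ ∑ _v ∈ X, X.card := Finset.sum_le_sum fun v _ => by
        have := two_mul_card_le hH v X
        omega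
    _ = X.card ^ 2 := by rw [Finset.sum_const, smul_eq_mul, sq]

open Classical in
/-- The number of bad cherries is `O(k² n²)`. -/
theorem card_bad_le (hH : Lin H) {U : Finset V → Finset V} {W : V → Finset V}
    (hc : Choice H k U W) :
    ((H ×ˢ H).filter (fun p => Cherry H p.1 p.2 ∧ Bad U W p.1 p.2)).card ≤
      2 * k ^ 2 * Fintype.card V ^ 2 := by
  set n := Fintype.card V with hn
  set B1 : Finset (Finset V × Finset V) :=
    H.biUnion (fun a => {a} ×ˢ H.filter (fun b => b ⊆ U a)) with hB1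
  set B2 : Finset (Finset V × Finset V) :=
    (Finset.univ : Finset V).biUnion (fun v =>
      (H.filter (fun a => v ∈ a ∧ a ⊆ W v)).biUnion (fun a =>
        {a} ×ˢ (a.biUnion (fun x => H.filter (fun b => x ∈ b))))) with hB2
  have hcov : (H ×ˢ H).filter (fun p => Cherry H p.1 p.2 ∧ Bad U W p.1 p.2) ⊆ B1 ∪ B2 := by
    rintro ⟨a, b⟩ hp
    rw [Finset.mem_filter] at hp
    obtain ⟨-, hch, hbad⟩ := hp
    rw [Finset.mem_union]
    rcases hbad with h | h
    · left
      rw [hB1, Finset.mem_biUnion]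
      refine ⟨a, hch.ha, ?_⟩
      rw [Finset.mem_product, Finset.mem_singleton, Finset.mem_filter]
      exact ⟨rfl, hch.hb, h⟩
    · right
      obtain ⟨x, hx⟩ := hch.meet
      rw [Finset.mem_inter] at hx
      rw [hB2, Finset.mem_biUnion]
      refine ⟨x, Finset.mem_univ _, ?_⟩
      rw [Finset.mem_biUnion]
      refine ⟨a, Finset.mem_filter.2 ⟨hch.ha, hx.1, h x hx.1⟩, ?_⟩
      rw [Finset.mem_product, Finset.mem_singleton, Finset.mem_biUnion]
      exact ⟨rfl, x, hx.1, Finset.mem_filter.2 ⟨hch.hb, hx.2⟩⟩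
  have hHn : 6 * H.card ≤ n ^ 2 := card_le_sq hH
  have c1 : B1.card ≤ n ^ 2 * k ^ 2 := by
    calc B1.card ≤ ∑ a ∈ H, ({a} ×ˢ H.filter (fun b => b ⊆ U a)).card := Finset.card_biUnion_le
      _ ≤ ∑ _a ∈ H, k ^ 2 := Finset.sum_le_sum fun a ha => by
          rw [Finset.card_product, Finset.card_singleton, one_mul]
          have h1 := e_le_sq hH (U a)
          unfold e at h1
          exact h1.trans (Nat.pow_le_pow_left (hc.cardU a ha).le 2)
      _ = H.card * k ^ 2 := by rw [Finset.sum_const, smul_eq_mul]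
      _ ≤ n ^ 2 * k ^ 2 := Nat.mul_le_mul_right _ (by omega)
  have c2 : B2.card ≤ n ^ 2 * k ^ 2 := by
    have h1 : ∀ v : V, ((H.filter (fun a => v ∈ a ∧ a ⊆ W v)).biUnion (fun a =>
        {a} ×ˢ (a.biUnion (fun x => H.filter (fun b => x ∈ b))))).card ≤ k * n := by
      intro v
      have h2 : ∀ a ∈ H.filter (fun a => v ∈ a ∧ a ⊆ W v),
          (({a} : Finset (Finset V)) ×ˢ (a.biUnion (fun x => H.filter (fun b => x ∈ b)))).card ≤
          2 * n := by
        intro a ha
        rw [Finset.card_product, Finset.card_singleton, one_mul]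
        have h3 : (a.biUnion (fun x => H.filter (fun b => x ∈ b))).card ≤ ∑ x ∈ a, deg H x :=
          Finset.card_biUnion_le
        have h4 : 2 * ∑ x ∈ a, deg H x ≤ ∑ _x ∈ a, n := by
          rw [Finset.mul_sum]
          exact Finset.sum_le_sum fun x _ => deg_le hH x
        rw [Finset.sum_const, smul_eq_mul, hH.1 a (Finset.mem_filter.1 ha).1] at h4
        omega
      have h3 := Finset.card_biUnion_le (s := H.filter (fun a => v ∈ a ∧ a ⊆ W v))
        (t := fun a => ({a} : Finset (Finset V)) ×ˢ (a.biUnion (fun x => H.filter (fun b => x ∈ b))))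
      have h4 := Finset.sum_le_sum h2
      rw [Finset.sum_const, smul_eq_mul] at h4
      have h5 := two_mul_card_le hH v (W v)
      have h6 := hc.cardW v
      calc _ ≤ _ := h3.trans h4
        _ = (2 * (H.filter (fun a => v ∈ a ∧ a ⊆ W v)).card) * n := by ring
        _ ≤ k * n := Nat.mul_le_mul_right _ (by omega)
    calc B2.card ≤ ∑ v : V, _ := Finset.card_biUnion_le
      _ ≤ ∑ _v : V, k * n := Finset.sum_le_sum fun v _ => h1 v
      _ = n * (k * n) := by rw [Finset.sum_const, Finset.card_univ, smul_eq_mul]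
      _ = n ^ 2 * k := by ring
      _ ≤ n ^ 2 * k ^ 2 := Nat.mul_le_mul_left _ (by nlinarith [Nat.zero_le k])
  have h1 := (Finset.card_le_card hcov).trans (Finset.card_union_le B1 B2)
  calc _ ≤ B1.card + B2.card := h1
    _ ≤ n ^ 2 * k ^ 2 + n ^ 2 * k ^ 2 := Nat.add_le_add c1 c2
    _ = 2 * k ^ 2 * n ^ 2 := by ring

/-- From a cherry `(a, b)` and a small set with `g ≤ 2` containing `a`, everything reached from the
cherry can be added. -/
theorem add_reach (hH : Lin H) (hk : KFree H k) {X a b N : Finset V} (hab : Cherry H a b)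
    (hX : X.card < k) (hg : g H X ≤ 2) (ha : a ⊆ X) (hN : Reach H (a ∪ b) N) :
    (X ∪ N).card < k ∧ g H (X ∪ N) ≤ 3 := by
  have hm : (b ∩ X).Nonempty := by
    obtain ⟨x, hx⟩ := hab.meet
    rw [Finset.mem_inter] at hx
    exact ⟨x, Finset.mem_inter.2 ⟨hx.2, ha hx.1⟩⟩
  have h1 := union_edge_card_lt hH hk hX hg hab.hb hm
  have h2 := g_union_edge_le hH hab.hb hm
  have h3 := hN.union X
  have h4 : a ∪ b ∪ X = X ∪ b := by
    rw [Finset.union_comm (a ∪ b) X, ← Finset.union_assoc, Finset.union_eq_left.2 ha]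
  rw [h4, Finset.union_comm N X] at h3
  exact ⟨h3.card_lt hH hk h1 (by linarith), (h3.g_le hH).trans (by linarith)⟩

/-- The same for a set containing only a point of `a`, with `g ≤ 1`. -/
theorem add_reach' (hH : Lin H) (hk : KFree H k) {X a b N : Finset V} {v : V} (hab : Cherry H a b)
    (hX : X.card < k) (hg : g H X ≤ 1) (hva : v ∈ a) (hvX : v ∈ X) (hN : Reach H (a ∪ b) N) :
    (X ∪ N).card < k ∧ g H (X ∪ N) ≤ 3 := by
  have hm : (a ∩ X).Nonempty := ⟨v, Finset.mem_inter.2 ⟨hva, hvX⟩⟩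
  have h1 := union_edge_card_lt hH hk hX (by linarith) hab.ha hm
  have h2 := g_union_edge_le hH hab.ha hm
  have h3 := add_reach hH hk hab h1 (by linarith) Finset.subset_union_right hN
  have h4 : X ∪ a ∪ N = X ∪ N := by
    rw [Finset.union_assoc, Finset.union_eq_right.2 (Finset.subset_union_left.trans hN.subset)]
  rwa [h4] at h3

theorem eq_of_card_union_le {A B : Finset V} (h : (A ∪ B).card ≤ A.card) : B ⊆ A := by
  have h1 : A = A ∪ B := Finset.eq_of_subset_of_card_le Finset.subset_union_left h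
  rw [h1]
  exact Finset.subset_union_right

theorem bad_of_degenerate (hH : Lin H) (hk : KFree H k) (hcl : Clean H k)
    {U : Finset V → Finset V} {W : V → Finset V} (hc : Choice H k U W) {a b : Finset V}
    (hab : Cherry H a b) (hg : g H (cl H (a ∪ b)) ≤ 2) : Bad U W a b := by
  by_cases hb : b ⊆ U a
  · exact Or.inl hb
  refine Or.inr fun v hv => ?_
  have hr := reach_cl H (a ∪ b)
  set M := cl H (a ∪ b) with hM
  have hbM : b ⊆ M := Finset.subset_union_right.trans hr.subset
  have haM : a ⊆ M := Finset.subset_union_left.trans hr.subset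
  obtain ⟨h1, h2⟩ := add_reach hH hk hab (hc.cardU a hab.ha) (hc.gU a hab.ha)
    (hc.subU a hab.ha) hr
  have h3 : 3 ≤ g H (U a ∪ M) := by
    by_contra h3
    have h4 := hc.maxU a hab.ha (U a ∪ M) ((hc.subU a hab.ha).trans Finset.subset_union_left) h1
      (by linarith [Int.lt_iff_add_one_le.1 (not_le.1 h3)])
    exact hb (hbM.trans (eq_of_card_union_le h4))
  have h4 := g_submod H (U a) M
  have h5 := hc.gU a hab.ha
  have h6 : g H (U a ∩ M) ≤ 1 := by linarith
  have haB : a ⊆ U a ∩ M := Finset.subset_inter (hc.subU a hab.ha) haM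
  obtain ⟨h7, -⟩ := add_reach' hH hk hab (hc.cardW v) (hc.gW v) hv (hc.memW v) hr
  have h8 : (W v ∪ (U a ∩ M)).card < k := by
    refine lt_of_le_of_lt (Finset.card_le_card ?_) h7
    exact Finset.union_subset_union_right Finset.inter_subset_right
  have h9 := g_submod H (W v) (U a ∩ M)
  have h10 : 1 ≤ g H (W v ∩ (U a ∩ M)) := by
    refine hcl _ ⟨v, Finset.mem_inter.2 ⟨hc.memW v, haB hv⟩⟩ ?_
    exact lt_of_le_of_lt (Finset.card_le_card Finset.inter_subset_left) (hc.cardW v)
  have h11 := hc.gW v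
  have h12 := hc.maxW v (W v ∪ (U a ∩ M)) (Finset.mem_union_left _ (hc.memW v)) h8 (by linarith)
  exact haB.trans (eq_of_card_union_le h12)

/-- A merge which becomes degenerate produces a bad cherry in the merged class. -/
theorem bad_of_merge (hH : Lin H) (hk : KFree H k) (hcl : Clean H k)
    {U : Finset V → Finset V} {W : V → Finset V} (hc : Choice H k U W) {C E F : Finset V}
    (hC : IsCls H C) (hS : S H C ≤ 0) (hCk : C.card < k) (hE : E ∈ down H C) (hF : Closed H F)
    (hFk : F.card < k) (hgF : g H F = 3) (hEF : BReach H (hull H E) F)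
    (hg : g H (cl H (F ∪ C)) ≤ 2) : ∃ a b, Gen H C a b ∧ Bad U W a b := by
  classical
  have hfull := hull_full hH hC
  have hL := six_le_leaves hH hC hS
  obtain ⟨ε, hε, hεV, hεL⟩ := exists_nonleaf_edge hH hfull hL
  obtain ⟨f, hf⟩ := hfull.edge hH hε hεV
  have hfC : Gen H C ε f := (gen_hull_iff hH hC).1 hf
  refine ⟨ε, f, hfC, ?_⟩
  have hch := hfC.cherry
  have hVC := hull_subset hH hC
  have hfV : f ⊆ hull H C := hf.subset.2
  -- the merged set
  set A := cl H (F ∪ C) with hA
  have hAk : A.card < k := merge_card_lt hH hk hC hS hCk hE hF hFk hgF.le hEF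
  have hFCA : F ∪ C ⊆ A := subset_cl H _
  have hFA : F ⊆ A := Finset.subset_union_left.trans hFCA
  have hCA : C ⊆ A := Finset.subset_union_right.trans hFCA
  -- `hull C` is not contained in `F`
  have hCF : ¬ hull H C ⊆ F := by
    intro h
    have h1 : C ⊆ F := hC.subset_of_gen hH hfC hF (hεV.trans h) (hfV.trans h)
    have h2 : A = F := by
      rw [hA, Finset.union_eq_left.2 h1]
      exact Finset.Subset.antisymm (cl_subset hH hF subset_rfl) (subset_cl H F)
    rw [h2, hgF] at hg
    norm_num at hg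
  -- the first kid
  have hEC : C ≠ E := by
    rintro rfl
    exact hCF hEF.subset
  obtain ⟨D, hD, hED⟩ : ∃ D ∈ kids H C, E ∈ down H D := by
    rw [mem_down] at hE
    rcases Relation.ReflTransGen.cases_head hE with h | ⟨D, hD, h⟩
    · exact absurd h hEC
    · exact ⟨D, hD, mem_down.2 h⟩
  obtain ⟨a, b, c, d, r, s, hs, rfl⟩ := mem_kids.1 hD
  have hDcls := (kid_isCls hH hC hD).1
  have hDC := (kid_isCls hH hC hD).2.1
  have hEE := down_isCls hH hDcls hED
  have hED' : hull H E ⊆ cl H (c ∪ d) := (hull_subset hH hEE.1).trans hEE.2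
  have hcdV : c ∪ d ⊆ hull H C := by
    refine Finset.Subset.trans ?_ (hs.subset_hull hH hC)
    intro x hx
    simp only [Finset.mem_union] at hx ⊢
    tauto
  -- from `W ∪ hull C` one reaches `W ∪ (hull C ∪ cl (c ∪ d))`
  have hreach1 : ∀ W' : Finset V, Reach H (W' ∪ hull H C) (W' ∪ (hull H C ∪ cl H (c ∪ d))) := by
    intro W'
    have h1 := (reach_cl H (c ∪ d)).union (W' ∪ hull H C)
    have h2 : c ∪ d ∪ (W' ∪ hull H C) = W' ∪ hull H C :=
      Finset.union_eq_right.2 (hcdV.trans Finset.subset_union_right)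
    have h3 : cl H (c ∪ d) ∪ (W' ∪ hull H C) = W' ∪ (hull H C ∪ cl H (c ∪ d)) := by
      rw [Finset.union_comm, Finset.union_assoc]
    rwa [h2, h3] at h1
  -- then the sets over `G`
  have hreach2 : ∀ (W' : Finset V) {G : Finset V}, BReach H (hull H E) G →
      BReach H (W' ∪ (hull H C ∪ cl H (c ∪ d))) (W' ∪ (hull H C ∪ (cl H (c ∪ d) ∪ G))) := by
    intro W' G hG
    have h1 := hG.union (W' ∪ (hull H C ∪ cl H (c ∪ d)))
    have h2 : hull H E ∪ (W' ∪ (hull H C ∪ cl H (c ∪ d))) = W' ∪ (hull H C ∪ cl H (c ∪ d)) :=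
      Finset.union_eq_right.2 (hED'.trans (Finset.subset_union_right.trans
        Finset.subset_union_right))
    have h3 : G ∪ (W' ∪ (hull H C ∪ cl H (c ∪ d))) = W' ∪ (hull H C ∪ (cl H (c ∪ d) ∪ G)) := by
      rw [Finset.union_comm, Finset.union_assoc, Finset.union_assoc]
    rwa [h2, h3] at h1
  have hsubC : ∀ W' : Finset V, W' ∪ (hull H C ∪ cl H (c ∪ d)) ⊆ W' ∪ C := fun W' =>
    Finset.union_subset_union_right (Finset.union_subset hVC hDC)
  have hY0A : ∀ {G : Finset V}, G ⊆ F → hull H C ∪ (cl H (c ∪ d) ∪ G) ⊆ A := fun hG =>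
    Finset.union_subset (hVC.trans hCA)
      (Finset.union_subset (hDC.trans hCA) (hG.trans hFA))
  have hgY0 : ∀ {G : Finset V}, BReach H (hull H E) G →
      g H (hull H C ∪ (cl H (c ∪ d) ∪ G)) ≤ 3 := by
    intro G hG
    have h1 := (hreach2 ∅ hG).g_le hH
    have h2 := (hreach1 ∅).g_le hH
    rw [Finset.empty_union, Finset.empty_union] at h1 h2
    have h3 := hfull.g_eq
    linarith
  have hfin : ∀ {W' : Finset V}, (W' ∪ (hull H C ∪ (cl H (c ∪ d) ∪ F))).card < k →
      g H (W' ∪ (hull H C ∪ (cl H (c ∪ d) ∪ F))) ≤ 3 → (W' ∪ A).card < k := by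
    intro W' h1 h2
    set X := W' ∪ (hull H C ∪ (cl H (c ∪ d) ∪ F)) with hX
    have h3 : hull H C ⊆ X := by
      intro x hx
      simp only [hX, Finset.mem_union]
      tauto
    have h4 : F ⊆ X := by
      intro x hx
      simp only [hX, Finset.mem_union]
      tauto
    have h5 : Reach H X (C ∪ X) := by
      have := (reach_hull hH hC).union X
      rwa [Finset.union_eq_right.2 h3] at this
    have h6 : Reach H (C ∪ X) (A ∪ (C ∪ X)) := by
      have h7 := (reach_cl H (F ∪ C)).union (C ∪ X)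
      have h8 : F ∪ C ∪ (C ∪ X) = C ∪ X := by
        refine Finset.union_eq_right.2 (Finset.union_subset ?_ Finset.subset_union_left)
        exact h4.trans Finset.subset_union_right
      rwa [h8] at h7
    have h7 := (h5.trans h6).card_lt hH hk h1 h2
    refine lt_of_le_of_lt (Finset.card_le_card ?_) h7
    intro x hx
    simp only [hX, Finset.mem_union] at hx ⊢
    tauto
  by_cases hfU : f ⊆ U ε
  · exact Or.inl hfU
  refine Or.inr ?_
  -- there is `B` with `ε ⊆ B ⊆ A` and `g B ≤ 1`
  have hU1 := hc.subU ε hε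
  have hU2 := hc.cardU ε hε
  have hU3 := hc.gU ε hε
  have hbigU : ∀ Y : Finset V, U ε ∪ f ⊆ Y → Y.card < k → 3 ≤ g H Y := by
    intro Y h1 h2
    by_contra h3
    have h4 := hc.maxU ε hε Y (hU1.trans (Finset.subset_union_left.trans h1)) h2
      (by linarith [Int.lt_iff_add_one_le.1 (not_le.1 h3)])
    have h5 : (U ε ∪ f).card ≤ (U ε).card := (Finset.card_le_card h1).trans h4
    exact hfU (eq_of_card_union_le h5)
  have hB : ∃ B, ε ⊆ B ∧ B ⊆ A ∧ g H B ≤ 1 := by
    by_contra hno
    push Not at hno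
    have hno' : ∀ B, ε ⊆ B → B ⊆ A → 2 ≤ g H B := fun B h1 h2 => by
      have := hno B h1 h2
      linarith [Int.lt_iff_add_one_le.1 this]
    obtain ⟨u1, u2⟩ := add_reach hH hk hch hU2 hU3 hU1 hf.reach
    obtain ⟨u3, u4⟩ := add_reach hH hk hch hU2 hU3 hU1 hfC.reach
    have u5 : 3 ≤ g H (U ε ∪ hull H C) := hbigU _ (Finset.union_subset_union_right hfV) u1
    have u6 : g H (U ε ∩ hull H C) ≤ 2 := by
      have := g_submod H (U ε) (hull H C)
      have := hfull.g_eq
      linarith
    have u7 : U ε ∩ hull H C = ε := by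
      have h1 : ε ⊆ U ε ∩ hull H C := Finset.subset_inter hU1 hεV
      by_contra hne
      have h2 : ε ⊂ U ε ∩ hull H C := lt_of_le_of_ne h1 (Ne.symm hne)
      have h3 := Finset.card_lt_card h2
      rw [hH.1 ε hε] at h3
      have h4 := (hfull.sparse hH).three_le hH (Finset.inter_subset_right (s₁ := U ε)) h3
      linarith
    have u8 : Disjoint (U ε) (leaves H (hull H C)) := by
      rw [Finset.disjoint_left]
      intro x hx hxL
      have h1 : x ∈ hull H C := (Finset.mem_filter.1 hxL).1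
      have h2 : x ∈ ε := by rw [← u7]; exact Finset.mem_inter.2 ⟨hx, h1⟩
      exact Finset.disjoint_left.1 hεL h2 hxL
    have u9 : (U ε ∪ (hull H C ∪ cl H (c ∪ d))).card < k :=
      lt_of_le_of_lt (Finset.card_le_card (hsubC _)) u3
    have u10 : g H (U ε ∪ (hull H C ∪ cl H (c ∪ d))) ≤ 3 := ((hreach1 _).g_le hH).trans u2
    have u11 := transport hH hk hC hL hs hED' hF hCF u9 u10 (by
      intro G hG hGF h1 h2
      have h3 := hno' (U ε ∩ (hull H C ∪ (cl H (c ∪ d) ∪ G)))
        (Finset.subset_inter hU1 (hεV.trans Finset.subset_union_left))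
        (Finset.inter_subset_right.trans (hY0A hGF))
      have h4 := g_submod H (U ε) (hull H C ∪ (cl H (c ∪ d) ∪ G))
      have h5 := hgY0 hG
      exact ⟨by linarith, by linarith, u8⟩) hEF subset_rfl
    have u12 := ((hreach2 (U ε) hEF).g_le hH).trans u10
    have u13 := hfin u11 u12
    have u14 : 3 ≤ g H (U ε ∪ A) :=
      hbigU _ (Finset.union_subset_union_right (hfV.trans (hVC.trans hCA))) u13
    have u15 := g_submod H (U ε) A
    have u16 := hno' (U ε ∩ A) (Finset.subset_inter hU1 (hεV.trans (hVC.trans hCA)))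
      Finset.inter_subset_right
    linarith
  obtain ⟨B, hεB, hBA, hgB⟩ := hB
  intro v hv
  have w0 := hc.memW v
  have w1 := hc.cardW v
  have w2 := hc.gW v
  obtain ⟨w3, w4⟩ := add_reach' hH hk hch w1 w2 hv w0 hf.reach
  obtain ⟨w5, w6⟩ := add_reach' hH hk hch w1 w2 hv w0 hfC.reach
  have w7 : (W v ∪ (hull H C ∪ cl H (c ∪ d))).card < k :=
    lt_of_le_of_lt (Finset.card_le_card (hsubC _)) w5
  have w8 : g H (W v ∪ (hull H C ∪ cl H (c ∪ d))) ≤ 3 := ((hreach1 _).g_le hH).trans w4
  have hpos : ∀ X : Finset V, v ∈ X → 1 ≤ g H (W v ∩ X) := by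
    intro X hX
    refine hcl _ ⟨v, Finset.mem_inter.2 ⟨w0, hX⟩⟩ ?_
    exact lt_of_le_of_lt (Finset.card_le_card Finset.inter_subset_left) w1
  have w9 := transport hH hk hC hL hs hED' hF hCF w7 w8 (by
    intro G hG hGF h1 h2
    have h3 := hpos (hull H C ∪ (cl H (c ∪ d) ∪ G)) (Finset.mem_union_left _ (hεV hv))
    have h4 := g_submod H (W v) (hull H C ∪ (cl H (c ∪ d) ∪ G))
    have h5 := hgY0 hG
    refine ⟨by linarith, by linarith, ?_⟩
    -- `W v` contains no leaf
    have h6 := ((hreach1 (W v)).bReach.trans (hreach2 (W v) hG)).g_le hH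
    have h7 := g_submod H (W v) (hull H C)
    have h8 := hfull.g_eq
    have h9 : g H (W v ∩ hull H C) ≤ 1 := by linarith
    have h10 : (W v ∩ hull H C).card ≤ 1 := by
      by_contra h10
      push Not at h10
      rcases Nat.lt_or_ge (W v ∩ hull H C).card 3 with h11 | h11
      · have h12 := g_eq_card_of_le_two hH (A := W v ∩ hull H C) (by omega)
        have h13 : (1 : ℤ) < ((W v ∩ hull H C).card : ℤ) := by exact_mod_cast h10
        linarith
      · by_cases h12 : W v ∩ hull H C ∈ H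
        · have := g_edge hH h12
          linarith
        · have := hfull.sparse hH _ (Finset.inter_subset_right (s₁ := W v)) h11 h12
          linarith
    rw [Finset.disjoint_left]
    intro x hx hxL
    have h11 : x ∈ hull H C := (Finset.mem_filter.1 hxL).1
    have h12 : x = v := by
      rw [Finset.card_le_one] at h10
      exact h10 x (Finset.mem_inter.2 ⟨hx, h11⟩) v (Finset.mem_inter.2 ⟨w0, hεV hv⟩)
    rw [h12] at hxL
    exact Finset.disjoint_left.1 hεL hv hxL) hEF subset_rfl
  have w10 := ((hreach2 (W v) hEF).g_le hH).trans w8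
  have w11 := hfin w9 w10
  have w12 : (W v ∪ B).card < k :=
    lt_of_le_of_lt (Finset.card_le_card (Finset.union_subset_union_right hBA)) w11
  have w13 := g_submod H (W v) B
  have w14 := hpos B (hεB hv)
  have w15 := hc.maxW v (W v ∪ B) (Finset.mem_union_left _ w0) w12 (by linarith)
  exact hεB.trans (eq_of_card_union_le w15)

end Pool.Agent.Lib.MP_c82047_co18
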