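import Pool.Agent.Lib.MP_c82047_co18.ThetaId
import Pool.Agent.Lib.MP_c82047_co18.Clean
import Pool.Agent.Lib.MP_c82047_co97.Goodman

/-!
# The two theorems for exact orders
-/

namespace Pool.Agent.Lib.MP_c82047_co18

open Pool.Agent.Lib.MP_c82047_co97 (Lin e deg Adj jj f theta cnt wt wheels thr jj_eq_thr
  jj_le_three sum_jj sum_deg card_le_sq goodman cnt_cherries sum_jj_cherries)

theorem num_core {m M X c D D' : ℝ} (hm : 1 ≤ m) (hM : m ≤ M) (hc : 0 ≤ c) (hD : 0 ≤ D')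
    (hD' : D' ≤ D) (h : c ≤ m * X + D') : c / M ≤ X + D := by
  have hM0 : 0 < M := by linarith
  rw [div_le_iff₀ hM0]
  by_cases hX : 0 ≤ X
  · have h1 : m * X ≤ M * X := mul_le_mul_of_nonneg_right hM hX
    have h2 : D' ≤ D * M := by nlinarith
    linarith
  · push Not at hX
    have h1 : m * X ≤ X := by nlinarith
    have h2 : 0 ≤ X + D' := by linarith
    have h3 : X + D' ≤ (X + D') * M := by nlinarith
    have h4 : (X + D') * M ≤ (X + D) * M := mul_le_mul_of_nonneg_right (by linarith) hM0.le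
    linarith

/-- The main inequalities for a cleaned subsystem. -/
theorem main_real (k : ℕ) : ∃ c : ℝ, 0 < c ∧ ∃ C : ℝ, 0 ≤ C ∧
    ∀ (n : ℕ) (H : Finset (Finset (Fin n))), Lin H → KFree H k → k ≤ n →
      ∃ H' ⊆ H, ((H \ H').card : ℝ) ≤ C * n ∧
        c * (cnt H' : ℝ) ≤ (theta H' : ℝ) + C * (n : ℝ) ^ 2 ∧
        7 / 12 * ((∑ E ∈ H', ∑ x ∈ Eᶜ, (jj H' E x : ℤ) : ℤ) : ℝ) ≤
          (cnt H' : ℝ) + C * (n : ℝ) ^ 2 := by
  rcases Nat.eq_zero_or_pos k with hk0 | hk0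
  · subst hk0
    refine ⟨1, one_pos, 0, le_rfl, fun n H hH hk _ => ?_⟩
    have := hk ∅ Finset.card_empty
    rw [Finset.card_empty] at this
    omega
  have hk1 : (1 : ℝ) ≤ k := by exact_mod_cast hk0
  set M : ℝ := (k : ℝ) ^ 4 with hM
  have hM1 : 1 ≤ M := one_le_pow₀ hk1
  set D0 : ℝ := (5 * M + 1) * (M * (2 * (k : ℝ) ^ 2)) with hD0
  have hD00 : 0 ≤ D0 := by positivity
  refine ⟨1 / (2 * M), by positivity, D0 + k, by positivity, fun n H hH hk hkn => ?_⟩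
  obtain ⟨Z, hZk, hZ⟩ := exists_clean hH hk (by rwa [Fintype.card_fin])
  set H' := H.filter (fun h => Disjoint h Z) with hH'
  obtain ⟨hk', hcl⟩ := hZ H' subset_rfl
  have hHL : Lin H' := hH.mono (Finset.filter_subset _ _)
  refine ⟨H', Finset.filter_subset _ _, ?_, ?_⟩
  · have h1 : 2 * (H \ H').card ≤ Z.card * n := by
      have := card_meet_le hH Z
      rwa [Fintype.card_fin] at this
    have h2 : (H \ H').card ≤ k * n := by
      have : Z.card * n ≤ k * n := Nat.mul_le_mul_right _ hZk.le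
      omega
    have h3 : ((H \ H').card : ℝ) ≤ k * n := by exact_mod_cast h2
    have h4 : 0 ≤ D0 * (n : ℝ) := by positivity
    linarith
  -- the inequalities
  have m2 := main_two hHL hk' hcl
  have m1 := main_one hHL hk' hcl
  rw [Fintype.card_fin] at m1 m2
  obtain ⟨κ, hκ⟩ : ∃ κ : ℕ, κ = k - Z.card := ⟨_, rfl⟩
  rw [← hκ] at m1 m2
  have hκ1 : 1 ≤ κ := by omega
  have hκk : κ ≤ k := by omega
  have hκ1' : (1 : ℝ) ≤ κ := by exact_mod_cast hκ1
  have hκk' : (κ : ℝ) ≤ k := by exact_mod_cast hκk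
  set m : ℝ := (κ : ℝ) ^ 4 with hm
  have hm1 : 1 ≤ m := one_le_pow₀ hκ1'
  have hmM : m ≤ M := pow_le_pow_left₀ (by linarith) hκk' 4
  have hκ2 : (κ : ℝ) ^ 2 ≤ (k : ℝ) ^ 2 := pow_le_pow_left₀ (by linarith) hκk' 2
  have hκ20 : 0 ≤ (κ : ℝ) ^ 2 := by positivity
  obtain ⟨ch, hch⟩ : ∃ ch : ℕ, ch = (cherries H').card := ⟨_, rfl⟩
  obtain ⟨w', hw'⟩ : ∃ w' : ℕ, w' = ∑ p ∈ cherries H', w H' p.1 p.2 := ⟨_, rfl⟩
  obtain ⟨q', hq'⟩ : ∃ q' : ℕ, q' = ∑ p ∈ cherries H', q H' p.1 p.2 := ⟨_, rfl⟩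
  have e2 : ∑ p ∈ cherries H', (2 - (w H' p.1 p.2 : ℤ)) = 2 * ch - w' := by
    rw [Finset.sum_sub_distrib, Finset.sum_const, nsmul_eq_mul, hch, hw']
    push_cast
    ring
  have e1 : ∑ p ∈ cherries H', (3 - 2 * (w H' p.1 p.2 : ℤ) + (q H' p.1 p.2 : ℤ)) =
      3 * ch - 2 * w' + q' := by
    rw [Finset.sum_add_distrib, Finset.sum_sub_distrib, Finset.sum_const, nsmul_eq_mul,
      ← Finset.mul_sum, hch, hw', hq']
    push_cast
    ring
  rw [e2, ← hch] at m2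
  rw [e1, ← hch] at m1
  have m2R : (ch : ℝ) ≤ m * (2 * ch - w') + (2 * m + 1) * (m * (2 * (κ : ℝ) ^ 2 * (n : ℝ) ^ 2)) := by
    rw [hm]; exact_mod_cast m2
  have m1R : (ch : ℝ) ≤ m * (3 * ch - 2 * w' + q') +
      (5 * m + 1) * (m * (2 * (κ : ℝ) ^ 2 * (n : ℝ) ^ 2)) := by
    rw [hm]; exact_mod_cast m1
  have hch0 : (0 : ℝ) ≤ ch := Nat.cast_nonneg _
  have hn2 : (0 : ℝ) ≤ (n : ℝ) ^ 2 := by positivity
  have hD2 : (2 * m + 1) * (m * (2 * (κ : ℝ) ^ 2 * (n : ℝ) ^ 2)) ≤ D0 * (n : ℝ) ^ 2 := by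
    have h1 : (2 * m + 1) * (m * (2 * (κ : ℝ) ^ 2 * (n : ℝ) ^ 2)) =
        (2 * m + 1) * (m * (2 * (κ : ℝ) ^ 2)) * (n : ℝ) ^ 2 := by ring
    rw [h1, hD0]
    gcongr
    linarith
  have hD1 : (5 * m + 1) * (m * (2 * (κ : ℝ) ^ 2 * (n : ℝ) ^ 2)) ≤ D0 * (n : ℝ) ^ 2 := by
    have h1 : (5 * m + 1) * (m * (2 * (κ : ℝ) ^ 2 * (n : ℝ) ^ 2)) =
        (5 * m + 1) * (m * (2 * (κ : ℝ) ^ 2)) * (n : ℝ) ^ 2 := by ring
    rw [h1, hD0]
    gcongr
  have r2 := num_core hm1 hmM hch0 (by positivity) hD2 m2R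
  have r1 := num_core hm1 hmM hch0 (by positivity) hD1 m1R
  have hkn2 : 0 ≤ (k : ℝ) * (n : ℝ) ^ 2 := by positivity
  constructor
  · have h1 : (theta H' : ℝ) = 2 * ch - w' := by
      have := theta_eq_sum hHL
      rw [e2] at this
      rw [this]
      push_cast
      ring
    have h2 : (cnt H' : ℝ) ≤ 2 * ch := by
      rw [hch]
      exact_mod_cast cnt_le_cherries hHL
    have h3 : 1 / (2 * M) * (cnt H' : ℝ) ≤ ch / M := by
      have hM0 : 0 < M := by linarith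
      rw [div_mul_eq_mul_div, one_mul, div_le_div_iff₀ (by positivity) hM0]
      nlinarith
    rw [h1]
    linarith
  · have h1 := cnt_cherries hHL
    have h2 := sum_jj_cherries hHL
    have h3 := sum_q_le_wheels hHL
    rw [← hq'] at h3
    rw [← cherries_eq, ← hch] at h1 h2
    have h4 : ∑ p ∈ cherries H', wt H' p.1 p.2 = w' := by
      rw [hw']
      exact Finset.sum_congr rfl fun p _ => by rw [w_eq_wt]
    rw [h4] at h1
    have h5 : ((∑ E ∈ H', ∑ x ∈ Eᶜ, (jj H' E x : ℤ) : ℤ) : ℝ) = 2 * ch := by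
      exact_mod_cast h2
    have h1R : 2 * (cnt H' : ℝ) + w' = 4 * ch + 2 * (wheels H' : ℝ) := by exact_mod_cast h1
    have h3R : (q' : ℝ) ≤ 6 * (wheels H' : ℝ) := by exact_mod_cast h3
    have hM0 : 0 < M := by linarith
    have h6 : 0 ≤ (ch : ℝ) / M := by positivity
    rw [h5]
    have h7 : 0 ≤ D0 * (n : ℝ) ^ 2 := by positivity
    linarith

/-- **Two colours, exact order.** -/
theorem exact_ramsey (k : ℕ) : ∃ ε : ℝ, 0 < ε ∧ ∃ n₀ : ℕ, ∀ n : ℕ, n₀ ≤ n →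
    ∀ T : Finset (Finset (Fin n)), Lin T → (1 / 6 - ε) * (n : ℝ) ^ 2 ≤ (T.card : ℝ) → ∀ A ⊆ T,
      ∃ S : Finset (Fin n), S.card = k ∧ (S.card ≤ e A S + 3 ∨ S.card ≤ e (T \ A) S + 3) := by
  obtain ⟨c₀, hc₀, C, hC, main⟩ := main_real k
  set c := min c₀ 1 with hcdef
  have hc : 0 < c := lt_min hc₀ one_pos
  have hc1 : c ≤ 1 := min_le_right _ _
  have hcc : c ≤ c₀ := min_le_left _ _
  obtain ⟨n₀, hn₀⟩ := exists_nat_gt ((100 * (c + 2 * C) + 400 * C) / c)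
  refine ⟨c / 200, by positivity, max n₀ (max k 1), fun n hn T hT hcard A hA => ?_⟩
  have hn1 : 1 ≤ n := (le_max_right _ _).trans ((le_max_right _ _).trans hn)
  have hnk : k ≤ n := (le_max_left _ _).trans ((le_max_right _ _).trans hn)
  have hn2 : n₀ ≤ n := (le_max_left _ _).trans hn
  by_contra hcon
  push Not at hcon
  have hfA : KFree A k := by
    intro S h
    have := (hcon S h).1
    omega
  have hfB : KFree (T \ A) k := by
    intro S h
    have := (hcon S h).2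
    omega
  obtain ⟨A', hA', a1, a2, -⟩ := main n A (hT.mono hA) hfA hnk
  obtain ⟨B', hB', b1, b2, -⟩ := main n (T \ A) (hT.mono Finset.sdiff_subset) hfB hnk
  have hnpos : (0 : ℝ) < n := by exact_mod_cast hn1
  have hlt : 100 * (c + 2 * C) + 400 * C < c * n := by
    have h1 : (100 * (c + 2 * C) + 400 * C) / c < n := hn₀.trans_le (by exact_mod_cast hn2)
    rw [div_lt_iff₀ hc] at h1
    linarith
  -- the size of `A' ∪ B'`
  have hsize : (T.card : ℝ) ≤ ((A' ∪ B').card : ℝ) + 2 * (C * n) := by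
    have h1 : T ⊆ (A' ∪ B') ∪ ((A \ A') ∪ ((T \ A) \ B')) := by
      intro h hh
      simp only [Finset.mem_union, Finset.mem_sdiff]
      by_cases h1 : h ∈ A <;> by_cases h2 : h ∈ A' <;> by_cases h3 : h ∈ B' <;> tauto
    have h2 := Finset.card_le_card h1
    have h3 := Finset.card_union_le (A' ∪ B') ((A \ A') ∪ ((T \ A) \ B'))
    have h4 := Finset.card_union_le (A \ A') ((T \ A) \ B')
    have h5 : (T.card : ℝ) ≤ (A' ∪ B').card + ((A \ A').card + ((T \ A) \ B').card) := by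
      exact_mod_cast (by omega : T.card ≤ (A' ∪ B').card + ((A \ A').card + ((T \ A) \ B').card))
    linarith
  have hdisj : Disjoint A' B' := by
    rw [Finset.disjoint_left]
    intro h h1 h2
    exact (Finset.mem_sdiff.1 (hB' h2)).2 (hA' h1)
  have hTL : Lin (A' ∪ B') :=
    hT.mono (Finset.union_subset (hA'.trans hA) (hB'.trans Finset.sdiff_subset))
  obtain ⟨g1, g2⟩ := goodman (A := A') (B := B') hTL rfl hdisj (ε := c / 100) (by positivity)
    (by linarith) (by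
      rw [Fintype.card_fin]
      have h6 : 400 * C * (n : ℝ) ≤ c * n * n := by
        have : 400 * C ≤ c * n := by nlinarith
        exact mul_le_mul_of_nonneg_right this hnpos.le
      nlinarith)
  rw [Fintype.card_fin] at g1 g2
  have a2' : c * (cnt A' : ℝ) ≤ (theta A' : ℝ) + C * (n : ℝ) ^ 2 :=
    (mul_le_mul_of_nonneg_right hcc (Nat.cast_nonneg _)).trans a2
  have b2' : c * (cnt B' : ℝ) ≤ (theta B' : ℝ) + C * (n : ℝ) ^ 2 :=
    (mul_le_mul_of_nonneg_right hcc (Nat.cast_nonneg _)).trans b2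
  have h2 : c * ((1 / 12 - c / 100) * (n : ℝ) ^ 3 - (n : ℝ) ^ 2) ≤
      6 * (c / 100) * (n : ℝ) ^ 3 + 2 * (C * (n : ℝ) ^ 2) := by
    have h3 := mul_le_mul_of_nonneg_left g2 hc.le
    linarith
  have h3 : c / 100 * (n : ℝ) ^ 3 ≤ (c + 2 * C) * (n : ℝ) ^ 2 := by
    have h4 : 0 ≤ c * (n : ℝ) ^ 3 := by positivity
    have h5 : c * (c / 100) * (n : ℝ) ^ 3 ≤ c / 100 * (n : ℝ) ^ 3 := by
      have : c * (c / 100) ≤ c / 100 := by nlinarith
      exact mul_le_mul_of_nonneg_right this (by positivity)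
    linarith
  have h4 : (100 * (c + 2 * C) + 400 * C) * (n : ℝ) ^ 2 < c * n * (n : ℝ) ^ 2 :=
    mul_lt_mul_of_pos_right hlt (by positivity)
  have h5 : 0 ≤ C * (n : ℝ) ^ 2 := by positivity
  linarith

/-- **One colour, exact order.** -/
theorem exact_density (k : ℕ) : ∃ C' : ℝ, ∀ (n : ℕ) (H : Finset (Finset (Fin n))), Lin H →
    KFree H k → (H.card : ℝ) ≤ 2 / 21 * (n : ℝ) ^ 2 + C' * (n : ℝ) := by
  obtain ⟨c₀, hc₀, C, hC, main⟩ := main_real k
  refine ⟨2 / 21 * (7 / 2 + 21 * C) + C + k, fun n H hH hk => ?_⟩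
  by_cases hkn : k ≤ n
  swap
  · -- `n < k`
    have h1 := card_le_sq hH
    rw [Fintype.card_fin] at h1
    have h2 : n ≤ k := by omega
    have h3 : (6 : ℝ) * H.card ≤ (n : ℝ) ^ 2 := by exact_mod_cast h1
    have h4 : (n : ℝ) ≤ k := by exact_mod_cast h2
    have hn0 : (0 : ℝ) ≤ n := Nat.cast_nonneg _
    have h5 : (n : ℝ) ^ 2 ≤ k * n := by nlinarith
    have h6 : 0 ≤ C * (n : ℝ) := by positivity
    have h7 : 0 ≤ (n : ℝ) ^ 2 := by positivity
    nlinarith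
  obtain ⟨H', hH', hdel, -, h1⟩ := main n H hH hk hkn
  have hHL : Lin H' := hH.mono hH'
  have hcardH : (H.card : ℝ) ≤ H'.card + C * n := by
    have h2 := Finset.card_union_le H' (H \ H')
    rw [Finset.union_sdiff_of_subset hH'] at h2
    have h3 : (H.card : ℝ) ≤ H'.card + (H \ H').card := by exact_mod_cast h2
    linarith
  suffices hmain : (H'.card : ℝ) ≤ 2 / 21 * (n : ℝ) ^ 2 + 2 / 21 * (7 / 2 + 21 * C) * (n : ℝ) by
    have h3 : 0 ≤ (k : ℝ) * n := by positivity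
    linarith
  by_cases hsmall : (H'.card : ℝ) ≤ 2 / 21 * (n : ℝ) ^ 2
  · have : 0 ≤ 2 / 21 * (7 / 2 + 21 * C) * (n : ℝ) := by positivity
    linarith
  push Not at hsmall
  rw [sum_jj hHL] at h1
  have h2 : ∑ a, (deg H' a : ℤ) * (2 * (deg H' a : ℤ) - 2) =
      2 * ∑ a, (deg H' a : ℤ) ^ 2 - 6 * H'.card := by
    have h6 := sum_deg hHL.1
    have h7 : ∑ a, (deg H' a : ℤ) = 3 * H'.card := by exact_mod_cast h6
    calc ∑ a, (deg H' a : ℤ) * (2 * (deg H' a : ℤ) - 2) =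
        2 * ∑ a, (deg H' a : ℤ) ^ 2 - 2 * ∑ a, (deg H' a : ℤ) := by
          rw [Finset.mul_sum, Finset.mul_sum, ← Finset.sum_sub_distrib]
          exact Finset.sum_congr rfl fun a _ => by ring
      _ = _ := by rw [h7]; ring
  rw [h2] at h1
  have h3 : cnt H' ≤ H'.card * n := by
    unfold cnt
    calc ∑ E ∈ H', (Eᶜ.filter (fun x => 1 ≤ jj H' E x)).card ≤ ∑ _E ∈ H', n := by
          refine Finset.sum_le_sum fun E _ => ?_
          have := Finset.card_le_univ (Eᶜ.filter (fun x => 1 ≤ jj H' E x))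
          rwa [Fintype.card_fin] at this
      _ = H'.card * n := by rw [Finset.sum_const, smul_eq_mul]
  have h4 : (3 * (H'.card : ℤ)) ^ 2 ≤ n * ∑ a, (deg H' a : ℤ) ^ 2 := by
    have h5 := sq_sum_le_card_mul_sum_sq (s := (Finset.univ : Finset (Fin n)))
      (f := fun a => (deg H' a : ℤ))
    have h6 := sum_deg hHL.1
    have h7 : ∑ a, (deg H' a : ℤ) = 3 * H'.card := by exact_mod_cast h6
    rwa [h7, Finset.card_univ, Fintype.card_fin] at h5
  obtain ⟨N, hN⟩ : ∃ N : ℝ, N = (n : ℝ) := ⟨_, rfl⟩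
  obtain ⟨κ, hκ⟩ : ∃ κ : ℝ, κ = (H'.card : ℝ) := ⟨_, rfl⟩
  obtain ⟨S2, hS2⟩ : ∃ S2 : ℤ, S2 = ∑ a, (deg H' a : ℤ) ^ 2 := ⟨_, rfl⟩
  obtain ⟨s, hs⟩ : ∃ s : ℝ, s = (S2 : ℝ) := ⟨_, rfl⟩
  rw [← hS2] at h1 h4
  have r1 : 7 / 12 * (2 * s - 6 * κ) ≤ (cnt H' : ℝ) + C * N ^ 2 := by
    rw [hs, hκ, hN]
    exact_mod_cast h1
  have r3 : (cnt H' : ℝ) ≤ κ * N := by rw [hκ, hN]; exact_mod_cast h3
  have r4 : (3 * κ) ^ 2 ≤ N * s := by rw [hκ, hN, hs]; exact_mod_cast h4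
  rw [← hN, ← hκ] at hsmall
  rw [← hN, ← hκ]
  have hN0 : 0 ≤ N := by rw [hN]; positivity
  have hκ0 : 0 < κ := lt_of_le_of_lt (by positivity) hsmall
  have hNpos : 0 < N := by
    rcases hN0.eq_or_lt with h | h
    · rw [← h] at r4; nlinarith
    · exact h
  have h5 : 7 / 12 * (2 * s) ≤ κ * N + 7 / 2 * κ + C * N ^ 2 := by linarith
  have h6 : 21 / 2 * κ ^ 2 ≤ κ * N ^ 2 + 7 / 2 * κ * N + C * N ^ 3 := by
    have h7 := mul_le_mul_of_nonneg_left h5 hNpos.le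
    linarith
  have h8 : C * N ^ 3 ≤ 21 / 2 * C * N * κ := by
    have h9 := mul_le_mul_of_nonneg_left hsmall.le (by positivity : 0 ≤ 21 / 2 * C * N)
    linarith
  have h10 : 21 / 2 * κ * κ ≤ (N ^ 2 + 7 / 2 * N + 21 / 2 * C * N) * κ := by linarith
  have h11 := le_of_mul_le_mul_right h10 hκ0
  have h12 : 0 ≤ C * N := by positivity
  linarith

end Pool.Agent.Lib.MP_c82047_co18
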