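import Pool.Agent.Lib.MP_c82047_co18.Own

/-!
# Unique own component and foreign sets (sections 4 and 5)
-/

namespace Pool.Agent.Lib.MP_c82047_co18

open Pool.Agent.Lib.MP_c82047_co97

variable {V : Type*} [DecidableEq V] {H : Finset (Finset V)}

/-- Steps of an induction over own hulls: the data of one own step. -/
private theorem OwnStep.uniq (hH : Lin H) {N : Finset V} {x y z : V} (hN : Full H N)
    (h : OwnStep H N x y z) (hN' : Full H (insert x N)) {f : Finset V} (hf : f ∈ H)
    (hfN : f ⊆ insert x N) (hxf : x ∈ f) : f = {x, y, z} :=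
  uniq_edge hH h.mem h.hx h.hy h.hz (by rw [hN.g_eq, hN'.g_eq]) hf hfN hxf

private theorem insert_swap (x y z : V) : ({x, y, z} : Finset V) = {x, z, y} := by
  rw [Finset.pair_comm y z]

/-- Cherries of the larger hull over old points which are not covered come from old cherries. -/
private theorem new_cherry (hH : Lin H) {N : Finset V} {x y z : V} (hN : Full H N)
    (h : OwnStep H N x y z) (hN' : Full H (insert x N)) {f f' : Finset V}
    (hff : Gen H (insert x N) f f') (hxf : x ∈ f) {s s' : V} (hsx : s ≠ x) (hs : s ∈ f)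
    (hs' : s' ∈ f') (hun : ∀ h ∈ H, h ⊆ insert x N → s ∈ h → s' ∈ h → False) :
    ∃ k, Gen H N k f' ∧ s ∈ k := by
  have hfe := h.uniq hH hN hN' hff.cherry.ha hff.subset.1 hxf
  have hxf' : x ∉ f' := by
    intro hx'
    have := h.uniq hH hN hN' hff.cherry.hb hff.subset.2 hx'
    exact hff.cherry.ne (hfe.trans this.symm)
  have h5 := hN.five_le hH
  obtain ⟨p, hp⟩ := hff.cherry.meet
  rw [Finset.mem_inter] at hp
  have hpx : p ≠ x := fun h => hxf' (h ▸ hp.2)
  subst hfe
  have hps : p ≠ s := by
    rintro rfl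
    exact hun f' hff.cherry.hb hff.subset.2 hp.2 hs'
  have hg : g H N ≤ g H (insert x N) := by rw [hN.g_eq, hN'.g_eq]
  simp only [Finset.mem_insert, Finset.mem_singleton] at hs hp
  rcases hs with hs | hs | hs
  · exact absurd hs hsx
  · subst hs
    -- `s = y`, `p = z`
    have hpz : p = z := (hp.1.resolve_left hpx).resolve_left hps
    subst hpz
    have hm : ({x, p, s} : Finset V) ∈ H := by rw [insert_swap]; exact h.mem
    obtain ⟨k, hk, hk'⟩ := gen_new hH hm h.hx h.hz h.hy hg (f := f')
      (by rw [insert_swap]; exact hff) hp.2 h5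
    exact ⟨k, hk'.symm, hk⟩
  · subst hs
    have hpy : p = y := by
      rcases hp.1 with h1 | h1 | h1
      · exact absurd h1 hpx
      · exact h1
      · exact absurd h1 hps
    subst hpy
    obtain ⟨k, hk, hk'⟩ := gen_new hH h.mem h.hx h.hy h.hz hg (f := f') hff hp.2 h5
    exact ⟨k, hk'.symm, hk⟩

/-- The triples inside a full `a ∪ b` are `a` and `b`. -/
private theorem full_base (hH : Lin H) {a b : Finset V} (hab : Cherry H a b)
    (hN : g H (a ∪ b) = 3) {f : Finset V} (hf : f ∈ H) (hfN : f ⊆ a ∪ b) : f = a ∨ f = b := by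
  have h1 := hab.card hH
  have h2 : e H (a ∪ b) = 2 := by
    unfold g at hN
    omega
  have h3 : ({a, b} : Finset (Finset V)) ⊆ H.filter (fun E => E ⊆ a ∪ b) := by
    intro f hf
    rw [Finset.mem_insert, Finset.mem_singleton] at hf
    rcases hf with rfl | rfl
    · exact Finset.mem_filter.2 ⟨hab.ha, Finset.subset_union_left⟩
    · exact Finset.mem_filter.2 ⟨hab.hb, Finset.subset_union_right⟩
  have h4 : ({a, b} : Finset (Finset V)) = H.filter (fun E => E ⊆ a ∪ b) := by
    refine Finset.eq_of_subset_of_card_le h3 ?_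
    rw [Finset.card_pair hab.ne]
    exact h2.le
  have h5 : f ∈ ({a, b} : Finset (Finset V)) := by
    rw [h4]
    exact Finset.mem_filter.2 ⟨hf, hfN⟩
  simpa using h5

/-- (P1) The generating cherries over two points `y, z` on no common triple form one component:
a family of triples containing one of them and closed under neighbours contains all of them. -/
theorem conn (hH : Lin H) {N : Finset V} (hN : Full H N) {y z : V}
    (hyz : ∀ h ∈ H, h ⊆ N → y ∈ h → z ∈ h → False) {h₁ h₂ : Finset V} (h12 : Gen H N h₁ h₂)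
    (hy : y ∈ h₁) (hz : z ∈ h₂) (F : Set (Finset V)) (h1F : h₁ ∈ F) (h2F : h₂ ∈ F)
    (hF : ∀ f f', Gen H N f f' → y ∈ f → z ∈ f' → (f ∈ F ↔ f' ∈ F)) :
    ∀ f f', Gen H N f f' → y ∈ f → z ∈ f' → f ∈ F ∧ f' ∈ F := by
  suffices hmain : (∀ h ∈ H, h ⊆ N → y ∈ h → z ∈ h → False) →
      (∀ f f', Gen H N f f' → y ∈ f → z ∈ f' → (f ∈ F ↔ f' ∈ F)) →
      ∀ f f', Gen H N f f' → y ∈ f → z ∈ f' → f ∈ F ∧ f' ∈ F from hmain hyz hF
  clear hyz hF
  refine Full.induction hH hN h12 (motive := fun N => (∀ h ∈ H, h ⊆ N → y ∈ h → z ∈ h → False) →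
      (∀ f f', Gen H N f f' → y ∈ f → z ∈ f' → (f ∈ F ↔ f' ∈ F)) →
      ∀ f f', Gen H N f f' → y ∈ f → z ∈ f' → f ∈ F ∧ f' ∈ F) ?_ ?_
  · intro hB _ _ f f' hff _ _
    have key : ∀ f ∈ H, f ⊆ h₁ ∪ h₂ → f ∈ F := by
      intro f hf hfN
      rcases full_base hH h12.cherry hB.g_eq hf hfN with rfl | rfl
      · exact h1F
      · exact h2F
    exact ⟨key f hff.cherry.ha hff.subset.1, key f' hff.cherry.hb hff.subset.2⟩
  · intro N' x y₀ z₀ hN' h12' hstep hN'' ih hyz hF f f' hff hyf hzf'
    have hyN : y ∈ N' := h12'.subset.1 hy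
    have hzN : z ∈ N' := h12'.subset.2 hz
    have hyx : y ≠ x := fun h => hstep.hx (h ▸ hyN)
    have hzx : z ≠ x := fun h => hstep.hx (h ▸ hzN)
    have hg : g H N' ≤ g H (insert x N') := by rw [hN'.g_eq, hN''.g_eq]
    have hold : ∀ {a b : Finset V}, x ∉ a → x ∉ b → (Gen H (insert x N') a b ↔ Gen H N' a b) :=
      fun {a b} ha hb => gen_old hH hstep.mem hstep.hx hstep.hy hstep.hz hg ha hb
    have hup : ∀ {a b : Finset V}, Gen H N' a b → Gen H (insert x N') a b := by
      intro a b hab
      exact (hold (fun h => hstep.hx (hab.subset.1 h)) (fun h => hstep.hx (hab.subset.2 h))).2 hab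
    have ih' := ih (fun h hh hhN => hyz h hh (hhN.trans (Finset.subset_insert _ _)))
      (fun f f' hff => hF f f' (hup hff))
    have hcase : ∀ {a b : Finset V}, Gen H (insert x N') a b → x ∈ a → x ∉ b := by
      intro a b hab ha hb
      have h1 := hstep.uniq hH hN' hN'' hab.cherry.ha hab.subset.1 ha
      have h2 := hstep.uniq hH hN' hN'' hab.cherry.hb hab.subset.2 hb
      exact hab.cherry.ne (h1.trans h2.symm)
    by_cases hxf : x ∈ f
    · obtain ⟨k, hk, hyk⟩ := new_cherry hH hN' hstep hN'' hff hxf hyx hyf hzf' hyz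
      have := (ih' k f' hk hyk hzf').2
      exact ⟨(hF f f' hff hyf hzf').2 this, this⟩
    · by_cases hxf' : x ∈ f'
      · obtain ⟨k, hk, hzk⟩ := new_cherry hH hN' hstep hN'' hff.symm hxf' hzx hzf' hyf
          (fun h hh hhN h1 h2 => hyz h hh hhN h2 h1)
        have := (ih' f k hk.symm hyf hzk).1
        exact ⟨this, (hF f f' hff hyf hzf').1 this⟩
      · exact ih' f f' ((hold hxf hxf').1 hff) hyf hzf'

/-- A triple avoiding `y` and `z` is not covered by the generating cherries over `y, z`. -/
private theorem no_cross (hH : Lin H) {N : Finset V} (hN : Full H N) {y z : V}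
    (hyz : ∀ h ∈ H, h ⊆ N → y ∈ h → z ∈ h → False) {h₁ h₂ : Finset V} (h12 : Gen H N h₁ h₂)
    (hy : y ∈ h₁) (hz : z ∈ h₂) {g₀ : Finset V} (hg₀ : g₀ ∈ H) (hyg : y ∉ g₀) (hzg : z ∉ g₀)
    (hcov : ∀ p ∈ g₀, ∃ f f', Gen H N f f' ∧ y ∈ f ∧ z ∈ f' ∧ (p ∈ f ∨ p ∈ f')) : False := by
  classical
  set 𝓕 : Finset (Finset (Finset V)) := H.powerset.filter (fun F => h₁ ∈ F ∧ h₂ ∈ F ∧
    (∀ f ∈ F, f ⊆ N ∧ (y ∈ f ∨ z ∈ f)) ∧ (F.biUnion id).card ≤ F.card + 3) with h𝓕
  have hmem : ∀ F, F ∈ 𝓕 ↔ F ⊆ H ∧ h₁ ∈ F ∧ h₂ ∈ F ∧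
      (∀ f ∈ F, f ⊆ N ∧ (y ∈ f ∨ z ∈ f)) ∧ (F.biUnion id).card ≤ F.card + 3 := by
    intro F
    rw [h𝓕, Finset.mem_filter, Finset.mem_powerset]
  have hne : 𝓕.Nonempty := by
    refine ⟨{h₁, h₂}, (hmem _).2 ⟨?_, by simp, by simp, ?_, ?_⟩⟩
    · intro f hf
      rw [Finset.mem_insert, Finset.mem_singleton] at hf
      rcases hf with rfl | rfl
      · exact h12.cherry.ha
      · exact h12.cherry.hb
    · intro f hf
      rw [Finset.mem_insert, Finset.mem_singleton] at hf
      rcases hf with rfl | rfl
      · exact ⟨h12.subset.1, Or.inl hy⟩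
      · exact ⟨h12.subset.2, Or.inr hz⟩
    · have h1 := h12.cherry.card hH
      have h2 : ({h₁, h₂} : Finset (Finset V)).biUnion id = h₁ ∪ h₂ := by
        simp [Finset.biUnion_insert]
      rw [h2, h1, Finset.card_pair h12.cherry.ne]
  obtain ⟨F, hF𝓕, hmax⟩ := Finset.exists_max_image 𝓕 Finset.card hne
  obtain ⟨hFH, h1F, h2F, hFN, hFc⟩ := (hmem F).1 hF𝓕
  have hUN : F.biUnion id ⊆ N := by
    intro v hv
    obtain ⟨f, hf, hvf⟩ := Finset.mem_biUnion.1 hv
    exact (hFN f hf).1 hvf
  have hsubU : ∀ f ∈ F, f ⊆ F.biUnion id := fun f hf v hv => Finset.mem_biUnion.2 ⟨f, hf, hv⟩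
  have hyU : y ∈ F.biUnion id := hsubU h₁ h1F hy
  have hzU : z ∈ F.biUnion id := hsubU h₂ h2F hz
  -- adding a neighbour
  have hadd : ∀ f ∈ F, ∀ f' ∈ H, f' ⊆ N → (f ∩ f').Nonempty → (y ∈ f ∧ z ∈ f' ∨ z ∈ f ∧ y ∈ f') →
      f' ∈ F := by
    intro f hf f' hf'H hf'N hmeet hyzf
    by_contra hf'
    obtain ⟨p, hp⟩ := hmeet
    rw [Finset.mem_inter] at hp
    have h2 : ∃ q, q ≠ p ∧ q ∈ f' ∧ q ∈ F.biUnion id := by
      rcases hyzf with ⟨h1, h2⟩ | ⟨h1, h2⟩
      · refine ⟨z, ?_, h2, hzU⟩
        rintro rfl
        exact hyz f (hFH hf) (hFN f hf).1 h1 hp.1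
      · refine ⟨y, ?_, h2, hyU⟩
        rintro rfl
        exact hyz f (hFH hf) (hFN f hf).1 hp.1 h1
    obtain ⟨q, hqp, hqf', hqU⟩ := h2
    have hpU : p ∈ F.biUnion id := hsubU f hf hp.1
    have h3 : 2 ≤ (f' ∩ F.biUnion id).card := by
      refine Finset.one_lt_card.2 ⟨q, Finset.mem_inter.2 ⟨hqf', hqU⟩, p,
        Finset.mem_inter.2 ⟨hp.2, hpU⟩, hqp⟩
    have h4 : (f' ∪ F.biUnion id).card + (f' ∩ F.biUnion id).card
        = f'.card + (F.biUnion id).card := Finset.card_union_add_card_inter _ _
    have h5 := hH.1 f' hf'H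
    have h6 : (insert f' F).biUnion id = f' ∪ F.biUnion id := by
      rw [Finset.biUnion_insert]; rfl
    have h7 : (insert f' F).card = F.card + 1 := Finset.card_insert_of_notMem hf'
    have h8 : insert f' F ∈ 𝓕 := by
      refine (hmem _).2 ⟨?_, Finset.mem_insert_of_mem h1F, Finset.mem_insert_of_mem h2F, ?_, ?_⟩
      · intro k hk
        rcases Finset.mem_insert.1 hk with rfl | hk
        · exact hf'H
        · exact hFH hk
      · intro k hk
        rcases Finset.mem_insert.1 hk with rfl | hk
        · refine ⟨hf'N, ?_⟩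
          rcases hyzf with h | h
          · exact Or.inr h.2
          · exact Or.inl h.2
        · exact hFN k hk
      · rw [h6, h7]
        omega
    have h9 := hmax _ h8
    omega
  have hall := conn hH hN hyz h12 hy hz (F : Set (Finset V)) h1F h2F (by
    intro f f' hff hyf hzf'
    constructor
    · intro h
      exact hadd f h f' hff.cherry.hb hff.subset.2 hff.cherry.meet (Or.inl ⟨hyf, hzf'⟩)
    · intro h
      refine hadd f' h f hff.cherry.ha hff.subset.1 ?_ (Or.inr ⟨hzf', hyf⟩)
      rw [Finset.inter_comm]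
      exact hff.cherry.meet)
  have hgU : g₀ ⊆ F.biUnion id := by
    intro p hp
    obtain ⟨f, f', hff, hyf, hzf', hpf⟩ := hcov p hp
    obtain ⟨h1, h2⟩ := hall f f' hff hyf hzf'
    rcases hpf with hpf | hpf
    · exact hsubU f h1 hpf
    · exact hsubU f' h2 hpf
  have hgF : g₀ ∉ F := by
    intro h
    rcases (hFN g₀ h).2 with h | h
    · exact hyg h
    · exact hzg h
  have he : F.card + 1 ≤ e H (F.biUnion id) := by
    rw [← Finset.card_insert_of_notMem hgF]
    unfold e
    refine Finset.card_le_card ?_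
    intro k hk
    rcases Finset.mem_insert.1 hk with rfl | hk
    · exact Finset.mem_filter.2 ⟨hg₀, hgU⟩
    · exact Finset.mem_filter.2 ⟨hFH hk, hsubU k hk⟩
  have h5 : 5 ≤ (F.biUnion id).card := by
    rw [← h12.cherry.card hH]
    exact Finset.card_le_card (Finset.union_subset (hsubU h₁ h1F) (hsubU h₂ h2F))
  have h3 := Sparse.three_le hH (hN.sparse hH) hUN (by omega)
  unfold g at h3
  omega

open Classical in
/-- Ordered pairs of points of `Q` on no common triple of `N` but on a generating cherry. -/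
private noncomputable def oprs (H : Finset (Finset V)) (N Q : Finset V) : Finset (V × V) :=
  (Q ×ˢ Q).filter (fun p => (∀ h ∈ H, h ⊆ N → p.1 ∈ h → p.2 ∈ h → False) ∧
    ∃ h h', Gen H N h h' ∧ p.1 ∈ h ∧ p.2 ∈ h')

private theorem mem_oprs {N Q : Finset V} {p : V × V} : p ∈ oprs H N Q ↔
    (p.1 ∈ Q ∧ p.2 ∈ Q) ∧ (∀ h ∈ H, h ⊆ N → p.1 ∈ h → p.2 ∈ h → False) ∧
    ∃ h h', Gen H N h h' ∧ p.1 ∈ h ∧ p.2 ∈ h' := by
  classical
  unfold oprs
  rw [Finset.mem_filter, Finset.mem_product]

private theorem oprs_ne {N Q : Finset V} {p : V × V} (hp : p ∈ oprs H N Q) : p.1 ≠ p.2 := by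
  obtain ⟨-, h2, h, h', hg, h3, h4⟩ := mem_oprs.1 hp
  intro heq
  exact h2 h hg.cherry.ha hg.subset.1 h3 (heq ▸ h3)

/-- The bound for sets with at most two points and for triples. -/
private theorem oprs_small (hH : Lin H) {N Q : Finset V} (hQN : Q ⊆ N)
    (hQ : Q.card ≤ 2 ∨ Q ∈ H) :
    2 * (e H Q : ℤ) + (oprs H N Q).card ≤ g H Q * (g H Q - 1) := by
  rcases hQ with hQ | hQ
  · rw [g_eq_card_of_le_two hH hQ, e_eq_zero_of_le_two hH hQ]
    have h1 : oprs H N Q ⊆ Q.offDiag := by
      intro p hp
      rw [Finset.mem_offDiag]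
      exact ⟨(mem_oprs.1 hp).1.1, (mem_oprs.1 hp).1.2, oprs_ne hp⟩
    have h2 := Finset.card_le_card h1
    rw [Finset.offDiag_card] at h2
    have h3 : ((oprs H N Q).card : ℤ) ≤ (Q.card * Q.card - Q.card : ℕ) := by exact_mod_cast h2
    have h4 : Q.card ≤ Q.card * Q.card := Nat.le_mul_self _
    push_cast [Nat.cast_sub h4] at h3
    push_cast
    nlinarith
  · have h1 : oprs H N Q = ∅ := by
      rw [Finset.eq_empty_iff_forall_notMem]
      intro p hp
      obtain ⟨⟨h1, h2⟩, h3, -⟩ := mem_oprs.1 hp
      exact h3 Q hQ hQN h1 h2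
    have h2 := g_edge hH hQ
    have h3 : (e H Q : ℤ) = 1 := by
      unfold g at h2
      rw [hH.1 Q hQ] at h2
      push_cast at h2
      linarith
    rw [h1, h2, h3]
    simp

private theorem foreign_lines (hH : Lin H) {N : Finset V} (hN : Full H N) {a b : Finset V}
    (hab : Gen H N a b) : ∀ Q : Finset V, Q ⊆ N →
    (∀ h ∈ H, h ⊆ N → 2 ≤ (h ∩ Q).card → h ⊆ Q) →
    (∀ a b, Gen H N a b → a ⊆ Q → b ⊆ Q → False) → g H Q ≤ 3 →
    2 * (e H Q : ℤ) + (oprs H N Q).card ≤ g H Q * (g H Q - 1) := by
  refine Full.induction hH hN hab (motive := fun N => ∀ Q : Finset V, Q ⊆ N →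
    (∀ h ∈ H, h ⊆ N → 2 ≤ (h ∩ Q).card → h ⊆ Q) →
    (∀ a b, Gen H N a b → a ⊆ Q → b ⊆ Q → False) → g H Q ≤ 3 →
    2 * (e H Q : ℤ) + (oprs H N Q).card ≤ g H Q * (g H Q - 1)) ?_ ?_
  · -- base
    intro hB Q hQN hcl hfor _
    refine oprs_small hH hQN ?_
    have hgen : Gen H (a ∪ b) a b := ⟨hab.cherry, Reach.refl⟩
    by_cases ha : a ⊆ Q
    · -- then `Q = a`
      have hb : ¬ b ⊆ Q := fun hb => hfor a b hgen ha hb
      have hb2 : (b ∩ Q).card < 2 := by
        by_contra h
        exact hb (hcl b hab.cherry.hb Finset.subset_union_right (by omega))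
      right
      have : Q = a := by
        refine Finset.Subset.antisymm ?_ ha
        intro v hv
        rcases Finset.mem_union.1 (hQN hv) with h | h
        · exact h
        · obtain ⟨c, hc⟩ := hab.cherry.meet
          rw [Finset.mem_inter] at hc
          by_contra hva
          have : 1 < (b ∩ Q).card := Finset.one_lt_card.2 ⟨v, Finset.mem_inter.2 ⟨h, hv⟩, c,
            Finset.mem_inter.2 ⟨hc.2, ha hc.1⟩, fun hh => hva (hh ▸ hc.1)⟩
          omega
      rw [this]
      exact hab.cherry.ha
    · by_cases hb : b ⊆ Q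
      · have ha2 : (a ∩ Q).card < 2 := by
          by_contra h
          exact ha (hcl a hab.cherry.ha Finset.subset_union_left (by omega))
        right
        have : Q = b := by
          refine Finset.Subset.antisymm ?_ hb
          intro v hv
          rcases Finset.mem_union.1 (hQN hv) with h | h
          · obtain ⟨c, hc⟩ := hab.cherry.meet
            rw [Finset.mem_inter] at hc
            by_contra hvb
            have : 1 < (a ∩ Q).card := Finset.one_lt_card.2 ⟨v, Finset.mem_inter.2 ⟨h, hv⟩, c,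
              Finset.mem_inter.2 ⟨hc.1, hb hc.2⟩, fun hh => hvb (hh ▸ hc.2)⟩
            omega
          · exact h
        rw [this]
        exact hab.cherry.hb
      · left
        have ha2 : (a ∩ Q).card < 2 := by
          by_contra h
          exact ha (hcl a hab.cherry.ha Finset.subset_union_left (by omega))
        have hb2 : (b ∩ Q).card < 2 := by
          by_contra h
          exact hb (hcl b hab.cherry.hb Finset.subset_union_right (by omega))
        have h1 : Q ⊆ (a ∩ Q) ∪ (b ∩ Q) := by
          intro v hv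
          rcases Finset.mem_union.1 (hQN hv) with h | h
          · exact Finset.mem_union_left _ (Finset.mem_inter.2 ⟨h, hv⟩)
          · exact Finset.mem_union_right _ (Finset.mem_inter.2 ⟨h, hv⟩)
        have h2 := (Finset.card_le_card h1).trans (Finset.card_union_le _ _)
        omega
  · -- step
    intro N x y z hN _ hstep hN'' ih Q'' hQN hcl hfor hg3
    have hg : g H N ≤ g H (insert x N) := by rw [hN.g_eq, hN''.g_eq]
    have hold : ∀ {a b : Finset V}, x ∉ a → x ∉ b → (Gen H (insert x N) a b ↔ Gen H N a b) :=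
      fun {a b} ha hb => gen_old hH hstep.mem hstep.hx hstep.hy hstep.hz hg ha hb
    have hup : ∀ {a b : Finset V}, Gen H N a b → Gen H (insert x N) a b := by
      intro a b hab
      exact (hold (fun h => hstep.hx (hab.subset.1 h)) (fun h => hstep.hx (hab.subset.2 h))).2 hab
    have hcase : ∀ {a b : Finset V}, Gen H (insert x N) a b → x ∈ a → x ∉ b := by
      intro a b hab ha hb
      have h1 := hstep.uniq hH hN hN'' hab.cherry.ha hab.subset.1 ha
      have h2 := hstep.uniq hH hN hN'' hab.cherry.hb hab.subset.2 hb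
      exact hab.cherry.ne (h1.trans h2.symm)
    obtain ⟨hxy, hxz, hyz⟩ := hstep.ne hH
    have hyx : y ≠ x := hxy.symm
    have hzx : z ≠ x := hxz.symm
    have hnadj : ∀ h ∈ H, h ⊆ N → y ∈ h → z ∈ h → False :=
      fun h hh hhN h1 h2 => hstep.not_adj hH hh hhN h1 h2
    -- lines over old points are old
    have hpair : ∀ {Q : Finset V} {p : V × V}, p ∈ oprs H (insert x N) Q → p.1 ≠ x → p.2 ≠ x →
        ∃ h h', Gen H N h h' ∧ p.1 ∈ h ∧ p.2 ∈ h' := by
      intro Q p hp h1 h2
      obtain ⟨-, hun, h, h', hgen, h3, h4⟩ := mem_oprs.1 hp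
      by_cases hxh : x ∈ h
      · obtain ⟨k, hk, hk1⟩ := new_cherry hH hN hstep hN'' hgen hxh h1 h3 h4 hun
        exact ⟨k, h', hk, hk1, h4⟩
      · by_cases hxh' : x ∈ h'
        · obtain ⟨k, hk, hk1⟩ := new_cherry hH hN hstep hN'' hgen.symm hxh' h2 h4 h3
            (fun h hh hhN ha hb => hun h hh hhN hb ha)
          exact ⟨h, k, hk.symm, h3, hk1⟩
        · exact ⟨h, h', (hold hxh hxh').1 hgen, h3, h4⟩
    have hpair' : ∀ {Q : Finset V} {p : V × V}, p ∈ oprs H (insert x N) Q → p.1 ≠ x → p.2 ≠ x →
        p ∈ oprs H N (Q.erase x) := by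
      intro Q p hp h1 h2
      obtain ⟨hQ, hun, -⟩ := mem_oprs.1 hp
      exact mem_oprs.2 ⟨⟨Finset.mem_erase.2 ⟨h1, hQ.1⟩, Finset.mem_erase.2 ⟨h2, hQ.2⟩⟩,
        fun h hh hhN => hun h hh (hhN.trans (Finset.subset_insert _ _)), hpair hp h1 h2⟩
    set Q := Q''.erase x with hQdef
    have hQsub : Q ⊆ Q'' := Finset.erase_subset _ _
    have hxQ : x ∉ Q := Finset.notMem_erase _ _
    have hQN' : Q ⊆ N := by
      intro v hv
      rcases Finset.mem_insert.1 (hQN (hQsub hv)) with h | h
      · exact absurd (h ▸ hv) hxQ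
      · exact h
    have hclQ : ∀ h ∈ H, h ⊆ N → 2 ≤ (h ∩ Q).card → h ⊆ Q := by
      intro h hh hhN h2
      have h3 := hcl h hh (hhN.trans (Finset.subset_insert _ _))
        (h2.trans (Finset.card_le_card (Finset.inter_subset_inter_left hQsub)))
      intro v hv
      exact Finset.mem_erase.2 ⟨fun h => hstep.hx (h ▸ hhN hv), h3 hv⟩
    have hforQ : ∀ a b, Gen H N a b → a ⊆ Q → b ⊆ Q → False :=
      fun a b hab ha hb => hfor a b (hup hab) (ha.trans hQsub) (hb.trans hQsub)
    by_cases hxQ'' : x ∈ Q''
    · have hQ'' : insert x Q = Q'' := Finset.insert_erase hxQ''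
      have hcard : Q''.card = Q.card + 1 := by
        rw [← hQ'', Finset.card_insert_of_notMem hxQ]
      by_cases hyzQ : y ∈ Q'' ∧ z ∈ Q''
      · -- case B
        have heQ : e H Q'' = e H Q + 1 := by
          have h1 : H.filter (fun E => E ⊆ Q'')
              = insert {x, y, z} (H.filter (fun E => E ⊆ Q)) := by
            ext f
            rw [Finset.mem_filter, Finset.mem_insert, Finset.mem_filter]
            constructor
            · rintro ⟨hf, hfQ⟩
              by_cases hxf : x ∈ f
              · exact Or.inl (hstep.uniq hH hN hN'' hf (hfQ.trans hQN) hxf)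
              · refine Or.inr ⟨hf, fun v hv => Finset.mem_erase.2 ⟨?_, hfQ hv⟩⟩
                rintro rfl
                exact hxf hv
            · rintro (rfl | ⟨hf, hfQ⟩)
              · refine ⟨hstep.mem, ?_⟩
                intro v hv
                simp only [Finset.mem_insert, Finset.mem_singleton] at hv
                rcases hv with rfl | rfl | rfl
                · exact hxQ''
                · exact hyzQ.1
                · exact hyzQ.2
              · exact ⟨hf, hfQ.trans hQsub⟩
          unfold e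
          rw [h1, Finset.card_insert_of_notMem]
          intro h2
          exact hxQ ((Finset.mem_filter.1 h2).2 (Finset.mem_insert_self _ _))
        have hgQ : g H Q'' = g H Q := by
          unfold g
          rw [heQ, hcard]
          push_cast
          ring
        have hIH := ih Q hQN' hclQ hforQ (by rw [← hgQ]; exact hg3)
        -- the pairs
        have hsub : oprs H (insert x N) Q'' ⊆ ((oprs H N Q).erase (y, z)).erase (z, y) := by
          intro p hp
          obtain ⟨hQ, hun, h, h', hgen, h3, h4⟩ := mem_oprs.1 hp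
          have hfnew : ∀ {s s' : V} {k k' : Finset V}, Gen H (insert x N) k k' → s ∈ k → s' ∈ k' →
              s = x → s' ∈ Q'' →
              (∀ h ∈ H, h ⊆ insert x N → s ∈ h → s' ∈ h → False) → False := by
            intro s s' k k' hkk hsk hsk' hsx hs' hun
            subst hsx
            have hke := hstep.uniq hH hN hN'' hkk.cherry.ha hkk.subset.1 hsk
            have hxk' := hcase hkk hsk
            obtain ⟨q, hq⟩ := hkk.cherry.meet
            rw [Finset.mem_inter] at hq
            have hqs' : q ≠ s' := by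
              rintro rfl
              exact hun k hkk.cherry.ha hkk.subset.1 hsk hq.1
            have hkQ : k ⊆ Q'' := by
              rw [hke]
              intro v hv
              simp only [Finset.mem_insert, Finset.mem_singleton] at hv
              rcases hv with rfl | rfl | rfl
              · exact hxQ''
              · exact hyzQ.1
              · exact hyzQ.2
            have h2 : 2 ≤ (k' ∩ Q'').card := Finset.one_lt_card.2 ⟨q,
              Finset.mem_inter.2 ⟨hq.2, hkQ hq.1⟩, s', Finset.mem_inter.2 ⟨hsk', hs'⟩, hqs'⟩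
            exact hfor k k' hkk hkQ (hcl k' hkk.cherry.hb hkk.subset.2 h2)
          have hp1 : p.1 ≠ x := fun h5 => hfnew hgen h3 h4 h5 hQ.2 hun
          have hp2 : p.2 ≠ x := fun h5 => hfnew hgen.symm h4 h3 h5 hQ.1
            (fun h hh hhN ha hb => hun h hh hhN hb ha)
          have hxyzN : ({x, y, z} : Finset V) ⊆ insert x N := by
            intro v hv
            simp only [Finset.mem_insert, Finset.mem_singleton] at hv ⊢
            rcases hv with rfl | rfl | rfl
            · exact Or.inl rfl
            · exact Or.inr hstep.hy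
            · exact Or.inr hstep.hz
          refine Finset.mem_erase.2 ⟨?_, Finset.mem_erase.2 ⟨?_, hpair' hp hp1 hp2⟩⟩
          · rintro rfl
            exact hun {x, y, z} hstep.mem hxyzN (by simp) (by simp)
          · rintro rfl
            exact hun {x, y, z} hstep.mem hxyzN (by simp) (by simp)
        obtain ⟨f, f', hff, hyf, hzf'⟩ := hstep.own
        have hyQ : y ∈ Q := Finset.mem_erase.2 ⟨hyx, hyzQ.1⟩
        have hzQ : z ∈ Q := Finset.mem_erase.2 ⟨hzx, hyzQ.2⟩
        have hm1 : (y, z) ∈ oprs H N Q :=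
          mem_oprs.2 ⟨⟨hyQ, hzQ⟩, hnadj, f, f', hff, hyf, hzf'⟩
        have hm2 : (z, y) ∈ (oprs H N Q).erase (y, z) := by
          refine Finset.mem_erase.2 ⟨?_, mem_oprs.2 ⟨⟨hzQ, hyQ⟩,
            fun h hh hhN h1 h2 => hnadj h hh hhN h2 h1, f', f, hff.symm, hzf', hyf⟩⟩
          intro h
          exact hyz (Prod.mk.inj h).2
        have h1 := Finset.card_le_card hsub
        have h2 := Finset.card_erase_add_one hm2
        have h3 := Finset.card_erase_add_one hm1
        have h4 : ((oprs H (insert x N) Q'').card : ℤ) + 2 ≤ (oprs H N Q).card := by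
          have : (oprs H (insert x N) Q'').card + 2 ≤ (oprs H N Q).card := by omega
          exact_mod_cast this
        rw [hgQ, heQ]
        push_cast
        linarith
      · -- case C
        have hdis : y ∉ Q'' ∧ z ∉ Q'' := by
          have hxyzN : ({x, y, z} : Finset V) ⊆ insert x N := by
            intro v hv
            simp only [Finset.mem_insert, Finset.mem_singleton] at hv ⊢
            rcases hv with rfl | rfl | rfl
            · exact Or.inl rfl
            · exact Or.inr hstep.hy
            · exact Or.inr hstep.hz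
          constructor
          · intro hy
            have h2 : 2 ≤ (({x, y, z} : Finset V) ∩ Q'').card :=
              Finset.one_lt_card.2 ⟨x, by simp [hxQ''], y, by simp [hy], hxy⟩
            have := hcl _ hstep.mem hxyzN h2
            exact hyzQ ⟨hy, this (by simp)⟩
          · intro hz
            have h2 : 2 ≤ (({x, y, z} : Finset V) ∩ Q'').card :=
              Finset.one_lt_card.2 ⟨x, by simp [hxQ''], z, by simp [hz], hxz⟩
            have := hcl _ hstep.mem hxyzN h2
            exact hyzQ ⟨this (by simp), hz⟩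
        have heQ : e H Q'' = e H Q := by
          have h1 : H.filter (fun E => E ⊆ Q'') = H.filter (fun E => E ⊆ Q) := by
            ext f
            rw [Finset.mem_filter, Finset.mem_filter]
            constructor
            · rintro ⟨hf, hfQ⟩
              by_cases hxf : x ∈ f
              · exfalso
                have := hstep.uniq hH hN hN'' hf (hfQ.trans hQN) hxf
                apply hdis.1
                apply hfQ
                rw [this]
                simp
              · refine ⟨hf, fun v hv => Finset.mem_erase.2 ⟨?_, hfQ hv⟩⟩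
                rintro rfl
                exact hxf hv
            · rintro ⟨hf, hfQ⟩
              exact ⟨hf, hfQ.trans hQsub⟩
          unfold e
          rw [h1]
        have hgQ : g H Q'' = g H Q + 1 := by
          unfold g
          rw [heQ, hcard]
          push_cast
          ring
        have hIH := ih Q hQN' hclQ hforQ (by omega)
        -- `Q` is small
        have hsmall : Q.card ≤ 2 ∨ Q ∈ H := by
          by_contra hcon
          rw [not_or] at hcon
          have := hN.sparse hH Q hQN' (by omega) hcon.2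
          omega
        classical
        set T := Q.filter (fun p => ∃ f f', Gen H N f f' ∧ y ∈ f ∧ z ∈ f' ∧ (p ∈ f ∨ p ∈ f'))
          with hT
        obtain ⟨f₁, f₁', hff₁, hyf₁, hzf₁⟩ := hstep.own
        have hTcard : (T.card : ℤ) ≤ g H Q := by
          rcases hsmall with h | h
          · rw [g_eq_card_of_le_two hH h]
            exact_mod_cast Finset.card_le_card (Finset.filter_subset _ _)
          · rw [g_edge hH h]
            have h3 := hH.1 Q h
            by_contra hcon
            have h4 : T.card ≤ Q.card := Finset.card_le_card (Finset.filter_subset _ _)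
            have h5 : T = Q := Finset.eq_of_subset_of_card_le (Finset.filter_subset _ _) (by omega)
            refine no_cross hH hN hnadj hff₁ hyf₁ hzf₁ h (fun hh => hdis.1 (hQsub hh))
              (fun hh => hdis.2 (hQsub hh)) ?_
            intro p hp
            rw [← h5, hT, Finset.mem_filter] at hp
            exact hp.2
        have hnewT : ∀ {s s' : V} {k k' : Finset V}, Gen H (insert x N) k k' → s ∈ k → s' ∈ k' →
            s = x → s' ∈ Q'' → s' ∈ T := by
          intro s s' k k' hkk hsk hsk' hsx hs'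
          subst hsx
          have hke := hstep.uniq hH hN hN'' hkk.cherry.ha hkk.subset.1 hsk
          have hxk' := hcase hkk hsk
          have h5 := hN.five_le hH
          obtain ⟨q, hq⟩ := hkk.cherry.meet
          rw [Finset.mem_inter] at hq
          have hs'Q : s' ∈ Q := Finset.mem_erase.2 ⟨fun h => hxk' (h ▸ hsk'), hs'⟩
          refine Finset.mem_filter.2 ⟨hs'Q, ?_⟩
          subst hke
          have hq1 := hq.1
          simp only [Finset.mem_insert, Finset.mem_singleton] at hq1
          rcases hq1 with rfl | rfl | rfl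
          · exact absurd hq.2 hxk'
          · obtain ⟨f', hf', hgf⟩ := gen_new hH hstep.mem hstep.hx hstep.hy hstep.hz hg hkk hq.2 h5
            exact ⟨k', f', hgf, hq.2, hf', Or.inl hsk'⟩
          · have hm : ({s, q, y} : Finset V) ∈ H := by rw [insert_swap]; exact hstep.mem
            obtain ⟨f', hf', hgf⟩ := gen_new hH hm hstep.hx hstep.hz hstep.hy hg (f := k')
              (by rw [insert_swap]; exact hkk) hq.2 h5
            exact ⟨f', k', hgf.symm, hf', hq.2, Or.inr hsk'⟩
        have hsub : oprs H (insert x N) Q'' ⊆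
            oprs H N Q ∪ (T.image (fun s => (x, s)) ∪ T.image (fun s => (s, x))) := by
          intro p hp
          obtain ⟨hQ, hun, h, h', hgen, h3, h4⟩ := mem_oprs.1 hp
          by_cases hp1 : p.1 = x
          · refine Finset.mem_union_right _ (Finset.mem_union_left _
              (Finset.mem_image.2 ⟨p.2, hnewT hgen h3 h4 hp1 hQ.2, ?_⟩))
            rw [← hp1]
          · by_cases hp2 : p.2 = x
            · refine Finset.mem_union_right _ (Finset.mem_union_right _
                (Finset.mem_image.2 ⟨p.1, hnewT hgen.symm h4 h3 hp2 hQ.1, ?_⟩))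
              rw [← hp2]
            · exact Finset.mem_union_left _ (hpair' hp hp1 hp2)
        have h1 := Finset.card_le_card hsub
        have h2 := Finset.card_union_le (oprs H N Q)
          (T.image (fun s => (x, s)) ∪ T.image (fun s => (s, x)))
        have h3 := Finset.card_union_le (T.image (fun s => (x, s))) (T.image (fun s => (s, x)))
        have h4 : (T.image (fun s => (x, s))).card ≤ T.card := Finset.card_image_le
        have h5 : (T.image (fun s => (s, x))).card ≤ T.card := Finset.card_image_le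
        have h6 : ((oprs H (insert x N) Q'').card : ℤ) ≤ (oprs H N Q).card + 2 * T.card := by
          have : (oprs H (insert x N) Q'').card ≤ (oprs H N Q).card + 2 * T.card := by omega
          exact_mod_cast this
        rw [hgQ, heQ]
        nlinarith
    · -- case A
      have hQeq : Q = Q'' := Finset.erase_eq_of_notMem hxQ''
      rw [hQeq] at hQN' hclQ hforQ
      have hIH := ih Q'' hQN' hclQ hforQ hg3
      have hsub : oprs H (insert x N) Q'' ⊆ oprs H N Q'' := by
        intro p hp
        obtain ⟨hQ, -⟩ := mem_oprs.1 hp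
        have := hpair' hp (fun h => hxQ'' (h ▸ hQ.1)) (fun h => hxQ'' (h ▸ hQ.2))
        rwa [Finset.erase_eq_of_notMem hxQ''] at this
      have h1 : ((oprs H (insert x N) Q'').card : ℤ) ≤ (oprs H N Q'').card := by
        exact_mod_cast Finset.card_le_card hsub
      linarith

/-- (F5) A closed set inside an own hull without own cherry and with `g ≤ 3` has at most three
triples. -/
theorem foreign_e_le (hH : Lin H) {N Q : Finset V} (hN : Full H N) (hQN : Q ⊆ N)
    (hQ : ∀ h ∈ H, h ⊆ N → 2 ≤ (h ∩ Q).card → h ⊆ Q)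
    (hfor : ∀ a b, Gen H N a b → a ⊆ Q → b ⊆ Q → False) (hg : g H Q ≤ 3) : e H Q ≤ 3 := by
  obtain ⟨a, b, hab⟩ := hN.ne
  have h1 := foreign_lines hH hN hab Q hQN hQ hfor hg
  have h0 : 0 ≤ g H Q := by
    by_cases h4 : 4 ≤ Q.card
    · have := Sparse.three_le hH (hN.sparse hH) hQN h4
      omega
    · by_cases h2 : Q.card ≤ 2
      · rw [g_eq_card_of_le_two hH h2]
        positivity
      · by_cases hQH : Q ∈ H
        · rw [g_edge hH hQH]; norm_num
        · have := hN.sparse hH Q hQN (by omega) hQH
          omega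
  have h2 : (0 : ℤ) ≤ (oprs H N Q).card := by positivity
  have h3 : 2 * (e H Q : ℤ) ≤ 6 := by nlinarith
  omega

end Pool.Agent.Lib.MP_c82047_co18
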