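import Mathlib

/-!
# Two abstract lemmas
-/

namespace Pool.Agent.Lib.MP_c82047_co18

private theorem rtg_mono {α : Type*} {r p : α → α → Prop} (h : ∀ a b, r a b → p a b) {a b : α}
    (hab : Relation.ReflTransGen r a b) : Relation.ReflTransGen p a b := by
  induction hab with
  | refl => exact Relation.ReflTransGen.refl
  | tail _ hbc ih => exact ih.tail (h _ _ hbc)

private theorem rtg_symm {α : Type*} {r : α → α → Prop} (h : ∀ a b, r a b → r b a) {a b : α}
    (hab : Relation.ReflTransGen r a b) : Relation.ReflTransGen r b a := by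
  induction hab with
  | refl => exact Relation.ReflTransGen.refl
  | tail _ hbc ih => exact Relation.ReflTransGen.head (h _ _ hbc) ih

/-- A ranked relation in which different children of a vertex `x` are never connected below `x`
has fewer arrows than vertices. -/
theorem forest_bound {α : Type*} [DecidableEq α] (s : Finset α) (R : α → α → Prop)
    [DecidableRel R] (rk : α → ℕ) (hdec : ∀ x ∈ s, ∀ y ∈ s, R x y → rk y < rk x)
    (hpath : ∀ x ∈ s, ∀ y ∈ s, ∀ z ∈ s, R x y → R x z →
      Relation.ReflTransGen (fun u v => u ∈ s ∧ v ∈ s ∧ u ≠ x ∧ v ≠ x ∧ rk u ≤ rk x ∧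
        rk v ≤ rk x ∧ (R u v ∨ R v u)) y z → y = z) (hne : s.Nonempty) :
    ∑ x ∈ s, (s.filter (fun y => R x y)).card + 1 ≤ s.card := by
  classical
  have key : ∀ t : Finset α, t ⊆ s → ∃ c : α → α, (∀ u ∈ t, c u ∈ t) ∧
      (∀ u ∈ t, ∀ v ∈ t, c u = c v →
        Relation.ReflTransGen (fun u v => u ∈ t ∧ v ∈ t ∧ (R u v ∨ R v u)) u v) ∧
      ∑ x ∈ t, (t.filter (fun y => R x y)).card + (t.image c).card ≤ t.card := by
    intro t
    induction t using Finset.induction_on_max_value rk with
    | empty => exact fun _ => ⟨id, by simp, by simp, by simp⟩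
    | insert x t hxt hmax ih =>
      intro hts
      have hxs : x ∈ s := hts (Finset.mem_insert_self _ _)
      have hts' : t ⊆ s := (Finset.subset_insert _ _).trans hts
      obtain ⟨c, hc1, hc2, hc3⟩ := ih hts'
      have hRx : ∀ u ∈ insert x t, ¬ R u x := by
        intro u hu h
        have h1 := hdec u (hts hu) x hxs h
        rcases Finset.mem_insert.1 hu with rfl | hu'
        · exact lt_irrefl _ h1
        · exact absurd (hmax u hu') (not_le.2 h1)
      -- children
      set D := t.filter (fun y => R x y) with hD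
      have hinj : Set.InjOn c (D : Set α) := by
        intro y hy z hz hyz
        rw [Finset.mem_coe, hD, Finset.mem_filter] at hy hz
        refine hpath x hxs y (hts' hy.1) z (hts' hz.1) hy.2 hz.2 ?_
        refine rtg_mono ?_ (hc2 y hy.1 z hz.1 hyz)
        rintro u v ⟨hu, hv, h⟩
        exact ⟨hts' hu, hts' hv, fun h => hxt (h ▸ hu), fun h => hxt (h ▸ hv), hmax u hu,
          hmax v hv, h⟩
      have hcard : (D.image c).card = D.card := Finset.card_image_of_injOn hinj
      set c' : α → α := fun u => if u = x ∨ c u ∈ D.image c then x else c u with hc'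
      have hmono : ∀ u v, Relation.ReflTransGen (fun u v => u ∈ t ∧ v ∈ t ∧ (R u v ∨ R v u)) u v →
          Relation.ReflTransGen
            (fun u v => u ∈ insert x t ∧ v ∈ insert x t ∧ (R u v ∨ R v u)) u v := by
        intro u v h
        refine rtg_mono ?_ h
        rintro u v ⟨hu, hv, h⟩
        exact ⟨Finset.mem_insert_of_mem hu, Finset.mem_insert_of_mem hv, h⟩
      -- every vertex of the new component is joined to `x`
      have hto : ∀ u ∈ insert x t, (u = x ∨ c u ∈ D.image c) →
          Relation.ReflTransGen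
            (fun u v => u ∈ insert x t ∧ v ∈ insert x t ∧ (R u v ∨ R v u)) u x := by
        intro u hu h
        by_cases hux : u = x
        · rw [hux]
        · have hut : u ∈ t := (Finset.mem_insert.1 hu).resolve_left hux
          obtain ⟨y, hy, hyu⟩ := Finset.mem_image.1 (h.resolve_left hux)
          rw [hD, Finset.mem_filter] at hy
          refine (hmono u y (hc2 u hut y hy.1 hyu.symm)).tail ?_
          exact ⟨Finset.mem_insert_of_mem hy.1, Finset.mem_insert_self _ _, Or.inr hy.2⟩
      have hsymm : ∀ u v, Relation.ReflTransGen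
            (fun u v => u ∈ insert x t ∧ v ∈ insert x t ∧ (R u v ∨ R v u)) u v →
          Relation.ReflTransGen
            (fun u v => u ∈ insert x t ∧ v ∈ insert x t ∧ (R u v ∨ R v u)) v u := by
        intro u v h
        refine rtg_symm ?_ h
        rintro a b ⟨ha, hb, h⟩
        exact ⟨hb, ha, h.symm⟩
      refine ⟨c', ?_, ?_, ?_⟩
      · intro u hu
        simp only [hc']
        split_ifs with h
        · exact Finset.mem_insert_self _ _
        · rw [not_or] at h
          exact Finset.mem_insert_of_mem (hc1 u ((Finset.mem_insert.1 hu).resolve_left h.1))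
      · intro u hu v hv huv
        simp only [hc'] at huv
        split_ifs at huv with h1 h2 h2
        · exact (hto u hu h1).trans (hsymm _ _ (hto v hv h2))
        · exfalso
          rw [not_or] at h2
          have hvt := (Finset.mem_insert.1 hv).resolve_left h2.1
          exact hxt (huv ▸ hc1 v hvt)
        · exfalso
          rw [not_or] at h1
          have hut := (Finset.mem_insert.1 hu).resolve_left h1.1
          exact hxt (huv ▸ hc1 u hut)
        · rw [not_or] at h1 h2
          have hut := (Finset.mem_insert.1 hu).resolve_left h1.1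
          have hvt := (Finset.mem_insert.1 hv).resolve_left h2.1
          exact hmono u v (hc2 u hut v hvt huv)
      · have himg : (insert x t).image c' ⊆ insert x (t.image c \ D.image c) := by
          intro w hw
          obtain ⟨u, hu, rfl⟩ := Finset.mem_image.1 hw
          simp only [hc']
          split_ifs with h
          · exact Finset.mem_insert_self _ _
          · rw [not_or] at h
            have hut := (Finset.mem_insert.1 hu).resolve_left h.1
            exact Finset.mem_insert_of_mem
              (Finset.mem_sdiff.2 ⟨Finset.mem_image_of_mem _ hut, h.2⟩)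
        have h1 : ((insert x t).image c').card ≤ (t.image c \ D.image c).card + 1 :=
          (Finset.card_le_card himg).trans (Finset.card_insert_le _ _)
        have h2 : (t.image c \ D.image c).card + D.card = (t.image c).card := by
          rw [← hcard]
          exact Finset.card_sdiff_add_card_eq_card
            (Finset.image_subset_image (Finset.filter_subset _ _))
        have h3 : ∀ u ∈ insert x t,
            ((insert x t).filter (fun y => R u y)) = t.filter (fun y => R u y) := by
          intro u hu
          rw [Finset.filter_insert, if_neg (hRx u hu)]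
        have h4 : ∑ u ∈ insert x t, ((insert x t).filter (fun y => R u y)).card
            = D.card + ∑ u ∈ t, (t.filter (fun y => R u y)).card := by
          rw [Finset.sum_congr rfl (fun u hu => by rw [h3 u hu]), Finset.sum_insert hxt]
        rw [h4, Finset.card_insert_of_notMem hxt]
        omega
  obtain ⟨c, -, -, h⟩ := key s subset_rfl
  have : 0 < (s.image c).card := Finset.card_pos.2 (hne.image c)
  omega

/-- Summation over cells. -/
theorem cell_lemma {α : Type*} [DecidableEq α] (P Bad : Finset α) (φ : α → ℤ)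
    (cell : α → Finset α) (K : ℕ) (m : ℤ) (hm : 0 ≤ m) (hself : ∀ p ∈ P, p ∈ cell p)
    (hpart : ∀ p ∈ P, ∀ p' ∈ cell p, p' ∈ P ∧ cell p' = cell p) (hK : ∀ p ∈ P, (cell p).card ≤ K)
    (hlow : ∀ p ∈ P, -m ≤ φ p)
    (hgood : ∀ p ∈ P, (∃ p' ∈ cell p, p' ∈ Bad) ∨ 1 ≤ ∑ p' ∈ cell p, φ p') :
    (P.card : ℤ) ≤ K * ∑ p ∈ P, φ p + (m * K + 1) * (K * Bad.card) := by
  classical
  set G := P.filter (fun p => ¬ ∃ p' ∈ cell p, p' ∈ Bad) with hG
  set B := P.filter (fun p => ∃ p' ∈ cell p, p' ∈ Bad) with hB
  have hsplit : B.card + G.card = P.card := Finset.card_filter_add_card_filter_not _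
  have hsum : ∑ p ∈ B, φ p + ∑ p ∈ G, φ p = ∑ p ∈ P, φ p :=
    Finset.sum_filter_add_sum_filter_not _ _ _
  have hBcard : B.card ≤ K * Bad.card := by
    have h1 : B ⊆ (Bad.filter (fun b => b ∈ P)).biUnion cell := by
      intro p hp
      rw [hB, Finset.mem_filter] at hp
      obtain ⟨hpP, p', hp', hbad⟩ := hp
      obtain ⟨h2, h3⟩ := hpart p hpP p' hp'
      refine Finset.mem_biUnion.2 ⟨p', Finset.mem_filter.2 ⟨hbad, h2⟩, ?_⟩
      rw [h3]
      exact hself p hpP
    calc B.card ≤ ((Bad.filter (fun b => b ∈ P)).biUnion cell).card := Finset.card_le_card h1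
      _ ≤ ∑ b ∈ Bad.filter (fun b => b ∈ P), (cell b).card := Finset.card_biUnion_le
      _ ≤ ∑ _b ∈ Bad.filter (fun b => b ∈ P), K :=
          Finset.sum_le_sum fun b hb => hK b (Finset.mem_filter.1 hb).2
      _ = (Bad.filter (fun b => b ∈ P)).card * K := by rw [Finset.sum_const, smul_eq_mul]
      _ ≤ Bad.card * K := Nat.mul_le_mul_right _ (Finset.card_filter_le _ _)
      _ = K * Bad.card := Nat.mul_comm _ _
  have hfib : ∀ C ∈ G.image cell, G.filter (fun p => cell p = C) = C := by
    intro C hC
    obtain ⟨p, hp, rfl⟩ := Finset.mem_image.1 hC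
    rw [hG, Finset.mem_filter] at hp
    ext p'
    rw [Finset.mem_filter, hG, Finset.mem_filter]
    constructor
    · rintro ⟨⟨h1, -⟩, h3⟩
      rw [← h3]
      exact hself p' h1
    · intro h
      obtain ⟨h2, h3⟩ := hpart p hp.1 p' h
      exact ⟨⟨h2, by rw [h3]; exact hp.2⟩, h3⟩
  have hmaps : ∀ p ∈ G, cell p ∈ G.image cell := fun p hp => Finset.mem_image_of_mem _ hp
  have hGcard : (G.card : ℤ) ≤ K * ∑ p ∈ G, φ p := by
    rw [← Finset.sum_fiberwise_of_maps_to hmaps φ, Finset.card_eq_sum_card_fiberwise hmaps]
    push_cast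
    rw [Finset.mul_sum]
    refine Finset.sum_le_sum fun C hC => ?_
    rw [hfib C hC]
    obtain ⟨p, hp, rfl⟩ := Finset.mem_image.1 hC
    rw [hG, Finset.mem_filter] at hp
    have h1 := (hgood p hp.1).resolve_left hp.2
    have h2 : ((cell p).card : ℤ) ≤ K := by exact_mod_cast hK p hp.1
    have h3 : (0 : ℤ) ≤ K := by positivity
    nlinarith
  have hBsum : -(m * B.card) ≤ ∑ p ∈ B, φ p := by
    have : ∑ _p ∈ B, (-m) ≤ ∑ p ∈ B, φ p :=
      Finset.sum_le_sum fun p hp => hlow p (Finset.mem_filter.1 hp).1
    rw [Finset.sum_const, nsmul_eq_mul] at this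
    linarith
  have hBc : (B.card : ℤ) ≤ K * Bad.card := by exact_mod_cast hBcard
  have hs : (P.card : ℤ) = B.card + G.card := by exact_mod_cast hsplit.symm
  have hK0 : (0 : ℤ) ≤ K := by positivity
  rw [hs, ← hsum]
  have e1 : (K : ℤ) * -(m * B.card) ≤ K * ∑ p ∈ B, φ p := mul_le_mul_of_nonneg_left hBsum hK0
  have e2 : (K : ℤ) * m * B.card ≤ K * m * (K * Bad.card) :=
    mul_le_mul_of_nonneg_left hBc (mul_nonneg hK0 hm)
  nlinarith

end Pool.Agent.Lib.MP_c82047_co18
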