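import Pool.Agent.Lib.MP_c82047_co18.Star
import Pool.Agent.Lib.MP_c82047_co18.Graph

/-!
# The forest lemma in a universe (section 7)
-/

namespace Pool.Agent.Lib.MP_c82047_co18

open Pool.Agent.Lib.MP_c82047_co97

variable {V : Type*} [DecidableEq V] [Fintype V] {H : Finset (Finset V)}

/-- A closed set with at most as many points as the class `M`, and different from `M`, does not
contain the own hull of `M`. -/
theorem not_hull_subset (hH : Lin H) {M W : Finset V} (hM : IsCls H M) (hW : Closed H W)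
    (hne : W ≠ M) (hcard : W.card ≤ M.card) : ¬ hull H M ⊆ W := by
  intro hsub
  obtain ⟨a, b, hab⟩ := hM.ne
  have hab' := (gen_hull_iff hH hM).2 hab
  have h1 := hM.subset_of_gen hH hab hW (hab'.subset.1.trans hsub) (hab'.subset.2.trans hsub)
  exact hne (Finset.eq_of_subset_of_card_le h1 hcard).symm

/-- Two different children of `M` are not connected below `M` in a universe. -/
theorem no_path (hH : Lin H) {𝒟 : Finset (Finset V)} {F : Finset V} (hcls : ∀ D ∈ 𝒟, IsCls H D)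
    (hF : ∀ D ∈ 𝒟, D ⊆ F) (hg : ∀ X ⊆ F, (∃ D ∈ 𝒟, hull H D ⊆ X) → 3 ≤ g H X) {M D D' : Finset V}
    (hM : M ∈ 𝒟) (hD : D ∈ 𝒟) (hD' : D' ∈ 𝒟) (h1 : D ∈ kids H M) (h2 : D' ∈ kids H M)
    (hpath : Relation.ReflTransGen (fun u v => u ∈ 𝒟 ∧ v ∈ 𝒟 ∧ u ≠ M ∧ v ≠ M ∧
      u.card ≤ M.card ∧ v.card ≤ M.card ∧ (v ∈ kids H u ∨ u ∈ kids H v)) D D') : D = D' := by
  obtain ⟨a, b, c, d, r, s, hs, hcl⟩ := mem_kids.1 h1
  obtain ⟨a', b', c', d', r', s', hs', hcl'⟩ := mem_kids.1 h2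
  have hMc := hcls M hM
  have hA := hs.subset_hull hH hMc
  have hAF : a ∪ b ∪ c ∪ d ⊆ F := (hA.trans (hull_subset hH hMc)).trans (hF M hM)
  have key : ∀ W, Relation.ReflTransGen (fun u v => u ∈ 𝒟 ∧ v ∈ 𝒟 ∧ u ≠ M ∧ v ≠ M ∧
      u.card ≤ M.card ∧ v.card ≤ M.card ∧ (v ∈ kids H u ∨ u ∈ kids H v)) D W →
      W ∈ 𝒟 ∧ ∃ X, D ⊆ X ∧ W ⊆ X ∧ X ⊆ F ∧ g H X ≤ 3 ∧ X ∩ (a ∪ b ∪ c ∪ d) = c ∪ d := by
    intro W hW
    induction hW with
    | refl =>
      refine ⟨hD, D, subset_rfl, subset_rfl, hF D hD, (hcls D hD).g_eq.le, ?_⟩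
      rw [← hcl]
      exact hs.cl_inter hH hMc
    | @tail W W' _ hstep ih =>
      obtain ⟨-, hW', -, hne', -, hcard', hkid⟩ := hstep
      obtain ⟨hW, X, hDX, hWX, hXF, hgX, hXA⟩ := ih
      have hcW := hcls W hW
      have hcW' := hcls W' hW'
      have hW'F := hF W' hW'
      have hnest : W ⊆ W' ∨ W' ⊆ W := by
        rcases hkid with h | h
        · exact Or.inr (kid_isCls hH hcW h).2.1
        · exact Or.inl (kid_isCls hH hcW' h).2.1
      have h3 : 3 ≤ g H (X ∩ W') := by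
        refine hg _ (Finset.inter_subset_left.trans hXF) ?_
        rcases hnest with h | h
        · exact ⟨W, hW, (hull_subset hH hcW).trans (Finset.subset_inter hWX h)⟩
        · exact ⟨W', hW', (hull_subset hH hcW').trans
            (Finset.subset_inter (h.trans hWX) subset_rfl)⟩
      have hgU : g H (X ∪ W') ≤ 3 := by
        have h4 := g_submod H X W'
        have h5 := hcW'.g_eq
        omega
      refine ⟨hW', X ∪ W', hDX.trans Finset.subset_union_left, Finset.subset_union_right,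
        Finset.union_subset hXF hW'F, hgU, ?_⟩
      refine hs.sa hH hMc hXA hcW'.closed
        (not_hull_subset hH hMc hcW'.closed hne' hcard') subset_rfl hgU ?_
      refine hg _ (Finset.union_subset (Finset.union_subset hXF hW'F) hAF) ⟨D, hD, ?_⟩
      exact ((hull_subset hH (hcls D hD)).trans hDX).trans
        (Finset.subset_union_left.trans Finset.subset_union_left)
  obtain ⟨-, X, hDX, hD'X, hXF, hgX, hXA⟩ := key D' hpath
  obtain ⟨Q, hXQ, hQM, heQ, hgQ⟩ := hs.exists_Q hH hMc hXA hgX (by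
    refine hg _ (Finset.union_subset ((hull_subset hH hMc).trans (hF M hM)) hXF) ⟨M, hM, ?_⟩
    exact Finset.subset_union_left)
  have hA' := hs'.subset_hull hH hMc
  have hcd : c ∪ d ⊆ Q := by
    refine (Finset.subset_inter ?_ ?_).trans hXQ
    · refine Finset.Subset.trans ?_ hA
      intro v hv
      simp only [Finset.mem_union] at hv ⊢
      tauto
    · rw [← hXA]
      exact Finset.inter_subset_left
  have hcd' : c' ∪ d' ⊆ Q := by
    refine (Finset.subset_inter ?_ ?_).trans hXQ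
    · refine Finset.Subset.trans ?_ hA'
      intro v hv
      simp only [Finset.mem_union] at hv ⊢
      tauto
    · refine Finset.Subset.trans ?_ hD'X
      rw [← hcl']
      exact subset_cl H _
  rw [← hcl, ← hcl']
  exact cl_eq_of_Q hH hMc hQM heQ hgQ (hs.cherry hH) (hs'.cherry hH) hcd hcd'

/-- The sum of `S` over a down-closed nonempty family of classes in a universe. -/
theorem universe_sum (hH : Lin H) {𝒟 : Finset (Finset V)} {F : Finset V}
    (hcls : ∀ D ∈ 𝒟, IsCls H D) (hF : ∀ D ∈ 𝒟, D ⊆ F)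
    (hg : ∀ X ⊆ F, (∃ D ∈ 𝒟, hull H D ⊆ X) → 3 ≤ g H X) (hdown : ∀ D ∈ 𝒟, kids H D ⊆ 𝒟)
    (hne : 𝒟.Nonempty) : 3 ≤ ∑ D ∈ 𝒟, S H D := by
  have h1 := forest_bound 𝒟 (fun x y => y ∈ kids H x) Finset.card
    (fun x hx y _ h => (kid_isCls hH (hcls x hx) h).2.2)
    (fun x hx y hy z hz hxy hxz hpath => no_path hH hcls hF hg hx hy hz hxy hxz hpath) hne
  have h2 : ∀ D ∈ 𝒟, 𝒟.filter (fun y => y ∈ kids H D) = kids H D := by
    intro D hD
    ext y
    rw [Finset.mem_filter]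
    exact ⟨fun h => h.2, fun h => ⟨hdown D hD h, h⟩⟩
  rw [Finset.sum_congr rfl (fun D hD => by rw [h2 D hD])] at h1
  have h3 : ∑ D ∈ 𝒟, (3 - 3 * ((kids H D).card : ℤ)) ≤ ∑ D ∈ 𝒟, S H D :=
    Finset.sum_le_sum fun D hD => S_ge hH (hcls D hD)
  rw [Finset.sum_sub_distrib, Finset.sum_const, nsmul_eq_mul, ← Finset.mul_sum] at h3
  have h4 : (∑ D ∈ 𝒟, ((kids H D).card : ℤ)) + 1 ≤ 𝒟.card := by exact_mod_cast h1
  linarith

end Pool.Agent.Lib.MP_c82047_co18
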