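import Pool.Agent.Lib.MP_c82047_co18.Forest
import Pool.Agent.Lib.MP_c82047_co18.Degen

/-!
# The main inequality for one colour (section 10)
-/

namespace Pool.Agent.Lib.MP_c82047_co18

open Pool.Agent.Lib.MP_c82047_co97

variable {V : Type*} [DecidableEq V] [Fintype V] {H : Finset (Finset V)} {k : ℕ}

/-- Admissible families built by merging. -/
inductive Adm (H : Finset (Finset V)) : Finset V → Finset (Finset V) → Prop
  | base {C : Finset V} : IsCls H C → S H C ≤ 0 → Adm H C (down H C)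
  | merge {F C E : Finset V} {𝒮 : Finset (Finset V)} : Adm H F 𝒮 → IsCls H C → S H C ≤ 0 →
      E ∈ 𝒮 → E ∈ down H C → Adm H (cl H (F ∪ C)) (𝒮 ∪ down H C)

/-- The properties of an admissible family. -/
structure AdmGood (H : Finset (Finset V)) (k : ℕ) (U : Finset V → Finset V) (W : V → Finset V)
    (F : Finset V) (𝒮 : Finset (Finset V)) : Prop where
  closed : Closed H F
  card : F.card < k
  gle : g H F ≤ 3
  cls : ∀ E ∈ 𝒮, IsCls H E
  reach : ∀ E ∈ 𝒮, BReach H (hull H E) F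
  down : ∀ E ∈ 𝒮, kids H E ⊆ 𝒮
  alt : g H F = 3 ∨ ∃ E ∈ 𝒮, ∃ a b, Gen H E a b ∧ Bad U W a b

theorem IsCls.card_lt (hH : Lin H) (hk : KFree H k) {M : Finset V} (hM : IsCls H M) :
    M.card < k := by
  obtain ⟨a, b, hab⟩ := hM.ne
  refine hab.reach.card_lt hH hk ?_ (hab.cherry.g_le hH)
  have h6 := six_le hH hk hab.cherry
  have h5 := hab.cherry.card hH
  omega

theorem down_down {C E D : Finset V} (hE : E ∈ down H C) (hD : D ∈ kids H E) : D ∈ down H C := by
  rw [mem_down] at hE ⊢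
  exact hE.tail hD

theorem self_mem_down (C : Finset V) : C ∈ down H C := by
  rw [mem_down]

/-- Reaching on top of another set. -/
theorem BReach.union_right {A N B : Finset V} (h : BReach H A N) (hAB : A ⊆ B) :
    BReach H B (N ∪ B) := by
  have := h.union B
  rwa [Finset.union_eq_right.2 hAB] at this

theorem Adm.good (hH : Lin H) (hk : KFree H k) (hcl : Clean H k)
    {U : Finset V → Finset V} {W : V → Finset V} (hc : Choice H k U W) {F : Finset V}
    {𝒮 : Finset (Finset V)} (h : Adm H F 𝒮) : AdmGood H k U W F 𝒮 := by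
  induction h with
  | @base C hC hS =>
    refine ⟨hC.closed, hC.card_lt hH hk, hC.g_eq.le, ?_, ?_, ?_, Or.inl hC.g_eq⟩
    · intro E hE; exact (down_isCls hH hC hE).1
    · intro E hE; exact down_bReach hH hC hE
    · intro E hE D hD; exact down_down hE hD
  | @merge F C E 𝒮 _ hC hS hE hE' ih =>
    have hER := ih.reach E hE
    have hEC := down_bReach hH hC hE'
    have hreachF : BReach H F (cl H (F ∪ C)) := by
      have h1 := hEC.union_right hER.subset
      rw [Finset.union_comm C F] at h1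
      exact h1.trans (reach_cl H _).bReach
    have hreachC : BReach H C (cl H (F ∪ C)) := by
      have h1 := hER.union_right hEC.subset
      exact h1.trans (reach_cl H _).bReach
    have hcard := merge_card_lt hH hk hC hS (hC.card_lt hH hk) hE' ih.closed ih.card ih.gle hER
    have hg := hreachF.g_le hH
    refine ⟨closed_cl hH _, hcard, hg.trans ih.gle, ?_, ?_, ?_, ?_⟩
    · intro D hD
      rcases Finset.mem_union.1 hD with hD | hD
      · exact ih.cls D hD
      · exact (down_isCls hH hC hD).1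
    · intro D hD
      rcases Finset.mem_union.1 hD with hD | hD
      · exact (ih.reach D hD).trans hreachF
      · exact (down_bReach hH hC hD).trans hreachC
    · intro D hD D' hD'
      rcases Finset.mem_union.1 hD with hD | hD
      · exact Finset.mem_union_left _ (ih.down D hD hD')
      · exact Finset.mem_union_right _ (down_down hD hD')
    · rcases ih.alt with h3 | ⟨D, hD, hbad⟩
      · by_cases h4 : g H (cl H (F ∪ C)) = 3
        · exact Or.inl h4
        · right
          have h5 := bad_of_merge hH hk hcl hc hC hS (hC.card_lt hH hk) hE' ih.closed ih.card h3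
            hER (by omega)
          exact ⟨C, Finset.mem_union_right _ (self_mem_down C), h5⟩
      · exact Or.inr ⟨D, Finset.mem_union_left _ hD, hbad⟩

/-- A family closed under merging which meets an admissible family contains it. -/
theorem Adm.subset_of_closed {F : Finset V} {𝒮 𝒯 : Finset (Finset V)} (h : Adm H F 𝒮)
    (hT : ∀ C, IsCls H C → S H C ≤ 0 → ∀ E ∈ 𝒯, E ∈ down H C → down H C ⊆ 𝒯) {X : Finset V}
    (hX : X ∈ 𝒮) (hXT : X ∈ 𝒯) : 𝒮 ⊆ 𝒯 := by
  revert X
  induction h with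
  | @base C hC hS =>
    intro X hX hXT
    exact hT C hC hS X hXT hX
  | @merge F C E 𝒮 _ hC hS hE hE' ih =>
    intro X hX hXT
    rcases Finset.mem_union.1 hX with hX | hX
    · have h1 := ih hX hXT
      exact Finset.union_subset h1 (hT C hC hS E (h1 hE) hE')
    · have h1 := hT C hC hS X hXT hX
      exact Finset.union_subset (ih hE (h1 hE')) h1

/-- Maximal admissible families. -/
theorem exists_max_adm {M : Finset V} (h : ∃ F 𝒮, Adm H F 𝒮 ∧ M ∈ 𝒮) :
    ∃ 𝒮, (∃ F, Adm H F 𝒮) ∧ M ∈ 𝒮 ∧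
      ∀ C, IsCls H C → S H C ≤ 0 → ∀ E ∈ 𝒮, E ∈ down H C → down H C ⊆ 𝒮 := by
  classical
  obtain ⟨F₀, 𝒮₀, h₀, hM₀⟩ := h
  obtain ⟨𝒮, h𝒮, hmax⟩ := Finset.exists_max_image
    (Finset.univ.filter (fun 𝒮 : Finset (Finset V) => (∃ F, Adm H F 𝒮) ∧ M ∈ 𝒮)) Finset.card
    ⟨𝒮₀, by simp only [Finset.mem_filter, Finset.mem_univ, true_and]; exact ⟨⟨F₀, h₀⟩, hM₀⟩⟩
  simp only [Finset.mem_filter, Finset.mem_univ, true_and] at h𝒮 hmax
  obtain ⟨⟨F, hF⟩, hM⟩ := h𝒮
  refine ⟨𝒮, ⟨F, hF⟩, hM, fun C hC hS E hE hE' => ?_⟩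
  have h1 := hmax (𝒮 ∪ down H C)
    ⟨⟨_, Adm.merge hF hC hS hE hE'⟩, Finset.mem_union_left _ hM⟩
  have h2 : 𝒮 = 𝒮 ∪ down H C := Finset.eq_of_subset_of_card_le Finset.subset_union_left h1
  rw [h2]
  exact Finset.subset_union_right

open Classical in
/-- The family of a class. -/
noncomputable def fam (H : Finset (Finset V)) (M : Finset V) : Finset (Finset V) :=
  if h : ∃ F 𝒮, Adm H F 𝒮 ∧ M ∈ 𝒮 then (exists_max_adm h).choose else {M}

theorem self_mem_fam (M : Finset V) : M ∈ fam H M := by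
  unfold fam
  split_ifs with h
  · exact (exists_max_adm h).choose_spec.2.1
  · exact Finset.mem_singleton_self M

theorem fam_spec {M : Finset V} (h : ∃ F 𝒮, Adm H F 𝒮 ∧ M ∈ 𝒮) :
    (∃ F, Adm H F (fam H M)) ∧ M ∈ fam H M ∧
      ∀ C, IsCls H C → S H C ≤ 0 → ∀ E ∈ fam H M, E ∈ down H C → down H C ⊆ fam H M := by
  unfold fam
  rw [dif_pos h]
  exact (exists_max_adm h).choose_spec

theorem fam_eq {M M' : Finset V} (h : M' ∈ fam H M) : fam H M' = fam H M := by
  by_cases hM : ∃ F 𝒮, Adm H F 𝒮 ∧ M ∈ 𝒮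
  · obtain ⟨⟨F, hF⟩, h1, h2⟩ := fam_spec hM
    have hM' : ∃ F 𝒮, Adm H F 𝒮 ∧ M' ∈ 𝒮 := ⟨F, fam H M, hF, h⟩
    obtain ⟨⟨F', hF'⟩, h1', h2'⟩ := fam_spec hM'
    exact Finset.Subset.antisymm (hF'.subset_of_closed h2 h1' h)
      (hF.subset_of_closed h2' h h1')
  · have h1 : fam H M = {M} := by unfold fam; rw [dif_neg hM]
    rw [h1, Finset.mem_singleton] at h
    rw [h]

open Classical in
/-- All ordered cherries. -/
noncomputable def cherries (H : Finset (Finset V)) : Finset (Finset V × Finset V) :=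
  (H ×ˢ H).filter (fun p => Cherry H p.1 p.2)

theorem mem_cherries {p : Finset V × Finset V} : p ∈ cherries H ↔ Cherry H p.1 p.2 := by
  classical
  unfold cherries
  rw [Finset.mem_filter, Finset.mem_product]
  exact ⟨fun h => h.2, fun h => ⟨⟨h.ha, h.hb⟩, h⟩⟩

theorem w_le_four (hH : Lin H) {a b : Finset V} (hab : Cherry H a b) : w H a b ≤ 4 := by
  classical
  obtain ⟨v, hv⟩ := hab.meet
  rw [Finset.mem_inter] at hv
  have h1 : ∀ c ∈ H.filter (fun c => Loose a b c), ∃ p ∈ (a.erase v) ×ˢ (b.erase v),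
      p.1 ∈ c ∧ p.2 ∈ c := by
    intro c hc
    rw [Finset.mem_filter] at hc
    obtain ⟨hcH, -, -, -, -, ⟨x, hx⟩, ⟨y, hy⟩, h7⟩ := hc
    rw [Finset.mem_inter] at hx hy
    have hvc : v ∉ c := by
      intro hvc
      have : v ∈ a ∩ b ∩ c := by
        rw [Finset.mem_inter, Finset.mem_inter]; exact ⟨hv, hvc⟩
      rw [h7] at this
      simp at this
    refine ⟨(x, y), ?_, hx.2, hy.2⟩
    rw [Finset.mem_product, Finset.mem_erase, Finset.mem_erase]
    exact ⟨⟨fun h => hvc (h ▸ hx.2), hx.1⟩, fun h => hvc (h ▸ hy.2), hy.1⟩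
  haveI : Nonempty (V × V) := ⟨(v, v)⟩
  choose! φ hφ1 hφ2 using h1
  have h2 : ((a.erase v) ×ˢ (b.erase v)).card = 4 := by
    rw [Finset.card_product, Finset.card_erase_of_mem hv.1, Finset.card_erase_of_mem hv.2,
      hH.1 a hab.ha, hH.1 b hab.hb]
  unfold w
  rw [← h2]
  refine Finset.card_le_card_of_injOn φ (fun c hc => hφ1 c hc) ?_
  intro c hc c' hc' heq
  have h3 := hφ2 c hc
  have h4 := hφ2 c' hc'
  have h5 := hφ1 c hc
  rw [heq] at h3
  rw [Finset.mem_product, Finset.mem_erase, Finset.mem_erase] at h5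
  rw [Finset.mem_coe, Finset.mem_filter] at hc hc'
  -- the two points are different
  have h6 : (φ c).1 ≠ (φ c).2 := by
    intro h6
    have h7 := line_eq hH hab.ha hab.hb h5.1.1 h5.1.2 hv.1 (h6 ▸ h5.2.2) hv.2
    exact hab.ne h7
  rw [heq] at h6
  exact line_eq hH hc.1 hc'.1 h6 h3.1 h3.2 h4.1 h4.2

open Classical in
theorem filter_cl_eq (hH : Lin H) {M : Finset V} (hM : IsCls H M) :
    (cherries H).filter (fun p => cl H (p.1 ∪ p.2) = M) = cher H M := by
  ext p
  rw [Finset.mem_filter, mem_cherries, mem_cher]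
  constructor
  · rintro ⟨h1, h2⟩
    exact ⟨h1, h2 ▸ reach_cl H _⟩
  · intro h
    exact ⟨h.cherry, hM.cl_eq hH h⟩

open Classical in
/-- The cell of a cherry: the cherries of the family of its class. -/
noncomputable def cell (H : Finset (Finset V)) (p : Finset V × Finset V) :
    Finset (Finset V × Finset V) :=
  if g H (cl H (p.1 ∪ p.2)) = 3 then
    (cherries H).filter (fun p' => cl H (p'.1 ∪ p'.2) ∈ fam H (cl H (p.1 ∪ p.2))) else {p}

theorem fam_isCls (hH : Lin H) (hk : KFree H k) (hcl : Clean H k) {M : Finset V}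
    (hM : IsCls H M) {M' : Finset V} (h : M' ∈ fam H M) : IsCls H M' := by
  by_cases hA : ∃ F 𝒮, Adm H F 𝒮 ∧ M ∈ 𝒮
  · obtain ⟨⟨F, hF⟩, h1, h2⟩ := fam_spec hA
    obtain ⟨a, b, hab⟩ := hM.ne
    obtain ⟨U, W, hc⟩ := exists_choice hH (six_le hH hk hab.cherry)
    exact (hF.good hH hk hcl hc).cls M' h
  · have h1 : fam H M = {M} := by unfold fam; rw [dif_neg hA]
    rw [h1, Finset.mem_singleton] at h
    rw [h]; exact hM

/-- The sum over the family of a class. -/
theorem fam_sum (hH : Lin H) (hk : KFree H k) (hcl : Clean H k)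
    {U : Finset V → Finset V} {W : V → Finset V} (hc : Choice H k U W) {M : Finset V}
    (hM : IsCls H M) :
    (∃ M' ∈ fam H M, ∃ a b, Gen H M' a b ∧ Bad U W a b) ∨ 1 ≤ ∑ M' ∈ fam H M, S H M' := by
  by_cases hA : ∃ F 𝒮, Adm H F 𝒮 ∧ M ∈ 𝒮
  · obtain ⟨⟨F, hF⟩, h1, h2⟩ := fam_spec hA
    have hg := hF.good hH hk hcl hc
    rcases hg.alt with h3 | h3
    · right
      have h4 : 3 ≤ ∑ M' ∈ fam H M, S H M' := by
        refine universe_sum hH hg.cls (F := F) ?_ ?_ hg.down ⟨M, h1⟩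
        · intro D hD
          have hD' := hg.cls D hD
          have := cl_subset hH hg.closed (hg.reach D hD).subset
          rwa [← (reach_hull hH hD').eq_cl hH hD'.closed] at this
        · rintro X hXF ⟨D, hD, hDX⟩
          have h5 := ((hg.reach D hD).union_right hDX).g_le hH
          rw [Finset.union_eq_left.2 hXF] at h5
          omega
      omega
    · exact Or.inl h3
  · right
    have h1 : fam H M = {M} := by unfold fam; rw [dif_neg hA]
    rw [h1, Finset.sum_singleton]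
    by_contra h2
    exact hA ⟨M, down H M, Adm.base hM (by omega), self_mem_down M⟩

/-- All cherries of a family lie in one small set. -/
theorem fam_bound (hH : Lin H) (hk : KFree H k) (hcl : Clean H k) {M : Finset V}
    (hM : IsCls H M) : ∃ F : Finset V, F.card < k ∧ ∀ M' ∈ fam H M, ∀ a b, Gen H M' a b →
      a ⊆ F ∧ b ⊆ F := by
  by_cases hA : ∃ F 𝒮, Adm H F 𝒮 ∧ M ∈ 𝒮
  · obtain ⟨⟨F, hF⟩, h1, h2⟩ := fam_spec hA
    obtain ⟨a, b, hab⟩ := hM.ne
    obtain ⟨U, W, hc⟩ := exists_choice hH (six_le hH hk hab.cherry)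
    have hg := hF.good hH hk hcl hc
    refine ⟨F, hg.card, fun M' hM' a b hab => ?_⟩
    have h3 := ((gen_hull_iff hH (hg.cls M' hM')).2 hab).subset
    have h4 := (hg.reach M' hM').subset
    exact ⟨h3.1.trans h4, h3.2.trans h4⟩
  · have h1 : fam H M = {M} := by unfold fam; rw [dif_neg hA]
    refine ⟨M, hM.card_lt hH hk, fun M' hM' a b hab => ?_⟩
    rw [h1, Finset.mem_singleton] at hM'
    rw [hM'] at hab
    exact hab.subset

open Classical in
theorem card_cherries_inside_le (hH : Lin H) {F : Finset V} (hF : F.card < k)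
    {P : Finset (Finset V × Finset V)} (hP : ∀ p ∈ P, Cherry H p.1 p.2 ∧ p.1 ⊆ F ∧ p.2 ⊆ F) :
    P.card ≤ k ^ 4 := by
  have h1 : P ⊆ (H.filter (fun h => h ⊆ F)) ×ˢ (H.filter (fun h => h ⊆ F)) := by
    intro p hp
    obtain ⟨h1, h2, h3⟩ := hP p hp
    rw [Finset.mem_product, Finset.mem_filter, Finset.mem_filter]
    exact ⟨⟨h1.ha, h2⟩, h1.hb, h3⟩
  have h2 := Finset.card_le_card h1
  rw [Finset.card_product] at h2
  have h3 := e_le_sq hH F
  unfold e at h3
  have h4 : F.card ^ 2 ≤ k ^ 2 := Nat.pow_le_pow_left hF.le 2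
  calc P.card ≤ _ := h2
    _ ≤ k ^ 2 * k ^ 2 := Nat.mul_le_mul (h3.trans h4) (h3.trans h4)
    _ = k ^ 4 := by ring

theorem cl_isCls_or (hH : Lin H) {p : Finset V × Finset V} (hp : Cherry H p.1 p.2) :
    IsCls H (cl H (p.1 ∪ p.2)) ∨ g H (cl H (p.1 ∪ p.2)) ≤ 2 := by
  have h1 := ((reach_cl H (p.1 ∪ p.2)).g_le hH).trans (hp.g_le hH)
  by_cases h2 : g H (cl H (p.1 ∪ p.2)) = 3
  · exact Or.inl (isCls_cl hH hp h2)
  · right; omega

open Classical in
theorem sum_cell (hH : Lin H) (hk : KFree H k) (hcl : Clean H k) {p : Finset V × Finset V}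
    (hM : IsCls H (cl H (p.1 ∪ p.2))) :
    ∑ p' ∈ cell H p, (2 - (w H p'.1 p'.2 : ℤ)) = ∑ M' ∈ fam H (cl H (p.1 ∪ p.2)), S H M' := by
  unfold cell
  rw [if_pos hM.g_eq]
  rw [← Finset.sum_fiberwise_of_maps_to (t := fam H (cl H (p.1 ∪ p.2)))
    (g := fun p' : Finset V × Finset V => cl H (p'.1 ∪ p'.2))]
  · refine Finset.sum_congr rfl fun M' hM' => ?_
    unfold S
    refine Finset.sum_congr ?_ fun _ _ => rfl
    rw [← filter_cl_eq hH (fam_isCls hH hk hcl hM hM')]
    ext p'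
    simp only [Finset.mem_filter]
    constructor
    · rintro ⟨⟨h1, -⟩, h2⟩
      exact ⟨h1, h2⟩
    · rintro ⟨h1, h2⟩
      exact ⟨⟨h1, h2 ▸ hM'⟩, h2⟩
  · intro p' hp'
    exact (Finset.mem_filter.1 hp').2

theorem cherries_eq_empty (hH : Lin H) (hk : KFree H k) (h6 : k < 6) : cherries H = ∅ := by
  rw [Finset.eq_empty_iff_forall_notMem]
  intro p hp
  have := six_le hH hk (mem_cherries.1 hp)
  omega

open Classical in
/-- Main inequality: `∑ (2 - w) ≥ c_k #cherries - C_k n²`. -/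
theorem main_two (hH : Lin H) (hk : KFree H k) (hcl : Clean H k) :
    ((cherries H).card : ℤ) ≤ (k : ℤ) ^ 4 * ∑ p ∈ cherries H, (2 - (w H p.1 p.2 : ℤ)) +
      (2 * (k : ℤ) ^ 4 + 1) * ((k : ℤ) ^ 4 * (2 * (k : ℤ) ^ 2 * (Fintype.card V : ℤ) ^ 2)) := by
  by_cases h6 : k < 6
  · rw [cherries_eq_empty hH hk h6]
    simp only [Finset.card_empty, Finset.sum_empty]
    positivity
  push Not at h6
  obtain ⟨U, W, hc⟩ := exists_choice hH h6
  set B := (H ×ˢ H).filter (fun p => Cherry H p.1 p.2 ∧ Bad U W p.1 p.2) with hB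
  have hBc := card_bad_le hH hc
  rw [← hB] at hBc
  have key := cell_lemma (cherries H) B (fun p => (2 - (w H p.1 p.2 : ℤ))) (cell H) (k ^ 4) 2
    (by norm_num) ?_ ?_ ?_ ?_ ?_
  · have h1 : ((B.card : ℕ) : ℤ) ≤ 2 * (k : ℤ) ^ 2 * (Fintype.card V : ℤ) ^ 2 := by
      exact_mod_cast hBc
    have h2 : (2 * ((k ^ 4 : ℕ) : ℤ) + 1) * (((k ^ 4 : ℕ) : ℤ) * (B.card : ℤ)) ≤
        (2 * (k : ℤ) ^ 4 + 1) * ((k : ℤ) ^ 4 * (2 * (k : ℤ) ^ 2 * (Fintype.card V : ℤ) ^ 2)) := by
      push_cast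
      gcongr
    have h3 : ((k ^ 4 : ℕ) : ℤ) = (k : ℤ) ^ 4 := by push_cast; ring
    rw [h3] at key h2
    linarith
  · -- self
    intro p hp
    rw [mem_cherries] at hp
    unfold cell
    split_ifs with h
    · rw [Finset.mem_filter, mem_cherries]
      exact ⟨hp, self_mem_fam _⟩
    · exact Finset.mem_singleton_self p
  · -- partition
    intro p hp p' hp'
    rw [mem_cherries] at hp
    by_cases h : g H (cl H (p.1 ∪ p.2)) = 3
    · have hM := isCls_cl hH hp h
      have hp2 := hp'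
      unfold cell at hp2
      rw [if_pos h, Finset.mem_filter] at hp2
      obtain ⟨h1, h2⟩ := hp2
      refine ⟨h1, ?_⟩
      have h3 := fam_isCls hH hk hcl hM h2
      unfold cell
      rw [if_pos h, if_pos h3.g_eq, fam_eq h2]
    · have hp2 := hp'
      unfold cell at hp2
      rw [if_neg h, Finset.mem_singleton] at hp2
      rw [hp2]
      exact ⟨mem_cherries.2 hp, rfl⟩
  · -- size
    intro p hp
    rw [mem_cherries] at hp
    by_cases h : g H (cl H (p.1 ∪ p.2)) = 3
    · have hM := isCls_cl hH hp h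
      obtain ⟨F, hF, hFM⟩ := fam_bound hH hk hcl hM
      refine card_cherries_inside_le hH hF fun p' hp' => ?_
      unfold cell at hp'
      rw [if_pos h, Finset.mem_filter, mem_cherries] at hp'
      exact ⟨hp'.1, hFM _ hp'.2 _ _ ⟨hp'.1, reach_cl H _⟩⟩
    · unfold cell
      rw [if_neg h, Finset.card_singleton]
      exact Nat.one_le_pow _ _ (by omega)
  · -- lower bound
    intro p hp
    rw [mem_cherries] at hp
    have := w_le_four hH hp
    show (-2 : ℤ) ≤ 2 - (w H p.1 p.2 : ℤ)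
    omega
  · -- good or bad
    intro p hp
    rw [mem_cherries] at hp
    rcases cl_isCls_or hH hp with hM | hM
    · rcases fam_sum hH hk hcl hc hM with ⟨M', hM', a, b, hab, hbad⟩ | h1
      · left
        refine ⟨(a, b), ?_, ?_⟩
        · unfold cell
          rw [if_pos hM.g_eq, Finset.mem_filter, mem_cherries]
          refine ⟨hab.cherry, ?_⟩
          have := (fam_isCls hH hk hcl hM hM').cl_eq hH hab
          show cl H (a ∪ b) ∈ _
          rw [this]; exact hM'
        · rw [hB, Finset.mem_filter, Finset.mem_product]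
          exact ⟨⟨hab.cherry.ha, hab.cherry.hb⟩, hab.cherry, hbad⟩
      · right
        rw [sum_cell hH hk hcl hM]
        exact h1
    · left
      refine ⟨p, ?_, ?_⟩
      · unfold cell
        rw [if_neg (by omega)]
        exact Finset.mem_singleton_self p
      · rw [hB, Finset.mem_filter, Finset.mem_product]
        exact ⟨⟨hp.ha, hp.hb⟩, hp, bad_of_degenerate hH hk hcl hc hp hM⟩

open Classical in
/-- The companion inequality `∑ (3 - 2w + q) ≥ c_k #cherries - C_k n²`. -/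
theorem main_one (hH : Lin H) (hk : KFree H k) (hcl : Clean H k) :
    ((cherries H).card : ℤ) ≤ (k : ℤ) ^ 4 *
        ∑ p ∈ cherries H, (3 - 2 * (w H p.1 p.2 : ℤ) + (q H p.1 p.2 : ℤ)) +
      (5 * (k : ℤ) ^ 4 + 1) * ((k : ℤ) ^ 4 * (2 * (k : ℤ) ^ 2 * (Fintype.card V : ℤ) ^ 2)) := by
  by_cases h6 : k < 6
  · rw [cherries_eq_empty hH hk h6]
    simp only [Finset.card_empty, Finset.sum_empty]
    positivity
  push Not at h6
  obtain ⟨U, W, hc⟩ := exists_choice hH h6
  set B := (H ×ˢ H).filter (fun p => Cherry H p.1 p.2 ∧ Bad U W p.1 p.2) with hB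
  have hBc := card_bad_le hH hc
  rw [← hB] at hBc
  have key := cell_lemma (cherries H) B
    (fun p => (3 - 2 * (w H p.1 p.2 : ℤ) + (q H p.1 p.2 : ℤ)))
    (fun p => if g H (cl H (p.1 ∪ p.2)) = 3 then cher H (cl H (p.1 ∪ p.2)) else {p}) (k ^ 4) 5
    (by norm_num) ?_ ?_ ?_ ?_ ?_
  · have h1 : ((B.card : ℕ) : ℤ) ≤ 2 * (k : ℤ) ^ 2 * (Fintype.card V : ℤ) ^ 2 := by
      exact_mod_cast hBc
    have h2 : (5 * ((k ^ 4 : ℕ) : ℤ) + 1) * (((k ^ 4 : ℕ) : ℤ) * (B.card : ℤ)) ≤
        (5 * (k : ℤ) ^ 4 + 1) * ((k : ℤ) ^ 4 * (2 * (k : ℤ) ^ 2 * (Fintype.card V : ℤ) ^ 2)) := by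
      push_cast
      gcongr
    have h3 : ((k ^ 4 : ℕ) : ℤ) = (k : ℤ) ^ 4 := by push_cast; ring
    rw [h3] at key h2
    linarith
  · -- self
    intro p hp
    rw [mem_cherries] at hp
    show p ∈ if g H (cl H (p.1 ∪ p.2)) = 3 then cher H (cl H (p.1 ∪ p.2)) else {p}
    split_ifs with h
    · rw [mem_cher]
      exact ⟨hp, reach_cl H _⟩
    · exact Finset.mem_singleton_self p
  · -- partition
    intro p hp p' hp'
    rw [mem_cherries] at hp
    by_cases h : g H (cl H (p.1 ∪ p.2)) = 3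
    · have hM := isCls_cl hH hp h
      have hp2 := hp'
      simp only [h, if_true, mem_cher] at hp2
      refine ⟨mem_cherries.2 hp2.cherry, ?_⟩
      have h3 := hM.cl_eq hH hp2
      simp only [h3, h, if_true]
    · have hp2 := hp'
      simp only [h, if_false, Finset.mem_singleton] at hp2
      rw [hp2]
      exact ⟨mem_cherries.2 hp, rfl⟩
  · -- size
    intro p hp
    rw [mem_cherries] at hp
    show (if g H (cl H (p.1 ∪ p.2)) = 3 then cher H (cl H (p.1 ∪ p.2)) else {p}).card ≤ k ^ 4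
    split_ifs with h
    · have hM := isCls_cl hH hp h
      refine card_cherries_inside_le hH (hM.card_lt hH hk) fun p' hp' => ?_
      rw [mem_cher] at hp'
      exact ⟨hp'.cherry, hp'.subset⟩
    · rw [Finset.card_singleton]
      exact Nat.one_le_pow _ _ (by omega)
  · -- lower bound
    intro p hp
    rw [mem_cherries] at hp
    have := w_le_four hH hp
    show (-5 : ℤ) ≤ 3 - 2 * (w H p.1 p.2 : ℤ) + (q H p.1 p.2 : ℤ)
    omega
  · -- good or bad
    intro p hp
    rw [mem_cherries] at hp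
    rcases cl_isCls_or hH hp with hM | hM
    · right
      simp only [hM.g_eq, if_true]
      have := counts_one hH hM
      omega
    · left
      refine ⟨p, ?_, ?_⟩
      · show p ∈ if g H (cl H (p.1 ∪ p.2)) = 3 then cher H (cl H (p.1 ∪ p.2)) else {p}
        rw [if_neg (by omega)]
        exact Finset.mem_singleton_self p
      · rw [hB, Finset.mem_filter, Finset.mem_product]
        exact ⟨⟨hp.ha, hp.hb⟩, hp, bad_of_degenerate hH hk hcl hc hp hM⟩

end Pool.Agent.Lib.MP_c82047_co18
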