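import Pool.Agent.Lib.MP_c82047_co18.Star

/-!
# Block reachability, crossing and merging (section 8)
-/

namespace Pool.Agent.Lib.MP_c82047_co18

open Pool.Agent.Lib.MP_c82047_co97

variable {V : Type*} [DecidableEq V] [Fintype V] {H : Finset (Finset V)} {k : ℕ}

theorem Reach.bReach {A N : Finset V} (h : Reach H A N) : BReach H A N := by
  induction h with
  | refl => exact BReach.refl
  | step _ hh hx hxN hN ih => exact BReach.step ih hh hx hxN hN

theorem BReach.subset {A N : Finset V} (h : BReach H A N) : A ⊆ N := by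
  induction h with
  | refl => exact subset_rfl
  | step _ _ _ _ _ ih => exact ih.trans (Finset.subset_insert _ _)
  | block _ _ _ _ ih => exact ih.trans Finset.subset_union_left

theorem BReach.trans {A B C : Finset V} (h : BReach H A B) (h' : BReach H B C) :
    BReach H A C := by
  induction h' with
  | refl => exact h
  | step _ hh hx hxN hN ih => exact BReach.step ih hh hx hxN hN
  | block _ hM hs hN ih => exact BReach.block ih hM hs hN

theorem BReach.union {A N : Finset V} (h : BReach H A N) (B : Finset V) :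
    BReach H (A ∪ B) (N ∪ B) := by
  induction h with
  | refl => exact BReach.refl
  | @step N h x _ hh hx hxN hN ih =>
    by_cases hxB : x ∈ B
    · have : insert x N ∪ B = N ∪ B := by
        rw [Finset.insert_union, Finset.insert_eq_of_mem (Finset.mem_union_right _ hxB)]
      rwa [this]
    · rw [Finset.insert_union]
      refine BReach.step ih hh hx ?_ (hN.trans Finset.subset_union_left)
      rw [Finset.mem_union]
      tauto
  | @block N M a b c d r s _ hM hs hN ih =>
    have : N ∪ (a ∪ b) ∪ B = N ∪ B ∪ (a ∪ b) := by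
      rw [Finset.union_assoc, Finset.union_comm (a ∪ b) B, ← Finset.union_assoc]
    rw [this]
    exact BReach.block ih hM hs (hN.trans Finset.subset_union_left)

theorem BReach.g_le (hH : Lin H) {A N : Finset V} (h : BReach H A N) : g H N ≤ g H A := by
  induction h with
  | refl => exact le_rfl
  | step _ hh hx hxN hN ih => exact (g_insert_le hH hh hx hxN hN).trans ih
  | block _ hM hs hN ih => exact (hs.g_union_le hH hM hN).trans ih

theorem g_insert_le_succ (x : V) (N : Finset V) : g H (insert x N) ≤ g H N + 1 := by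
  have h1 := g_union_le H N {x}
  have h2 : ({x} \ N : Finset V).card ≤ 1 := by
    refine (Finset.card_le_card Finset.sdiff_subset).trans ?_
    rw [Finset.card_singleton]
  have h3 : ((({x} \ N : Finset V).card : ℕ) : ℤ) ≤ 1 := by exact_mod_cast h2
  rw [Finset.union_comm, ← Finset.insert_eq] at h1
  linarith

/-- Slack: from a small set with `g ≤ 2` no step crosses `k`. -/
theorem slack (hH : Lin H) (hk : KFree H k) {A N : Finset V} (h : BReach H A N)
    (hA : A.card < k) (hg : g H A ≤ 2) : N.card < k := by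
  induction h with
  | refl => exact hA
  | @step N h x hAN hh hx hxN hN ih =>
    have h1 := (BReach.step hAN hh hx hxN hN).g_le hH
    have h2 := hk.card_ne (S := insert x N) (by linarith)
    rw [Finset.card_insert_of_notMem hxN] at h2 ⊢
    omega
  | @block N M a b c d r s hAN hM hs hN ih =>
    obtain ⟨x, hx⟩ := hs.exists_reach hH hN
    have h1 := hAN.g_le hH
    have h2 := g_insert_le_succ (H := H) x N
    have h3 := hk.card_ne (S := insert x N) (by linarith)
    have h4 := Finset.card_insert_le x N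
    exact hx.card_lt hH hk (by omega) (by linarith)

/-- The crossing lemma: a block step cannot cross `k`. -/
theorem nocross (hH : Lin H) (hk : KFree H k) {C a b c d r s : Finset V} (hC : IsCls H C)
    (hL : 6 ≤ (leaves H (hull H C)).card) (hs : Star H C a b c d r s) {X : Finset V}
    (hX : X ∩ (a ∪ b ∪ c ∪ d) = c ∪ d) (hgX : g H X ≤ 3) (hgY : g H (hull H C ∪ X) = 3)
    {W : Finset V} (hW : g H W ≤ g H (W ∩ (hull H C ∪ X)))
    (hWL : Disjoint W (leaves H (hull H C))) (hWk : (W ∪ (hull H C ∪ X)).card < k)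
    {M a' b' c' d' r' s' : Finset V} (hM : IsCls H M) (hs' : Star H M a' b' c' d' r' s')
    (hcd : c' ∪ d' ⊆ X) : (W ∪ (hull H C ∪ X) ∪ (a' ∪ b')).card < k := by
  classical
  by_contra hcon
  push Not at hcon
  have hfull := hull_full hH hC
  set Vc := hull H C with hVc
  set Y := Vc ∪ X with hY
  set Λ := leaves H Vc with hΛ
  have hΛV : Λ ⊆ Vc := Finset.filter_subset _ _
  have h3 : (Λ ∩ X).card ≤ 3 := hs.card_leaves_inter_le hH hC hX hgX hgY.ge
  -- the new points of the block
  set P := (a' ∪ b') \ (W ∪ Y) with hP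
  set A' := a' ∪ b' ∪ c' ∪ d' with hA'
  have hA9 : A'.card = 9 := hs'.card hH hM
  have hcd5 : (c' ∪ d').card = 5 := (hs'.cherry hH).card hH
  have hcdA : c' ∪ d' ⊆ A' := by
    intro x hx
    simp only [hA', Finset.mem_union] at hx ⊢
    tauto
  have hD4 : (A' \ (c' ∪ d')).card = 4 := by
    have := Finset.card_sdiff_add_card_eq_card hcdA
    omega
  have hcdY : c' ∪ d' ⊆ Y := hcd.trans Finset.subset_union_right
  have hcardU : (W ∪ Y ∪ (a' ∪ b')).card = (W ∪ Y).card + P.card := by
    rw [hP, Finset.union_comm (W ∪ Y), ← Finset.card_sdiff_add_card, add_comm]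
  -- leaves outside `X` and outside `A'`
  have hΛ1 : 3 ≤ (Λ \ X).card := by
    have := Finset.card_sdiff_add_card_inter Λ X
    omega
  have hΛ2 : ((Λ \ X) ∩ A').card + P.card ≤ 4 := by
    rw [← hD4, ← Finset.card_union_of_disjoint]
    · refine Finset.card_le_card ?_
      intro x hx
      rw [Finset.mem_union] at hx
      rcases hx with hx | hx
      · rw [Finset.mem_inter, Finset.mem_sdiff] at hx
        rw [Finset.mem_sdiff]
        exact ⟨hx.2, fun h => hx.1.2 (hcd h)⟩
      · rw [hP, Finset.mem_sdiff, Finset.mem_union] at hx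
        rw [Finset.mem_sdiff]
        refine ⟨?_, fun h => hx.2 (Finset.mem_union_right _ (hcdY h))⟩
        simp only [hA', Finset.mem_union]
        tauto
    · rw [Finset.disjoint_left]
      intro x hx hx'
      rw [Finset.mem_inter, Finset.mem_sdiff] at hx
      rw [hP, Finset.mem_sdiff] at hx'
      exact hx'.2 (Finset.mem_union_right _ (Finset.mem_union_left _ (hΛV hx.1.1)))
  have hΛ3 : (W ∪ Y).card + P.card - k ≤ ((Λ \ X) \ A').card := by
    have h1 := Finset.card_sdiff_add_card_inter (Λ \ X) A'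
    rw [hcardU] at hcon
    omega
  obtain ⟨J, hJ, hJc⟩ := Finset.exists_subset_card_eq hΛ3
  have hJΛ : J ⊆ Λ := hJ.trans (Finset.sdiff_subset.trans Finset.sdiff_subset)
  have hJX : Disjoint J X := by
    rw [Finset.disjoint_left]
    intro x hx
    have := hJ hx
    rw [Finset.mem_sdiff, Finset.mem_sdiff] at this
    exact this.1.2
  have hJA : Disjoint J A' := by
    rw [Finset.disjoint_left]
    intro x hx
    have := hJ hx
    rw [Finset.mem_sdiff] at this
    exact this.2
  have hJW : Disjoint W J := hWL.mono_right hJΛ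
  -- the set of size `k`
  have hT : (W ∪ (Y \ J)) ∪ (a' ∪ b') = (W ∪ Y ∪ (a' ∪ b')) \ J := by
    ext x
    have e1 : x ∈ J → x ∉ W := fun h h' => Finset.disjoint_left.1 hJW h' h
    have e2 : x ∈ J → x ∉ a' := fun h h' => Finset.disjoint_left.1 hJA h (by
      simp only [hA', Finset.mem_union]; tauto)
    have e3 : x ∈ J → x ∉ b' := fun h h' => Finset.disjoint_left.1 hJA h (by
      simp only [hA', Finset.mem_union]; tauto)
    simp only [Finset.mem_union, Finset.mem_sdiff]
    tauto
  have hJsub : J ⊆ W ∪ Y ∪ (a' ∪ b') := by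
    intro x hx
    exact Finset.mem_union_left _ (Finset.mem_union_right _
      (Finset.mem_union_left _ (hΛV (hJΛ hx))))
  have hTc : ((W ∪ (Y \ J)) ∪ (a' ∪ b')).card = k := by
    rw [hT, Finset.card_sdiff_of_subset hJsub, hcardU, hJc]
    rw [hcardU] at hcon
    omega
  -- `g` of this set
  have hcdJ : c' ∪ d' ⊆ W ∪ (Y \ J) := by
    intro x hx
    refine Finset.mem_union_right _ (Finset.mem_sdiff.2 ⟨hcdY hx, fun h => ?_⟩)
    exact Finset.disjoint_left.1 hJX h (hcd hx)
  have g1 := hs'.g_union_le hH hM hcdJ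
  have g2 := g_submod H W (Y \ J)
  have e1 : W ∩ (Y \ J) = W ∩ Y := by
    ext x
    have e1 : x ∈ J → x ∉ W := fun h h' => Finset.disjoint_left.1 hJW h' h
    simp only [Finset.mem_inter, Finset.mem_sdiff]
    tauto
  rw [e1] at g2
  have e2 : Y \ J = (Vc \ J) ∪ X := by
    ext x
    have e1 : x ∈ J → x ∉ X := fun h => Finset.disjoint_left.1 hJX h
    simp only [hY, Finset.mem_union, Finset.mem_sdiff]
    tauto
  have g3 := g_submod H (Vc \ J) X
  have e3 : (Vc \ J) ∩ X = Vc ∩ X := by
    ext x
    have e1 : x ∈ J → x ∉ X := fun h => Finset.disjoint_left.1 hJX h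
    simp only [Finset.mem_inter, Finset.mem_sdiff]
    tauto
  rw [← e2, e3] at g3
  have g4 := g_sdiff_leaves_le hH hfull hJΛ
  have hcd5' : (c ∪ d).card = 5 := (hs.cherry hH).card hH
  have g5 : 3 ≤ g H (Vc ∩ X) := by
    refine (hfull.sparse hH).three_le hH Finset.inter_subset_left ?_
    have : c ∪ d ⊆ Vc ∩ X := by
      rw [← hX]
      refine Finset.subset_inter (Finset.inter_subset_right.trans (hs.subset_hull hH hC))
        Finset.inter_subset_left
    have := Finset.card_le_card this
    omega
  exact hk.card_ne (by linarith) hTc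

/-- Following the reachability sequence of `F` from `hull H E` on top of
`W ∪ hull H C ∪ cl H (c ∪ d)` never crosses `k`. -/
theorem transport (hH : Lin H) (hk : KFree H k) {C a b c d r s : Finset V} (hC : IsCls H C)
    (hL : 6 ≤ (leaves H (hull H C)).card) (hs : Star H C a b c d r s) {E F W : Finset V}
    (hE : hull H E ⊆ cl H (c ∪ d)) (hF : Closed H F) (hCF : ¬ hull H C ⊆ F)
    (hW0 : (W ∪ (hull H C ∪ cl H (c ∪ d))).card < k)
    (hWg : g H (W ∪ (hull H C ∪ cl H (c ∪ d))) ≤ 3)
    (hW : ∀ G, BReach H (hull H E) G → G ⊆ F →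
      (W ∪ (hull H C ∪ (cl H (c ∪ d) ∪ G))).card < k →
      g H (W ∪ (hull H C ∪ (cl H (c ∪ d) ∪ G))) = 3 →
      g H (hull H C ∪ (cl H (c ∪ d) ∪ G)) = 3 ∧
      g H W ≤ g H (W ∩ (hull H C ∪ (cl H (c ∪ d) ∪ G))) ∧ Disjoint W (leaves H (hull H C)))
    {G : Finset V} (hG : BReach H (hull H E) G) (hGF : G ⊆ F) :
    (W ∪ (hull H C ∪ (cl H (c ∪ d) ∪ G))).card < k := by
  have hfull := hull_full hH hC
  -- reachability of the union
  have hreach : ∀ {G : Finset V}, BReach H (hull H E) G →
      BReach H (W ∪ (hull H C ∪ cl H (c ∪ d))) (W ∪ (hull H C ∪ (cl H (c ∪ d) ∪ G))) := by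
    intro G hG
    have h1 := hG.union (W ∪ (hull H C ∪ cl H (c ∪ d)))
    have h2 : hull H E ∪ (W ∪ (hull H C ∪ cl H (c ∪ d))) = W ∪ (hull H C ∪ cl H (c ∪ d)) :=
      Finset.union_eq_right.2 (hE.trans (Finset.subset_union_right.trans
        Finset.subset_union_right))
    have h3 : G ∪ (W ∪ (hull H C ∪ cl H (c ∪ d))) = W ∪ (hull H C ∪ (cl H (c ∪ d) ∪ G)) := by
      rw [Finset.union_comm, Finset.union_assoc, Finset.union_assoc]
    rwa [h2, h3] at h1
  induction hG with
  | refl =>
    have : cl H (c ∪ d) ∪ hull H E = cl H (c ∪ d) := Finset.union_eq_left.2 hE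
    rw [this]
    exact hW0
  | @step N h x hN hh hx hxN hhN ih =>
    have hNF : N ⊆ F := (Finset.subset_insert x N).trans hGF
    have h1 := ih hNF
    have h2 := ((hreach hN).g_le hH).trans hWg
    set Y := W ∪ (hull H C ∪ (cl H (c ∪ d) ∪ N)) with hY
    have h3 : W ∪ (hull H C ∪ (cl H (c ∪ d) ∪ insert x N)) = insert x N ∪ Y := by
      ext y
      simp only [hY, Finset.mem_union, Finset.mem_insert]
      tauto
    have h4 : Reach H (N ∪ Y) (insert x N ∪ Y) :=
      (Reach.step Reach.refl hh hx hxN hhN).union Y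
    have h5 : N ∪ Y = Y := by
      refine Finset.union_eq_right.2 ?_
      intro y hy
      simp only [hY, Finset.mem_union]
      tauto
    rw [h5] at h4
    rw [h3]
    exact h4.card_lt hH hk h1 h2
  | @block N M a' b' c' d' r' s' hN hM hs' hcd ih =>
    have hNF : N ⊆ F := Finset.subset_union_left.trans hGF
    have h1 := ih hNF
    have h2 := ((hreach hN).g_le hH).trans hWg
    have h3 : W ∪ (hull H C ∪ (cl H (c ∪ d) ∪ (N ∪ (a' ∪ b')))) =
        W ∪ (hull H C ∪ (cl H (c ∪ d) ∪ N)) ∪ (a' ∪ b') := by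
      ext y
      simp only [Finset.mem_union]
      tauto
    rw [h3]
    by_cases hg2 : g H (W ∪ (hull H C ∪ (cl H (c ∪ d) ∪ N))) ≤ 2
    · refine slack hH hk (BReach.block BReach.refl hM hs' ?_) h1 hg2
      intro y hy
      have := hcd hy
      simp only [Finset.mem_union]
      tauto
    · have hg3 : g H (W ∪ (hull H C ∪ (cl H (c ∪ d) ∪ N))) = 3 := by omega
      obtain ⟨w1, w2, w3⟩ := hW N hN hNF h1 hg3
      have hcls := hs.cl_isCls hH hC
      have hgX : g H (cl H (c ∪ d) ∪ N) ≤ 3 := by
        have h4 := (hN.union (cl H (c ∪ d))).g_le hH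
        rw [Finset.union_eq_right.2 hE, Finset.union_comm N] at h4
        have := hcls.1.g_eq
        linarith
      have hA9 := hs.card hH hC
      have hAV := hs.subset_hull hH hC
      have hg' : 3 ≤ g H (cl H (c ∪ d) ∪ N ∪ (a ∪ b ∪ c ∪ d)) := by
        have h4 := g_submod H (hull H C) (cl H (c ∪ d) ∪ N ∪ (a ∪ b ∪ c ∪ d))
        have h5 : hull H C ∪ (cl H (c ∪ d) ∪ N ∪ (a ∪ b ∪ c ∪ d)) =
            hull H C ∪ (cl H (c ∪ d) ∪ N) := by
          rw [Finset.union_comm (cl H (c ∪ d) ∪ N), ← Finset.union_assoc,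
            Finset.union_eq_left.2 hAV]
        rw [h5, w1] at h4
        have h6 : 3 ≤ g H (hull H C ∩ (cl H (c ∪ d) ∪ N ∪ (a ∪ b ∪ c ∪ d))) := by
          refine (hfull.sparse hH).three_le hH Finset.inter_subset_left ?_
          have h7 : a ∪ b ∪ c ∪ d ⊆ hull H C ∩ (cl H (c ∪ d) ∪ N ∪ (a ∪ b ∪ c ∪ d)) :=
            Finset.subset_inter hAV Finset.subset_union_right
          have := Finset.card_le_card h7
          omega
        have h7 := hfull.g_eq
        linarith
      have hX := hs.sa hH hC (hs.cl_inter hH hC) hF hCF hNF hgX hg'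
      exact nocross hH hk hC hL hs hX hgX w1 w2 w3 h1 hM hs' (hcd.trans Finset.subset_union_right)

open Classical in
/-- The classes reachable from `C` by going to children. -/
noncomputable def down (H : Finset (Finset V)) (C : Finset V) : Finset (Finset V) :=
  Finset.univ.filter (fun E => Relation.ReflTransGen (fun M D => D ∈ kids H M) C E)

theorem mem_down {C E : Finset V} :
    E ∈ down H C ↔ Relation.ReflTransGen (fun M D => D ∈ kids H M) C E := by
  classical
  unfold down
  simp

theorem down_isCls (hH : Lin H) {C E : Finset V} (hC : IsCls H C) (hE : E ∈ down H C) :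
    IsCls H E ∧ E ⊆ C := by
  rw [mem_down] at hE
  induction hE with
  | refl => exact ⟨hC, subset_rfl⟩
  | tail _ hD ih =>
    have := kid_isCls hH ih.1 hD
    exact ⟨this.1, this.2.1.trans ih.2⟩

/-- From the hull of a class in the down-closure of `C` one reaches `C`. -/
theorem down_bReach (hH : Lin H) {C E : Finset V} (hC : IsCls H C) (hE : E ∈ down H C) :
    BReach H (hull H E) C := by
  rw [mem_down] at hE
  induction hE with
  | refl => exact (reach_hull hH hC).bReach
  | @tail M D hM hD ih =>
    have hMcls := (down_isCls hH hC (mem_down.2 hM)).1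
    obtain ⟨a, b, c, d, r, s, hs, rfl⟩ := mem_kids.1 hD
    have hD' := kid_isCls hH hMcls hD
    set D := cl H (c ∪ d) with hDdef
    have h1 : BReach H (hull H D) (D ∪ (a ∪ b)) :=
      BReach.block (reach_hull hH hD'.1).bReach hMcls hs (subset_cl H _)
    have h2 : Reach H (D ∪ (a ∪ b)) M := by
      have h3 := hs.gen.reach.union (D ∪ (a ∪ b))
      have h4 : a ∪ b ∪ (D ∪ (a ∪ b)) = D ∪ (a ∪ b) :=
        Finset.union_eq_right.2 Finset.subset_union_right
      have h5 : M ∪ (D ∪ (a ∪ b)) = M :=
        Finset.union_eq_left.2 (Finset.union_subset hD'.2.1 hs.gen.reach.subset)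
      rwa [h4, h5] at h3
    have h3 : BReach H M C := by
      have h4 := ih.union M
      have h5 : hull H M ∪ M = M := Finset.union_eq_right.2 (hull_subset hH hMcls)
      have h6 : C ∪ M = C :=
        Finset.union_eq_left.2 (down_isCls hH hC (mem_down.2 hM)).2
      rwa [h5, h6] at h4
    exact (h1.trans h2.bReach).trans h3

/-- The merge lemma. -/
theorem merge_card_lt (hH : Lin H) (hk : KFree H k) {C E F : Finset V} (hC : IsCls H C)
    (hS : S H C ≤ 0) (hCk : C.card < k) (hE : E ∈ down H C) (hF : Closed H F) (hFk : F.card < k)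
    (hgF : g H F ≤ 3) (hEF : BReach H (hull H E) F) : (cl H (F ∪ C)).card < k := by
  have hfull := hull_full hH hC
  have hL := six_le_leaves hH hC hS
  have hVC := hull_subset hH hC
  by_cases hCF : hull H C ⊆ F
  · obtain ⟨p, p', hp⟩ := hfull.ne
    have hp' := (gen_hull_iff hH hC).1 hp
    have h1 : C ⊆ F := hC.subset_of_gen hH hp' hF (hp.subset.1.trans hCF) (hp.subset.2.trans hCF)
    rw [Finset.union_eq_left.2 h1]
    exact lt_of_le_of_lt (Finset.card_le_card (cl_subset hH hF subset_rfl)) hFk
  by_cases hg2 : g H F ≤ 2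
  · have h1 := (down_bReach hH hC hE).union F
    rw [Finset.union_eq_right.2 hEF.subset, Finset.union_comm C F] at h1
    exact slack hH hk (h1.trans (reach_cl H (F ∪ C)).bReach) hFk hg2
  have hg3 : g H F = 3 := by omega
  have hEC : C ≠ E := by
    rintro rfl
    exact hCF hEF.subset
  obtain ⟨D, hD, hED⟩ : ∃ D ∈ kids H C, E ∈ down H D := by
    rw [mem_down] at hE
    rcases Relation.ReflTransGen.cases_head hE with h | ⟨D, hD, h⟩
    · exact absurd h hEC
    · exact ⟨D, hD, mem_down.2 h⟩
  obtain ⟨a, b, c, d, r, s, hs, rfl⟩ := mem_kids.1 hD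
  have hDcls := (kid_isCls hH hC hD).1
  have hDC := (kid_isCls hH hC hD).2.1
  have hEE := down_isCls hH hDcls hED
  have hED' : hull H E ⊆ cl H (c ∪ d) := (hull_subset hH hEE.1).trans hEE.2
  have hcdV : c ∪ d ⊆ hull H C := by
    refine Finset.Subset.trans ?_ (hs.subset_hull hH hC)
    intro x hx
    simp only [Finset.mem_union] at hx ⊢
    tauto
  have h0 : Reach H (hull H C) (hull H C ∪ cl H (c ∪ d)) := by
    have h1 := (reach_cl H (c ∪ d)).union (hull H C)
    rwa [Finset.union_eq_right.2 hcdV, Finset.union_comm (cl H (c ∪ d))] at h1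
  have h1 := transport hH hk (W := ∅) hC hL hs hED' hF hCF
    (by
      rw [Finset.empty_union]
      exact lt_of_le_of_lt (Finset.card_le_card (Finset.union_subset hVC hDC)) hCk)
    (by
      rw [Finset.empty_union]
      have := h0.g_le hH
      have := hfull.g_eq
      linarith)
    (by
      intro G _ _ _ h2
      rw [Finset.empty_union] at h2
      refine ⟨h2, ?_, Finset.disjoint_empty_left _⟩
      rw [Finset.empty_inter]) hEF subset_rfl
  rw [Finset.empty_union] at h1
  have h2 : g H (hull H C ∪ (cl H (c ∪ d) ∪ F)) ≤ 3 := by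
    have h3 := (hEF.union (hull H C ∪ cl H (c ∪ d))).g_le hH
    have h4 : hull H E ∪ (hull H C ∪ cl H (c ∪ d)) = hull H C ∪ cl H (c ∪ d) :=
      Finset.union_eq_right.2 (hED'.trans Finset.subset_union_right)
    have h5 : F ∪ (hull H C ∪ cl H (c ∪ d)) = hull H C ∪ (cl H (c ∪ d) ∪ F) := by
      rw [Finset.union_comm, Finset.union_assoc]
    rw [h4, h5] at h3
    have := h0.g_le hH
    have := hfull.g_eq
    linarith
  set X := hull H C ∪ (cl H (c ∪ d) ∪ F) with hX
  have h5 : Reach H X (C ∪ X) := by
    have := (reach_hull hH hC).union X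
    rwa [Finset.union_eq_right.2 (Finset.subset_union_left : hull H C ⊆ X)] at this
  have h4 : F ⊆ X := by
    intro x hx
    simp only [hX, Finset.mem_union]
    tauto
  have h6 : Reach H (C ∪ X) (cl H (F ∪ C) ∪ (C ∪ X)) := by
    have h7 := (reach_cl H (F ∪ C)).union (C ∪ X)
    have h8 : F ∪ C ∪ (C ∪ X) = C ∪ X :=
      Finset.union_eq_right.2 (Finset.union_subset (h4.trans Finset.subset_union_right)
        Finset.subset_union_left)
    rwa [h8] at h7
  exact lt_of_le_of_lt (Finset.card_le_card Finset.subset_union_left)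
    ((h5.trans h6).card_lt hH hk h1 h2)

end Pool.Agent.Lib.MP_c82047_co18
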