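import Pool.Agent.Lib.MP_c82047_co18.Basic

/-!
# Own hulls
-/

namespace Pool.Agent.Lib.MP_c82047_co18

open Pool.Agent.Lib.MP_c82047_co97

section

variable {V : Type*} [DecidableEq V] {H : Finset (Finset V)}

/-- The only triple through a new point when a single step keeps `g`. -/
theorem uniq_of {N h : Finset V} {x : V} (hh : h ∈ H) (hx : x ∈ h) (hxN : x ∉ N)
    (hhN : h.erase x ⊆ N) (hg : g H N ≤ g H (insert x N)) {f : Finset V} (hf : f ∈ H)
    (hfN : f ⊆ insert x N) (hxf : x ∈ f) : f = h := by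
  by_contra hne
  have h0 : insert x N = N ∪ h := by
    ext y
    rw [Finset.mem_insert, Finset.mem_union]
    constructor
    · rintro (rfl | h)
      · exact Or.inr hx
      · exact Or.inl h
    · rintro (h | h')
      · exact Or.inr h
      · by_cases hy : y = x
        · exact Or.inl hy
        · exact Or.inr (hhN (Finset.mem_erase.2 ⟨hy, h'⟩))
  have h1 : e H N + 2 ≤ e H (insert x N) := by
    have h2 : insert f (insert h (H.filter (fun E => E ⊆ N))) ⊆
        H.filter (fun E => E ⊆ insert x N) := by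
      intro t ht
      rw [Finset.mem_insert, Finset.mem_insert] at ht
      rcases ht with rfl | rfl | ht
      · exact Finset.mem_filter.2 ⟨hf, hfN⟩
      · rw [h0]; exact Finset.mem_filter.2 ⟨hh, Finset.subset_union_right⟩
      · rw [Finset.mem_filter] at ht ⊢
        exact ⟨ht.1, ht.2.trans (Finset.subset_insert _ _)⟩
    have h3 := Finset.card_le_card h2
    have h4 : h ∉ H.filter (fun E => E ⊆ N) := fun h4 => hxN ((Finset.mem_filter.1 h4).2 hx)
    have h5 : f ∉ insert h (H.filter (fun E => E ⊆ N)) := by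
      intro h5
      rw [Finset.mem_insert] at h5
      rcases h5 with h5 | h5
      · exact hne h5
      · exact hxN ((Finset.mem_filter.1 h5).2 hxf)
    rw [Finset.card_insert_of_notMem h5, Finset.card_insert_of_notMem h4] at h3
    unfold e
    omega
  have h6 : (insert x N).card = N.card + 1 := Finset.card_insert_of_notMem hxN
  unfold g at hg
  omega

theorem triple_ne (hH : Lin H) {x y z : V} (hm : ({x, y, z} : Finset V) ∈ H) :
    x ≠ y ∧ x ≠ z ∧ y ≠ z := by
  have h3 := hH.1 _ hm
  refine ⟨?_, ?_, ?_⟩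
  · rintro rfl
    have : ({x, x, z} : Finset V).card ≤ 2 := by
      rw [Finset.insert_eq_of_mem (Finset.mem_insert_self x {z})]
      exact Finset.card_le_two
    omega
  · rintro rfl
    have : ({x, y, x} : Finset V).card ≤ 2 := by
      rw [Finset.insert_eq_of_mem (by simp : x ∈ ({y, x} : Finset V))]
      exact Finset.card_le_two
    omega
  · rintro rfl
    have : ({x, y, y} : Finset V).card ≤ 2 := by
      rw [Finset.insert_eq_of_mem (by simp : y ∈ ({y} : Finset V))]
      exact Finset.card_le_two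
    omega

theorem erase_triple (hH : Lin H) {x y z : V} (hm : ({x, y, z} : Finset V) ∈ H) :
    ({x, y, z} : Finset V).erase x = {y, z} := by
  obtain ⟨h1, h2, h3⟩ := triple_ne hH hm
  ext t
  simp only [Finset.mem_erase, Finset.mem_insert, Finset.mem_singleton]
  constructor
  · rintro ⟨h, h' | h' | h'⟩
    · exact absurd h' h
    · exact Or.inl h'
    · exact Or.inr h'
  · rintro (rfl | rfl)
    · exact ⟨h1.symm, Or.inr (Or.inl rfl)⟩
    · exact ⟨h2.symm, Or.inr (Or.inr rfl)⟩

/-- The only triple through a new point `x` when a single step keeps `g = 3`. -/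
theorem uniq_edge (hH : Lin H) {N : Finset V} {x y z : V} (hm : ({x, y, z} : Finset V) ∈ H)
    (hx : x ∉ N) (hy : y ∈ N) (hz : z ∈ N) (hg : g H N ≤ g H (insert x N)) {h : Finset V}
    (hh : h ∈ H) (hhN : h ⊆ insert x N) (hxh : x ∈ h) : h = {x, y, z} := by
  refine uniq_of hm (by simp) hx ?_ hg hh hhN hxh
  rw [erase_triple hH hm]
  intro t ht
  rw [Finset.mem_insert, Finset.mem_singleton] at ht
  rcases ht with rfl | rfl
  · exact hy
  · exact hz

theorem Gen.subset {N a b : Finset V} (h : Gen H N a b) : a ⊆ N ∧ b ⊆ N :=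
  ⟨Finset.subset_union_left.trans h.reach.subset, Finset.subset_union_right.trans h.reach.subset⟩

/-- A single step with an explicit triple. -/
theorem Reach.step' (hH : Lin H) {A N : Finset V} {x y z : V} (h : Reach H A N)
    (hm : ({x, y, z} : Finset V) ∈ H) (hx : x ∉ N) (hy : y ∈ N) (hz : z ∈ N) :
    Reach H A (insert x N) := by
  refine Reach.step h hm (by simp) hx ?_
  rw [erase_triple hH hm]
  intro t ht
  rw [Finset.mem_insert, Finset.mem_singleton] at ht
  rcases ht with rfl | rfl
  · exact hy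
  · exact hz

theorem Gen.insert (hH : Lin H) {N a b : Finset V} {x y z : V} (h : Gen H N a b)
    (hm : ({x, y, z} : Finset V) ∈ H) (hx : x ∉ N) (hy : y ∈ N) (hz : z ∈ N) :
    Gen H (Insert.insert x N) a b := ⟨h.cherry, h.reach.step' hH hm hx hy hz⟩

theorem reach_erase (hH : Lin H) {N : Finset V} {x y z : V} (hm : ({x, y, z} : Finset V) ∈ H)
    (hx : x ∉ N) (hy : y ∈ N) (hz : z ∈ N) (hg : g H N ≤ g H (insert x N)) {A : Finset V}
    (hxA : x ∉ A) {N' : Finset V} (hr : Reach H A N') (hN' : N' ⊆ insert x N) :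
    Reach H A (N'.erase x) ∧ (x ∈ N' → y ∈ N' ∧ z ∈ N') := by
  induction hr with
  | refl =>
    rw [Finset.erase_eq_of_notMem hxA]
    exact ⟨Reach.refl, fun h => absurd h hxA⟩
  | @step N'' f t hr h1 h2 h3 h4 ih =>
    obtain ⟨ih1, ih2⟩ := ih ((Finset.subset_insert _ _).trans hN')
    have hfN : f ⊆ insert x N := by
      intro u hu
      by_cases hut : u = t
      · exact hN' (hut ▸ Finset.mem_insert_self _ _)
      · exact hN' (Finset.mem_insert_of_mem (h4 (Finset.mem_erase.2 ⟨hut, hu⟩)))
    by_cases htx : t = x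
    · subst htx
      have hf := uniq_edge hH hm hx hy hz hg h1 hfN h2
      rw [Finset.erase_insert h3]
      rw [Finset.erase_eq_of_notMem h3] at ih1
      refine ⟨ih1, fun _ => ?_⟩
      rw [hf, erase_triple hH hm] at h4
      exact ⟨Finset.mem_insert_of_mem (h4 (by simp)), Finset.mem_insert_of_mem (h4 (by simp))⟩
    · have hxf : x ∉ f := by
        intro hxf
        have hf := uniq_edge hH hm hx hy hz hg h1 hfN hxf
        have hxN' : x ∈ N'' := h4 (Finset.mem_erase.2 ⟨fun h => htx h.symm, hxf⟩)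
        obtain ⟨h5, h6⟩ := ih2 hxN'
        rw [hf] at h2
        simp only [Finset.mem_insert, Finset.mem_singleton] at h2
        rcases h2 with h2 | h2 | h2
        · exact htx h2
        · exact h3 (h2 ▸ h5)
        · exact h3 (h2 ▸ h6)
      have h5 : (insert t N'').erase x = insert t (N''.erase x) := by
        rw [Finset.erase_insert_of_ne htx]
      rw [h5]
      refine ⟨Reach.step ih1 h1 h2 (fun h => h3 (Finset.mem_of_mem_erase h)) ?_, ?_⟩
      · intro u hu
        refine Finset.mem_erase.2 ⟨?_, h4 hu⟩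
        rintro rfl
        exact hxf (Finset.mem_of_mem_erase hu)
      · intro hx'
        rw [Finset.mem_insert] at hx'
        rcases hx' with hx' | hx'
        · exact absurd hx'.symm htx
        · exact ⟨Finset.mem_insert_of_mem (ih2 hx').1, Finset.mem_insert_of_mem (ih2 hx').2⟩

theorem gen_old (hH : Lin H) {N : Finset V} {x y z : V} (hm : ({x, y, z} : Finset V) ∈ H)
    (hx : x ∉ N) (hy : y ∈ N) (hz : z ∈ N) (hg : g H N ≤ g H (insert x N)) {a b : Finset V}
    (hxa : x ∉ a) (hxb : x ∉ b) : Gen H (insert x N) a b ↔ Gen H N a b := by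
  constructor
  · intro h
    refine ⟨h.cherry, ?_⟩
    have h1 := (reach_erase hH hm hx hy hz hg (A := a ∪ b) (by
      rw [Finset.mem_union]; tauto) h.reach subset_rfl).1
    rwa [Finset.erase_insert hx] at h1
  · intro h
    exact h.insert hH hm hx hy hz

theorem gen_new_of (hH : Lin H) {N : Finset V} {x y z : V} (hm : ({x, y, z} : Finset V) ∈ H)
    (hx : x ∉ N) {f f' : Finset V} (hf : Gen H N f f') (hyf : y ∈ f) (hzf : z ∈ f') :
    Gen H (insert x N) {x, y, z} f := by
  obtain ⟨hfN, hf'N⟩ := hf.subset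
  obtain ⟨h1, h2, h3⟩ := triple_ne hH hm
  have hne : ({x, y, z} : Finset V) ≠ f := by
    rintro rfl
    exact hx (hfN (by simp))
  have hzf' : z ∉ f := by
    intro hz
    exact hne (line_eq hH hm hf.cherry.ha h3 (by simp) (by simp) hyf hz)
  obtain ⟨p, hp⟩ := hf.cherry.meet
  rw [Finset.mem_inter] at hp
  have hpz : p ≠ z := fun h => hzf' (h ▸ hp.1)
  refine ⟨⟨hm, hf.cherry.ha, hne, ⟨y, by simp [hyf]⟩⟩, ?_⟩
  have h4 : 2 ≤ (f' ∩ ({x, y, z} ∪ f)).card :=
    Finset.one_lt_card.2 ⟨p, by simp [hp.1, hp.2], z, by simp [hzf], hpz⟩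
  have h5 := reach_edge hH hf.cherry.hb h4
  have h6 := hf.reach.union ({x, y, z} : Finset V)
  have h7 : ({x, y, z} ∪ f ∪ f' : Finset V) = f ∪ f' ∪ {x, y, z} := by
    ext t; simp only [Finset.mem_union]; tauto
  have h8 : N ∪ {x, y, z} = insert x N := by
    ext t
    simp only [Finset.mem_union, Finset.mem_insert, Finset.mem_singleton]
    constructor
    · rintro (h | rfl | rfl | rfl)
      · exact Or.inr h
      · exact Or.inl rfl
      · exact Or.inr (hfN hyf)
      · exact Or.inr (hf'N hzf)
    · rintro (rfl | h)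
      · exact Or.inr (Or.inl rfl)
      · exact Or.inl h
  rw [h7] at h5
  rw [h8] at h6
  exact h5.trans h6

theorem Reach.first {A N : Finset V} (h : Reach H A N) (hne : A ≠ N) :
    ∃ t f, f ∈ H ∧ t ∈ f ∧ t ∉ A ∧ f.erase t ⊆ A ∧ Reach H (insert t A) N := by
  induction h with
  | refl => exact absurd rfl hne
  | @step N' f t hr h1 h2 h3 h4 ih =>
    by_cases hA : A = N'
    · subst hA
      exact ⟨t, f, h1, h2, h3, h4, Reach.refl⟩
    · obtain ⟨t', f', g1, g2, g3, g4, g5⟩ := ih hA
      exact ⟨t', f', g1, g2, g3, g4, Reach.step g5 h1 h2 h3 h4⟩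

theorem gen_new (hH : Lin H) {N : Finset V} {x y z : V} (hm : ({x, y, z} : Finset V) ∈ H)
    (hx : x ∉ N) (hy : y ∈ N) (hz : z ∈ N) (hg : g H N ≤ g H (insert x N)) {f : Finset V}
    (hf : Gen H (insert x N) {x, y, z} f) (hyf : y ∈ f) (h6 : 5 ≤ N.card) :
    ∃ f', z ∈ f' ∧ Gen H N f f' := by
  obtain ⟨h1, h2, h3⟩ := triple_ne hH hm
  have hfH := hf.cherry.hb
  have hxf : x ∉ f := by
    intro hxf
    exact hf.cherry.ne (uniq_edge hH hm hx hy hz hg hfH hf.subset.2 hxf).symm
  have hfN : f ⊆ N := fun t ht => by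
    rcases Finset.mem_insert.1 (hf.subset.2 ht) with h | h
    · exact absurd (h ▸ ht) hxf
    · exact h
  have hzf : z ∉ f := by
    intro hz'
    have := line_eq hH hm hfH h3 (by simp) (by simp) hyf hz'
    exact hxf (this ▸ (by simp))
  have hne : ({x, y, z} : Finset V) ∪ f ≠ insert x N := by
    intro h
    have h7 := hf.cherry.card hH
    rw [h, Finset.card_insert_of_notMem hx] at h7
    omega
  obtain ⟨t, f', g1, g2, g3, g4, g5⟩ := hf.reach.first hne
  have hf'N : f' ⊆ insert x N := by
    intro u hu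
    by_cases hut : u = t
    · exact hut ▸ (g5.subset (Finset.mem_insert_self _ _))
    · exact hf.reach.subset (g4 (Finset.mem_erase.2 ⟨hut, hu⟩))
  rw [Finset.mem_union] at g3
  push Not at g3
  have hxf' : x ∉ f' := by
    intro hxf'
    have := uniq_edge hH hm hx hy hz hg g1 hf'N hxf'
    exact g3.1 (this ▸ g2)
  have hin : ∀ u ∈ f'.erase t, u ∈ f ∨ u = z := by
    intro u hu
    have h7 := g4 hu
    simp only [Finset.mem_union, Finset.mem_insert, Finset.mem_singleton] at h7
    rcases h7 with (rfl | rfl | rfl) | h7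
    · exact absurd (Finset.mem_of_mem_erase hu) hxf'
    · exact Or.inl hyf
    · exact Or.inr rfl
    · exact Or.inl h7
  have hc2 : (f'.erase t).card = 2 := by rw [Finset.card_erase_of_mem g2, hH.1 f' g1]
  obtain ⟨u, v, huv, huv'⟩ := Finset.card_eq_two.1 hc2
  have hu : u ∈ f'.erase t := by rw [huv']; simp
  have hv : v ∈ f'.erase t := by rw [huv']; simp
  have hu' := Finset.mem_of_mem_erase hu
  have hv' := Finset.mem_of_mem_erase hv
  have hff' : f ≠ f' := fun h => g3.2 (h ▸ g2)
  have key : ∃ p, p ∈ f ∧ p ∈ f' ∧ z ∈ f' := by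
    rcases hin u hu with h7 | h7
    · rcases hin v hv with h8 | h8
      · exact absurd (line_eq hH hfH g1 huv h7 h8 hu' hv') hff'
      · exact ⟨u, h7, hu', h8 ▸ hv'⟩
    · rcases hin v hv with h8 | h8
      · exact ⟨v, h8, hv', h7 ▸ hu'⟩
      · exact absurd (h7.trans h8.symm) huv
  obtain ⟨p, hpf, hpf', hzf'⟩ := key
  have hch : Cherry H f f' := ⟨hfH, g1, hff', ⟨p, Finset.mem_inter.2 ⟨hpf, hpf'⟩⟩⟩
  refine ⟨f', hzf', ?_⟩
  refine (gen_old hH hm hx hy hz hg hxf hxf').1 ⟨hch, ?_⟩
  have h8 : Reach H (f ∪ f') (insert x (f ∪ f')) := by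
    refine Reach.refl.step' hH hm ?_ ?_ ?_
    · rw [Finset.mem_union]; tauto
    · rw [Finset.mem_union]; tauto
    · rw [Finset.mem_union]; tauto
  refine h8.trans (g5.mono ?_ ?_)
  · intro s hs
    simp only [Finset.mem_union, Finset.mem_insert, Finset.mem_singleton] at hs ⊢
    rcases hs with rfl | (rfl | rfl | rfl) | hs
    · exact Or.inr (Or.inr g2)
    · exact Or.inl rfl
    · exact Or.inr (Or.inl hyf)
    · exact Or.inr (Or.inr hzf')
    · exact Or.inr (Or.inl hs)
  · refine Finset.insert_subset (Finset.mem_insert_self _ _) (Finset.union_subset hf.subset.2 hf'N)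

theorem Full.sparse (hH : Lin H) {N : Finset V} (hN : Full H N) : Sparse H N := by
  obtain ⟨a, b, hab⟩ := hN.ne
  exact hab.sparse hH hN.g_eq

theorem Gen.five_le (hH : Lin H) {N a b : Finset V} (h : Gen H N a b) : 5 ≤ N.card := by
  have := Finset.card_le_card h.reach.subset
  rwa [h.cherry.card hH] at this

theorem Full.five_le (hH : Lin H) {N : Finset V} (hN : Full H N) : 5 ≤ N.card := by
  obtain ⟨a, b, hab⟩ := hN.ne
  exact hab.five_le hH

theorem OwnStep.ne (hH : Lin H) {N : Finset V} {x y z : V} (h : OwnStep H N x y z) :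
    x ≠ y ∧ x ≠ z ∧ y ≠ z := triple_ne hH h.mem

/-- `y` and `z` are the other two points of the new triple; no triple of `N` contains both. -/
theorem OwnStep.not_adj (hH : Lin H) {N : Finset V} {x y z : V} (h : OwnStep H N x y z)
    {f : Finset V} (hf : f ∈ H) (hfN : f ⊆ N) (hy : y ∈ f) (hz : z ∈ f) : False := by
  have h1 := line_eq hH h.mem hf (h.ne hH).2.2 (by simp) (by simp) hy hz
  exact h.hx (hfN (h1 ▸ (by simp)))

theorem OwnStep.symm {N : Finset V} {x y z : V} (h : OwnStep H N x y z) : OwnStep H N x z y := by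
  obtain ⟨f, f', hf, hy, hz⟩ := h.own
  refine ⟨?_, h.hx, h.hz, h.hy, f', f, hf.symm, hz, hy⟩
  have := h.mem
  rwa [Finset.pair_comm y z] at this

theorem Full.insert_own (hH : Lin H) {N : Finset V} {x y z : V} (hN : Full H N)
    (h : OwnStep H N x y z) (hg : g H (insert x N) = 3) : Full H (insert x N) := by
  obtain ⟨f, f', hf, hy, hz⟩ := h.own
  refine ⟨hg, ⟨f, f', hf.insert hH h.mem h.hx h.hy h.hz⟩, ?_⟩
  intro t ht
  rcases Finset.mem_insert.1 ht with rfl | ht
  · exact ⟨{t, y, z}, f, gen_new_of hH h.mem h.hx hf hy hz, by simp⟩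
  · obtain ⟨a, b, hab, hta⟩ := hN.cov t ht
    exact ⟨a, b, hab.insert hH h.mem h.hx h.hy h.hz, hta⟩

/-- Sets built by own steps from a cherry. -/
inductive OwnFrom (H : Finset (Finset V)) (a b : Finset V) : Finset V → Prop
  | base : OwnFrom H a b (a ∪ b)
  | step {N : Finset V} {x y z : V} : OwnFrom H a b N → OwnStep H N x y z →
      OwnFrom H a b (insert x N)

theorem OwnFrom.reach (hH : Lin H) {a b N : Finset V} (h : OwnFrom H a b N) :
    Reach H (a ∪ b) N := by
  induction h with
  | base => exact Reach.refl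
  | step _ h1 ih => exact ih.step' hH h1.mem h1.hx h1.hy h1.hz

theorem OwnFrom.full (hH : Lin H) {a b N : Finset V} (hab : Cherry H a b)
    (h : OwnFrom H a b N) (hg : g H N = 3) : Full H N := by
  induction h with
  | base =>
    refine ⟨hg, ⟨a, b, hab, Reach.refl⟩, fun x hx => ?_⟩
    rcases Finset.mem_union.1 hx with hx | hx
    · exact ⟨a, b, ⟨hab, Reach.refl⟩, hx⟩
    · exact ⟨b, a, ⟨hab.symm, by rw [Finset.union_comm]; exact Reach.refl⟩, hx⟩
  | @step N x y z h0 h1 ih =>
    have h2 := (h0.reach hH).g_le hH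
    have h3 := hab.g_le hH
    have h4 := (Reach.refl.step' hH h1.mem h1.hx h1.hy h1.hz).g_le hH
    exact (ih (by omega)).insert_own hH h1 hg

/-- Every tight set generated by a cherry has an own part with the same generating cherries. -/
theorem exists_own (hH : Lin H) {M a b : Finset V} (hab : Gen H M a b) (hg : g H M = 3) :
    ∃ N, OwnFrom H a b N ∧ N ⊆ M ∧ Reach H N M ∧ ∀ c d, Gen H M c d ↔ Gen H N c d := by
  classical
  obtain ⟨N, hN, hmax⟩ := Finset.exists_max_image
    (M.powerset.filter (fun N => OwnFrom H a b N)) Finset.card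
    ⟨a ∪ b, by simp [OwnFrom.base, hab.reach.subset]⟩
  rw [Finset.mem_filter, Finset.mem_powerset] at hN
  have hNM : Reach H N M := hab.reach.mono (hN.2.reach hH).subset hN.1
  refine ⟨N, hN.2, hN.1, hNM, ?_⟩
  have hmax' : ∀ x y z, OwnStep H N x y z → x ∈ M → False := by
    intro x y z hs hx
    have := hmax (insert x N) (by
      rw [Finset.mem_filter, Finset.mem_powerset]
      exact ⟨Finset.insert_subset hx hN.1, OwnFrom.step hN.2 hs⟩)
    rw [Finset.card_insert_of_notMem hs.hx] at this
    omega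
  have hgN : g H N ≤ 3 := ((hN.2.reach hH).g_le hH).trans (hab.cherry.g_le hH)
  have h5 : 5 ≤ N.card := by
    have := Finset.card_le_card (hN.2.reach hH).subset
    rwa [hab.cherry.card hH] at this
  -- along every set between `N` and `M`
  have key : ∀ M', Reach H N M' → M' ⊆ M → 3 ≤ g H M' →
      ∀ c d, Gen H M' c d ↔ Gen H N c d := by
    intro M' hr
    induction hr with
    | refl => intro _ _ c d; exact Iff.rfl
    | @step N' f t hr h1 h2 h3 h4 ih =>
      intro hsub hg3 c d
      have hN'M : N' ⊆ M := (Finset.subset_insert _ _).trans hsub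
      have htM : t ∈ M := hsub (Finset.mem_insert_self _ _)
      have g1 := g_insert_le hH h1 h2 h3 h4
      have g2 := (hr.g_le hH).trans hgN
      have ih' := ih hN'M (by omega)
      have hgg : g H N' ≤ g H (insert t N') := by omega
      -- the new triple
      have hc2 : (f.erase t).card = 2 := by rw [Finset.card_erase_of_mem h2, hH.1 f h1]
      obtain ⟨u, v, huv, huv'⟩ := Finset.card_eq_two.1 hc2
      have hf : f = {t, u, v} := by rw [← Finset.insert_erase h2, huv']
      subst hf
      have hu : u ∈ N' := h4 (by rw [huv']; simp)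
      have hv : v ∈ N' := h4 (by rw [huv']; simp)
      have htN : t ∉ N := fun h => h3 (hr.subset h)
      -- no generating cherry uses the new triple
      have hno : ∀ c', Gen H (insert t N') {t, u, v} c' → False := by
        intro c' hc'
        have hc'H := hc'.cherry.hb
        have htc' : t ∉ c' := fun h =>
          hc'.cherry.ne (uniq_edge hH h1 h3 hu hv hgg hc'H hc'.subset.2 h).symm
        obtain ⟨p, hp⟩ := hc'.cherry.meet
        rw [Finset.mem_inter] at hp
        have hp1 := hp.1
        simp only [Finset.mem_insert, Finset.mem_singleton] at hp1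
        have h5' : 5 ≤ N'.card := h5.trans (Finset.card_le_card hr.subset)
        rcases hp1 with rfl | rfl | rfl
        · exact htc' hp.2
        · obtain ⟨f', hvf', hgen⟩ := gen_new hH h1 h3 hu hv hgg hc' hp.2 h5'
          have hgen' := (ih' _ _).1 hgen
          exact hmax' t p v ⟨h1, htN, hgen'.subset.1 hp.2, hgen'.subset.2 hvf', c', f', hgen',
            hp.2, hvf'⟩ htM
        · have h1' : ({t, p, u} : Finset V) ∈ H := by rwa [Finset.pair_comm u p] at h1
          have hc'' : Gen H (insert t N') {t, p, u} c' := by rwa [Finset.pair_comm u p] at hc'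
          obtain ⟨f', hvf', hgen⟩ := gen_new hH h1' h3 hv hu hgg hc'' hp.2 h5'
          have hgen' := (ih' _ _).1 hgen
          exact hmax' t p u ⟨h1', htN, hgen'.subset.1 hp.2, hgen'.subset.2 hvf', c', f', hgen',
            hp.2, hvf'⟩ htM
      by_cases htc : t ∈ c
      · constructor
        · intro h
          have := uniq_edge hH h1 h3 hu hv hgg h.cherry.ha h.subset.1 htc
          exact (hno d (this ▸ h)).elim
        · intro h
          exact absurd (h.subset.1 htc) htN
      · by_cases htd : t ∈ d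
        · constructor
          · intro h
            have := uniq_edge hH h1 h3 hu hv hgg h.cherry.hb h.subset.2 htd
            exact (hno c (this ▸ h.symm)).elim
          · intro h
            exact absurd (h.subset.2 htd) htN
        · rw [gen_old hH h1 h3 hu hv hgg htc htd]
          exact ih' c d
  exact key M hNM subset_rfl hg.ge

theorem Full.ownFrom (hH : Lin H) {N a b : Finset V} (hN : Full H N) (hab : Gen H N a b) :
    OwnFrom H a b N := by
  obtain ⟨N', h1, h2, h3, h4⟩ := exists_own hH hab hN.g_eq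
  have : N = N' := by
    refine Finset.Subset.antisymm (fun x hx => ?_) h2
    obtain ⟨c, d, hcd, hxc⟩ := hN.cov x hx
    exact ((h4 c d).1 hcd).subset.1 hxc
  rw [this]; exact h1

/-- Induction principle for own hulls, from any generating cherry. -/
theorem Full.induction (hH : Lin H) {N a b : Finset V} (hN : Full H N) (hab : Gen H N a b)
    {motive : Finset V → Prop} (base : Full H (a ∪ b) → motive (a ∪ b))
    (step : ∀ (N' : Finset V) (x y z : V), Full H N' → Gen H N' a b → OwnStep H N' x y z →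
      Full H (insert x N') → motive N' → motive (insert x N')) : motive N := by
  have key : ∀ N', OwnFrom H a b N' → g H N' = 3 → motive N' := by
    intro N' h
    induction h with
    | base => intro hg; exact base (OwnFrom.base.full hH hab.cherry hg)
    | @step N' x y z h0 h1 ih =>
      intro hg
      have h2 := (h0.reach hH).g_le hH
      have h3 := hab.cherry.g_le hH
      have h4 := (Reach.refl.step' hH h1.mem h1.hx h1.hy h1.hz).g_le hH
      have hg' : g H N' = 3 := by omega
      exact step N' x y z (h0.full hH hab.cherry hg') ⟨hab.cherry, h0.reach hH⟩ h1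
        ((OwnFrom.step h0 h1).full hH hab.cherry hg) (ih hg')
  exact key N (hN.ownFrom hH hab) hN.g_eq

/-- The triples inside a tight cherry. -/
theorem Cherry.eq_or_eq (hH : Lin H) {a b : Finset V} (h : Cherry H a b)
    (hg : g H (a ∪ b) = 3) {f : Finset V} (hf : f ∈ H) (hfab : f ⊆ a ∪ b) : f = a ∨ f = b := by
  have he : e H (a ∪ b) = 2 := by
    have h5 := h.card hH
    unfold g at hg
    omega
  by_contra hcon
  push Not at hcon
  have h2 : insert f (insert a {b}) ⊆ H.filter (fun E => E ⊆ a ∪ b) := by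
    intro t ht
    rw [Finset.mem_insert, Finset.mem_insert, Finset.mem_singleton] at ht
    rcases ht with rfl | rfl | rfl
    · exact Finset.mem_filter.2 ⟨hf, hfab⟩
    · exact Finset.mem_filter.2 ⟨h.ha, Finset.subset_union_left⟩
    · exact Finset.mem_filter.2 ⟨h.hb, Finset.subset_union_right⟩
  have h3 := Finset.card_le_card h2
  have h4 : a ∉ ({b} : Finset (Finset V)) := by
    rw [Finset.mem_singleton]; exact h.ne
  have h5 : f ∉ (insert a {b} : Finset (Finset V)) := by
    rw [Finset.mem_insert, Finset.mem_singleton]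
    push Not
    exact hcon
  rw [Finset.card_insert_of_notMem h5, Finset.card_insert_of_notMem h4,
    Finset.card_singleton] at h3
  unfold e at he
  omega

theorem OwnStep.g_le {N : Finset V} {x y z : V} (_ : OwnStep H N x y z) (hN : Full H N)
    (hN' : Full H (insert x N)) : g H N ≤ g H (insert x N) := by
  rw [hN.g_eq, hN'.g_eq]

/-- Every triple inside an own hull lies in a generating cherry. -/
theorem Full.edge (hH : Lin H) {N h : Finset V} (hN : Full H N) (hh : h ∈ H) (hhN : h ⊆ N) :
    ∃ f, Gen H N h f := by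
  obtain ⟨a, b, hab⟩ := hN.ne
  revert h
  refine hN.induction hH hab (motive := fun N => ∀ {h : Finset V}, h ∈ H → h ⊆ N →
    ∃ f, Gen H N h f) ?_ ?_
  · intro hF h hh hhN
    rcases hab.cherry.eq_or_eq hH hF.g_eq hh hhN with rfl | rfl
    · exact ⟨b, hab.cherry, Reach.refl⟩
    · exact ⟨a, hab.cherry.symm, by rw [Finset.union_comm]; exact Reach.refl⟩
  · intro N' x y z hF _ hs hF' ih h hh hhN
    by_cases hxh : x ∈ h
    · have := uniq_edge hH hs.mem hs.hx hs.hy hs.hz (hs.g_le hF hF') hh hhN hxh
      subst this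
      obtain ⟨f, f', hf, hy, hz⟩ := hs.own
      exact ⟨f, gen_new_of hH hs.mem hs.hx hf hy hz⟩
    · have hhN' : h ⊆ N' := fun t ht => by
        rcases Finset.mem_insert.1 (hhN ht) with h' | h'
        · exact absurd (h' ▸ ht) hxh
        · exact h'
      obtain ⟨f, hf⟩ := ih hh hhN'
      exact ⟨f, hf.insert hH hs.mem hs.hx hs.hy hs.hz⟩

theorem Wheel.swap₁₂ {a b c r : Finset V} (h : Wheel H a b c r) : Wheel H b a c r := by
  obtain ⟨v, h1, h2, h3, h4⟩ := h.hub
  exact ⟨h.hb, h.ha, h.hc, h.hr, h.ab.symm, h.bc, h.ac, ⟨v, h2, h1, h3, h4⟩, h.rb, h.ra, h.rc⟩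

theorem Wheel.swap₂₃ {a b c r : Finset V} (h : Wheel H a b c r) : Wheel H a c b r := by
  obtain ⟨v, h1, h2, h3, h4⟩ := h.hub
  exact ⟨h.ha, h.hc, h.hb, h.hr, h.ac, h.ab, h.bc.symm, ⟨v, h1, h3, h2, h4⟩, h.ra, h.rc, h.rb⟩

theorem Wheel.loose (hH : Lin H) {a b c r : Finset V} (h : Wheel H a b c r) : Loose a b r := by
  obtain ⟨v, h1, h2, h3, h4⟩ := h.hub
  refine ⟨h.ab, fun h' => h4 (h' ▸ h1), fun h' => h4 (h' ▸ h2),
    ⟨v, Finset.mem_inter.2 ⟨h1, h2⟩⟩, by rw [Finset.inter_comm]; exact h.ra,
    by rw [Finset.inter_comm]; exact h.rb, ?_⟩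
  rw [Finset.eq_empty_iff_forall_notMem]
  intro t ht
  rw [Finset.mem_inter, Finset.mem_inter] at ht
  have htv : t ≠ v := fun h' => h4 (h' ▸ ht.2)
  exact h.ab (line_eq hH h.ha h.hb htv ht.1.1 h1 ht.1.2 h2)

end

section

variable {V : Type*} [DecidableEq V] [Fintype V] {H : Finset (Finset V)}

omit [Fintype V] in
theorem mem_cher {M : Finset V} {p : Finset V × Finset V} :
    p ∈ cher H M ↔ Gen H M p.1 p.2 := by
  classical
  unfold cher
  rw [Finset.mem_filter, Finset.mem_product]
  exact ⟨fun h => h.2, fun h => ⟨⟨h.cherry.ha, h.cherry.hb⟩, h⟩⟩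

theorem exists_hull (hH : Lin H) {M : Finset V} (hM : IsCls H M) :
    Full H (hull H M) ∧ hull H M ⊆ M ∧ Reach H (hull H M) M ∧
      ∀ c d, Gen H M c d ↔ Gen H (hull H M) c d := by
  obtain ⟨a, b, hab⟩ := hM.ne
  obtain ⟨N, h1, h2, h3, h4⟩ := exists_own hH hab hM.g_eq
  have hgN : g H N = 3 := by
    have g1 := (h1.reach hH).g_le hH
    have g2 := hab.cherry.g_le hH
    have g3 := h3.g_le hH
    have g4 := hM.g_eq
    omega
  have hfull := h1.full hH hab.cherry hgN
  have : hull H M = N := by
    ext x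
    unfold hull
    rw [Finset.mem_biUnion]
    constructor
    · rintro ⟨p, hp, hx⟩
      rw [mem_cher] at hp
      exact ((h4 _ _).1 hp).subset.1 hx
    · intro hx
      obtain ⟨c, d, hcd, hxc⟩ := hfull.cov x hx
      exact ⟨(c, d), mem_cher.2 ((h4 c d).2 hcd), hxc⟩
  rw [this]
  exact ⟨hfull, h2, h3, h4⟩

theorem hull_full (hH : Lin H) {M : Finset V} (hM : IsCls H M) : Full H (hull H M) :=
  (exists_hull hH hM).1

theorem gen_hull_iff (hH : Lin H) {M : Finset V} (hM : IsCls H M) {a b : Finset V} :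
    Gen H (hull H M) a b ↔ Gen H M a b := ((exists_hull hH hM).2.2.2 a b).symm

theorem hull_subset (hH : Lin H) {M : Finset V} (hM : IsCls H M) : hull H M ⊆ M :=
  (exists_hull hH hM).2.1

theorem reach_hull (hH : Lin H) {M : Finset V} (hM : IsCls H M) : Reach H (hull H M) M :=
  (exists_hull hH hM).2.2.1

/-- A closed set containing the two triples of a cherry of the class contains the class. -/
theorem IsCls.subset_of_gen (hH : Lin H) {M F a b : Finset V} (hM : IsCls H M)
    (hab : Gen H M a b) (hF : Closed H F) (ha : a ⊆ F) (hb : b ⊆ F) : M ⊆ F := by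
  rw [← hM.cl_eq hH hab]
  exact cl_subset hH hF (Finset.union_subset ha hb)

/-- `w` for generating cherries of a class counts triples inside the own hull. -/
theorem loose_subset_hull (hH : Lin H) {M a b c : Finset V} (hM : IsCls H M) (hab : Gen H M a b)
    (hc : c ∈ H) (hL : Loose a b c) : c ⊆ hull H M ∧ Gen H M a c ∧ Gen H M b c := by
  have h1 : c ⊆ M := by
    refine hM.closed c hc (hL.two_le.trans (Finset.card_le_card ?_))
    exact Finset.inter_subset_inter_left (Finset.union_subset hab.subset.1 hab.subset.2)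
  have h2 := hab.loose hH hc hL h1
  have h3 := hab.symm.loose hH hc hL.swap₁₂ h1
  exact ⟨((gen_hull_iff hH hM).2 h2).subset.2, h2, h3⟩

/-- The cherries of a wheel having one pair of spokes in the class are in the class. -/
theorem wheel_gen (hH : Lin H) {M a b c r : Finset V} (hM : IsCls H M) (hab : Gen H M a b)
    (hw : Wheel H a b c r) :
    Gen H M a r ∧ Gen H M b r ∧ Gen H M c r ∧ Gen H M a c ∧ Gen H M b c := by
  obtain ⟨-, h1, h2⟩ := loose_subset_hull hH hM hab hw.hr (hw.loose hH)
  have h3 := hw.swap₂₃.loose hH   -- Loose a c r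
  obtain ⟨-, h4, h5⟩ := loose_subset_hull hH hM h1 hw.hc h3.swap₂₃
  have h6 := hw.swap₁₂.swap₂₃.loose hH -- Loose b c r
  obtain ⟨-, h7, -⟩ := loose_subset_hull hH hM h2 hw.hc h6.swap₂₃
  exact ⟨h1, h2, h5.symm, h4, h7⟩

end

end Pool.Agent.Lib.MP_c82047_co18
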