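import Pool.Agent.Lib.MP_c82047_co18.Counts
import Pool.Agent.Lib.MP_c82047_co18.Foreign

/-!
# Stars and opposite pairs (section 6)
-/

set_option linter.unusedSectionVars false
set_option linter.unusedSimpArgs false

namespace Pool.Agent.Lib.MP_c82047_co18

open Pool.Agent.Lib.MP_c82047_co97

section

variable {V : Type*} [DecidableEq V] {H : Finset (Finset V)}

theorem st_hub_uniq (hH : Lin H) {a b : Finset V} (ha : a ∈ H) (hb : b ∈ H) (hab : a ≠ b) {v p : V}
    (hva : v ∈ a) (hvb : v ∈ b) (hpa : p ∈ a) (hpb : p ∈ b) : p = v := by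
  by_contra h
  exact hab (line_eq hH ha hb h hpa hva hpb hvb)

theorem st_third {a : Finset V} (ha : a.card = 3) {x y : V} (hx : x ∈ a) (hy : y ∈ a)
    (hxy : x ≠ y) : ∃ t, t ≠ x ∧ t ≠ y ∧ a = {x, y, t} := by
  have h1 : ((a.erase x).erase y).card = 1 := by
    rw [Finset.card_erase_of_mem (Finset.mem_erase.2 ⟨hxy.symm, hy⟩),
      Finset.card_erase_of_mem hx, ha]
  obtain ⟨t, ht⟩ := Finset.card_eq_one.1 h1
  have h2 : t ∈ (a.erase x).erase y := by rw [ht]; exact Finset.mem_singleton_self t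
  simp only [Finset.mem_erase] at h2
  refine ⟨t, h2.2.1, h2.1, ?_⟩
  ext z
  simp only [Finset.mem_insert, Finset.mem_singleton]
  constructor
  · intro hz
    by_cases hzx : z = x
    · exact Or.inl hzx
    by_cases hzy : z = y
    · exact Or.inr (Or.inl hzy)
    have h3 : z ∈ (a.erase x).erase y :=
      Finset.mem_erase.2 ⟨hzy, Finset.mem_erase.2 ⟨hzx, hz⟩⟩
    rw [ht, Finset.mem_singleton] at h3
    exact Or.inr (Or.inr h3)
  · rintro (rfl | rfl | rfl)
    · exact hx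
    · exact hy
    · exact h2.2.2

theorem st_eq_triple {a : Finset V} (ha : a.card = 3) {x y z : V} (hx : x ∈ a) (hy : y ∈ a)
    (hz : z ∈ a) (hxy : x ≠ y) (hxz : x ≠ z) (hyz : y ≠ z) : a = {x, y, z} := by
  symm
  apply Finset.eq_of_subset_of_card_le
  · intro t ht
    simp only [Finset.mem_insert, Finset.mem_singleton] at ht
    rcases ht with rfl | rfl | rfl <;> assumption
  · rw [ha, Finset.card_eq_three.2 ⟨x, y, z, hxy, hxz, hyz, rfl⟩]

/-- Coordinates of a wheel. -/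
theorem Wheel.coords (hH : Lin H) {a b c r : Finset V} (hw : Wheel H a b c r) :
    ∃ v x y z, v ∈ a ∧ v ∈ b ∧ v ∈ c ∧ x ∈ a ∧ y ∈ b ∧ z ∈ c ∧ x ≠ v ∧ y ≠ v ∧ z ≠ v ∧
      x ≠ y ∧ x ≠ z ∧ y ≠ z ∧ v ∉ r ∧ r = {x, y, z} := by
  obtain ⟨v, hva, hvb, hvc, hvr⟩ := hw.hub
  obtain ⟨x, hx⟩ := hw.ra
  obtain ⟨y, hy⟩ := hw.rb
  obtain ⟨z, hz⟩ := hw.rc
  rw [Finset.mem_inter] at hx hy hz
  have hxv : x ≠ v := fun h => hvr (h ▸ hx.1)
  have hyv : y ≠ v := fun h => hvr (h ▸ hy.1)
  have hzv : z ≠ v := fun h => hvr (h ▸ hz.1)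
  have hxy : x ≠ y := fun h =>
    hxv (st_hub_uniq hH hw.ha hw.hb hw.ab hva hvb hx.2 (h ▸ hy.2))
  have hxz : x ≠ z := fun h =>
    hxv (st_hub_uniq hH hw.ha hw.hc hw.ac hva hvc hx.2 (h ▸ hz.2))
  have hyz : y ≠ z := fun h =>
    hyv (st_hub_uniq hH hw.hb hw.hc hw.bc hvb hvc hy.2 (h ▸ hz.2))
  exact ⟨v, x, y, z, hva, hvb, hvc, hx.2, hy.2, hz.2, hxv, hyv, hzv, hxy, hxz, hyz, hvr,
    st_eq_triple (hH.1 r hw.hr) hx.1 hy.1 hz.1 hxy hxz hyz⟩

/-- The points of a star. -/
structure StarPts (a b c d r s : Finset V) (v x x₂ y y₂ z x' y' z' : V) : Prop where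
  ea : a = {v, x, x₂}
  eb : b = {v, y, y₂}
  vc : v ∈ c
  vd : v ∈ d
  zc : z ∈ c
  zd : z' ∈ d
  er : r = {x, y, z}
  es : s = {x', y', z'}
  hx' : x' = x ∨ x' = x₂
  hy' : y' = y ∨ y' = y₂
  hxy' : ¬ (x' = x ∧ y' = y)
  xx : x ≠ x₂
  yy : y ≠ y₂
  xv : x ≠ v
  xv₂ : x₂ ≠ v
  yv : y ≠ v
  yv₂ : y₂ ≠ v
  zv : z ≠ v
  zv' : z' ≠ v
  nx : x ∉ c ∪ d
  nx₂ : x₂ ∉ c ∪ d
  ny : y ∉ c ∪ d
  ny₂ : y₂ ∉ c ∪ d
  xy : x ≠ y
  xy₂ : x ≠ y₂
  x₂y : x₂ ≠ y
  x₂y₂ : x₂ ≠ y₂
  vr : v ∉ r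
  vs : v ∉ s

theorem Star.pts (hH : Lin H) {M a b c d r s : Finset V} (hs : Star H M a b c d r s) :
    ∃ v x x₂ y y₂ z x' y' z', StarPts a b c d r s v x x₂ y y₂ z x' y' z' := by
  obtain ⟨v, x, y, z, hva, hvb, hvc, hx, hy, hz, hxv, hyv, hzv, hxy, hxz, hyz, hvr, er⟩ :=
    hs.w₁.coords hH
  obtain ⟨v', x', y', z', hva', hvb', hvd, hx', hy', hz', hxv', hyv', hzv', hxy', hxz', hyz',
    hvr', es⟩ := hs.w₂.coords hH
  have ha := hs.w₁.ha
  have hb := hs.w₁.hb
  have hc := hs.w₁.hc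
  have hd := hs.w₂.hc
  have hab := hs.w₁.ab
  have hac := hs.w₁.ac
  have hbc := hs.w₁.bc
  have had := hs.w₂.ac
  have hbd := hs.w₂.bc
  have hcd := hs.ne
  have hvv : v' = v := st_hub_uniq hH ha hb hab hva hvb hva' hvb'
  subst hvv
  obtain ⟨x₂, hx₂v, hx₂x, ea⟩ := st_third (hH.1 a ha) hva hx hxv.symm
  obtain ⟨y₂, hy₂v, hy₂y, eb⟩ := st_third (hH.1 b hb) hvb hy hyv.symm
  have hx₂a : x₂ ∈ a := by rw [ea]; simp
  have hy₂b : y₂ ∈ b := by rw [eb]; simp
  have key : ∀ {l m : Finset V}, l ∈ H → m ∈ H → l ≠ m → v' ∈ l → v' ∈ m → ∀ {p : V}, p ∈ l →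
      p ≠ v' → p ∉ m := fun hl hm hlm hvl hvm p hpl hpv hpm =>
    hpv (st_hub_uniq hH hl hm hlm hvl hvm hpl hpm)
  have nA : ∀ p ∈ a, p ≠ v' → p ∉ c ∪ d := fun p hp hpv h => by
    rcases Finset.mem_union.1 h with h | h
    · exact key ha hc hac hva hvc hp hpv h
    · exact key ha hd had hva hvd hp hpv h
  have nB : ∀ p ∈ b, p ≠ v' → p ∉ c ∪ d := fun p hp hpv h => by
    rcases Finset.mem_union.1 h with h | h
    · exact key hb hc hbc hvb hvc hp hpv h
    · exact key hb hd hbd hvb hvd hp hpv h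
  have nAB : ∀ p ∈ a, p ≠ v' → ∀ q ∈ b, p ≠ q := fun p hp hpv q hq h =>
    key ha hb hab hva hvb hp hpv (h ▸ hq)
  refine ⟨v', x, x₂, y, y₂, z, x', y', z', ea, eb, hvc, hvd, hz, hz', er, es, ?_, ?_, ?_,
    hx₂x.symm, hy₂y.symm, hxv, hx₂v, hyv, hy₂v, hzv, hzv', nA x hx hxv, nA x₂ hx₂a hx₂v,
    nB y hy hyv, nB y₂ hy₂b hy₂v, hxy, nAB x hx hxv y₂ hy₂b, nAB x₂ hx₂a hx₂v y hy,
    nAB x₂ hx₂a hx₂v y₂ hy₂b, hvr, hvr'⟩
  · rw [ea] at hx'
    simp only [Finset.mem_insert, Finset.mem_singleton] at hx'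
    rcases hx' with h | h | h
    · exact absurd h hxv'
    · exact Or.inl h
    · exact Or.inr h
  · rw [eb] at hy'
    simp only [Finset.mem_insert, Finset.mem_singleton] at hy'
    rcases hy' with h | h | h
    · exact absurd h hyv'
    · exact Or.inl h
    · exact Or.inr h
  · rintro ⟨h1, h2⟩
    have hrs : r = s := line_eq hH hs.w₁.hr hs.w₂.hr hxy (by rw [er]; simp) (by rw [er]; simp)
      (by rw [es, ← h1]; simp) (by rw [es, ← h2]; simp)
    have h3 : z' ∈ r := by rw [hrs, es]; simp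
    rw [er] at h3
    simp only [Finset.mem_insert, Finset.mem_singleton] at h3
    rcases h3 with h | h | h
    · exact nA x hx hxv (h ▸ Finset.mem_union_right _ hz')
    · exact nB y hy hyv (h ▸ Finset.mem_union_right _ hz')
    · exact key hc hd hcd hvc hvd hz hzv (h ▸ hz')

/-- The six triples of a star are different. -/
theorem StarPts.card_six {M a b c d r s : Finset V} (hs : Star H M a b c d r s)
    {v x x₂ y y₂ z x' y' z' : V} (P : StarPts a b c d r s v x x₂ y y₂ z x' y' z') :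
    ({a, b, c, d, r, s} : Finset (Finset V)).card = 6 := by
  have hva : v ∈ a := by rw [P.ea]; simp
  have hvb : v ∈ b := by rw [P.eb]; simp
  have h1 : a ≠ r := fun h => P.vr (h ▸ hva)
  have h2 : a ≠ s := fun h => P.vs (h ▸ hva)
  have h3 : b ≠ r := fun h => P.vr (h ▸ hvb)
  have h4 : b ≠ s := fun h => P.vs (h ▸ hvb)
  have h5 : c ≠ r := fun h => P.vr (h ▸ P.vc)
  have h6 : c ≠ s := fun h => P.vs (h ▸ P.vc)
  have h7 : d ≠ r := fun h => P.vr (h ▸ P.vd)
  have h8 : d ≠ s := fun h => P.vs (h ▸ P.vd)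
  have h9 : r ≠ s := by
    intro h
    have hx : x' ∈ r := by rw [h, P.es]; simp
    have hy : y' ∈ r := by rw [h, P.es]; simp
    rw [P.er] at hx hy
    simp only [Finset.mem_insert, Finset.mem_singleton] at hx hy
    apply P.hxy'
    constructor
    · rcases P.hx' with e | e
      · exact e
      · rw [e] at hx
        rcases hx with e' | e' | e'
        · exact absurd e'.symm P.xx
        · exact absurd e' P.x₂y
        · exact absurd (Finset.mem_union_left d (e' ▸ P.zc)) P.nx₂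
    · rcases P.hy' with e | e
      · exact e
      · rw [e] at hy
        rcases hy with e' | e' | e'
        · exact absurd e'.symm P.xy₂
        · exact absurd e'.symm P.yy
        · exact absurd (Finset.mem_union_left d (e' ▸ P.zc)) P.ny₂
  rw [Finset.card_insert_of_notMem, Finset.card_insert_of_notMem, Finset.card_insert_of_notMem,
    Finset.card_insert_of_notMem, Finset.card_insert_of_notMem, Finset.card_singleton]
  · simpa using h9
  · simp [h7, h8]
  · simp [hs.ne, h5, h6]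
  · simp [hs.w₁.bc, hs.w₂.bc, h3, h4]
  · simp [hs.w₁.ab, hs.w₁.ac, hs.w₂.ac, h1, h2]

theorem StarPts.r_subset {a b c d r s : Finset V} {v x x₂ y y₂ z x' y' z' : V}
    (P : StarPts a b c d r s v x x₂ y y₂ z x' y' z') : r ⊆ a ∪ b ∪ c ∪ d := by
  rw [P.er]
  intro t ht
  simp only [Finset.mem_insert, Finset.mem_singleton] at ht
  simp only [Finset.mem_union]
  rcases ht with rfl | rfl | rfl
  · left; left; left; rw [P.ea]; simp
  · left; left; right; rw [P.eb]; simp
  · left; right; exact P.zc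

theorem StarPts.s_subset {a b c d r s : Finset V} {v x x₂ y y₂ z x' y' z' : V}
    (P : StarPts a b c d r s v x x₂ y y₂ z x' y' z') : s ⊆ a ∪ b ∪ c ∪ d := by
  rw [P.es]
  intro t ht
  simp only [Finset.mem_insert, Finset.mem_singleton] at ht
  simp only [Finset.mem_union]
  rcases ht with rfl | rfl | rfl
  · left; left; left; rw [P.ea]
    rcases P.hx' with h | h <;> simp [h]
  · left; left; right; rw [P.eb]
    rcases P.hy' with h | h <;> simp [h]
  · right; exact P.zd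

end

variable {V : Type*} [DecidableEq V] [Fintype V] {H : Finset (Finset V)}
  {M a b c d r s : Finset V}

theorem Star.subset_hull (hH : Lin H) (hM : IsCls H M) (hs : Star H M a b c d r s) :
    a ∪ b ∪ c ∪ d ⊆ hull H M := by
  have key : ∀ {l m : Finset V}, Gen H M l m → l ⊆ hull H M := fun {l m} h t ht =>
    Finset.mem_biUnion.2 ⟨(l, m), mem_cher.2 h, ht⟩
  have h1 := wheel_gen hH hM hs.gen hs.w₁
  have h2 := wheel_gen hH hM hs.gen hs.w₂
  refine Finset.union_subset (Finset.union_subset (Finset.union_subset ?_ ?_) ?_) ?_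
  · exact key hs.gen
  · exact key hs.gen.symm
  · exact key h1.2.2.1
  · exact key h2.2.2.1

theorem Star.subset (hH : Lin H) (hM : IsCls H M) (hs : Star H M a b c d r s) :
    a ∪ b ∪ c ∪ d ⊆ M :=
  (hs.subset_hull hH hM).trans (hull_subset hH hM)

theorem Star.card (hH : Lin H) (_hM : IsCls H M) (hs : Star H M a b c d r s) :
    (a ∪ b ∪ c ∪ d).card = 9 := by
  obtain ⟨v, x, x₂, y, y₂, z, x', y', z', P⟩ := hs.pts hH
  have hva : v ∈ a := by rw [P.ea]; simp
  have hvb : v ∈ b := by rw [P.eb]; simp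
  have ha := hs.w₁.ha
  have hb := hs.w₁.hb
  have hc := hs.w₁.hc
  have hd := hs.w₂.hc
  have h1 : a ∩ b = {v} := by
    ext p
    simp only [Finset.mem_inter, Finset.mem_singleton]
    exact ⟨fun h => st_hub_uniq hH ha hb hs.w₁.ab hva hvb h.1 h.2, fun h => h ▸ ⟨hva, hvb⟩⟩
  have h2 : (a ∪ b) ∩ c = {v} := by
    ext p
    simp only [Finset.mem_inter, Finset.mem_union, Finset.mem_singleton]
    constructor
    · rintro ⟨h | h, h'⟩
      · exact st_hub_uniq hH ha hc hs.w₁.ac hva P.vc h h'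
      · exact st_hub_uniq hH hb hc hs.w₁.bc hvb P.vc h h'
    · rintro rfl
      exact ⟨Or.inl hva, P.vc⟩
  have h3 : (a ∪ b ∪ c) ∩ d = {v} := by
    ext p
    simp only [Finset.mem_inter, Finset.mem_union, Finset.mem_singleton]
    constructor
    · rintro ⟨(h | h) | h, h'⟩
      · exact st_hub_uniq hH ha hd hs.w₂.ac hva P.vd h h'
      · exact st_hub_uniq hH hb hd hs.w₂.bc hvb P.vd h h'
      · exact st_hub_uniq hH hc hd hs.ne P.vc P.vd h h'
    · rintro rfl
      exact ⟨Or.inl (Or.inl hva), P.vd⟩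
  have e1 := Finset.card_union_add_card_inter a b
  have e2 := Finset.card_union_add_card_inter (a ∪ b) c
  have e3 := Finset.card_union_add_card_inter (a ∪ b ∪ c) d
  rw [h1, Finset.card_singleton, hH.1 a ha, hH.1 b hb] at e1
  rw [h2, Finset.card_singleton, hH.1 c hc] at e2
  rw [h3, Finset.card_singleton, hH.1 d hd] at e3
  omega

theorem Star.six_subset (hH : Lin H) (hs : Star H M a b c d r s) :
    ({a, b, c, d, r, s} : Finset (Finset V)) ⊆ H.filter (fun h => h ⊆ a ∪ b ∪ c ∪ d) := by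
  obtain ⟨v, x, x₂, y, y₂, z, x', y', z', P⟩ := hs.pts hH
  have s1 : a ⊆ a ∪ b ∪ c ∪ d := fun t ht => by simp [ht]
  have s2 : b ⊆ a ∪ b ∪ c ∪ d := fun t ht => by simp [ht]
  have s3 : c ⊆ a ∪ b ∪ c ∪ d := fun t ht => by simp [ht]
  have s4 : d ⊆ a ∪ b ∪ c ∪ d := fun t ht => by simp [ht]
  intro h hh
  simp only [Finset.mem_insert, Finset.mem_singleton] at hh
  rw [Finset.mem_filter]
  rcases hh with rfl | rfl | rfl | rfl | rfl | rfl
  · exact ⟨hs.w₁.ha, s1⟩
  · exact ⟨hs.w₁.hb, s2⟩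
  · exact ⟨hs.w₁.hc, s3⟩
  · exact ⟨hs.w₂.hc, s4⟩
  · exact ⟨hs.w₁.hr, P.r_subset⟩
  · exact ⟨hs.w₂.hr, P.s_subset⟩

theorem Star.e_eq (hH : Lin H) (hM : IsCls H M) (hs : Star H M a b c d r s) :
    e H (a ∪ b ∪ c ∪ d) = 6 := by
  obtain ⟨v, x, x₂, y, y₂, z, x', y', z', P⟩ := hs.pts hH
  have h1 := Finset.card_le_card (hs.six_subset hH)
  rw [P.card_six hs] at h1
  have h2 : 3 ≤ g H (a ∪ b ∪ c ∪ d) :=
    Sparse.three_le hH (hM.sparse hH) (hs.subset hH hM) (by rw [hs.card hH hM]; norm_num)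
  have h3 := hs.card hH hM
  unfold g at h2
  rw [h3] at h2
  unfold e at h2 ⊢
  omega

theorem Star.g_eq (hH : Lin H) (hM : IsCls H M) (hs : Star H M a b c d r s) :
    g H (a ∪ b ∪ c ∪ d) = 3 := by
  unfold g
  rw [hs.card hH hM, hs.e_eq hH hM]
  norm_num

theorem Star.edges (hH : Lin H) (hM : IsCls H M) (hs : Star H M a b c d r s) :
    H.filter (fun h => h ⊆ a ∪ b ∪ c ∪ d) = {a, b, c, d, r, s} := by
  obtain ⟨v, x, x₂, y, y₂, z, x', y', z', P⟩ := hs.pts hH
  symm
  apply Finset.eq_of_subset_of_card_le (hs.six_subset hH)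
  rw [P.card_six hs]
  exact (hs.e_eq hH hM).le

theorem Star.cherry (hH : Lin H) (hs : Star H M a b c d r s) : Cherry H c d := by
  obtain ⟨v, x, x₂, y, y₂, z, x', y', z', P⟩ := hs.pts hH
  exact ⟨hs.w₁.hc, hs.w₂.hc, hs.ne, v, Finset.mem_inter.2 ⟨P.vc, P.vd⟩⟩

theorem st_list_card (H : Finset (Finset V)) (l : List (Finset V)) (Y : Finset V)
    (h : ∀ t ∈ H, t ⊆ Y → t ∈ l) : e H Y ≤ l.countP (fun t => decide (t ⊆ Y)) := by
  unfold e
  have h1 : H.filter (fun E => E ⊆ Y) ⊆ (l.filter (fun t => decide (t ⊆ Y))).toFinset := by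
    intro t ht
    rw [Finset.mem_filter] at ht
    rw [List.mem_toFinset, List.mem_filter]
    exact ⟨h t ht.1 ht.2, by simpa using ht.2⟩
  refine (Finset.card_le_card h1).trans ((List.toFinset_card_le _).trans ?_)
  rw [List.countP_eq_length_filter]

/-- Tight sets between the opposite pair and the star. -/
theorem Star.absorb (hH : Lin H) (hM : IsCls H M) (hs : Star H M a b c d r s) {Y : Finset V}
    (hY : c ∪ d ⊆ Y) (hYA : Y ⊆ a ∪ b ∪ c ∪ d) (hg : g H Y ≤ 3) (hne : Y ≠ c ∪ d) :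
    8 ≤ Y.card ∧ ∃ p p', Gen H M p p' ∧ p ⊆ Y ∧ p' ⊆ Y ∧ 2 ≤ (p \ (c ∪ d)).card ∧
      2 ≤ (p' \ (c ∪ d)).card := by
  obtain ⟨v, x, x₂, y, y₂, z, x', y', z', P⟩ := hs.pts hH
  have hvY : v ∈ Y := hY (Finset.mem_union_left _ P.vc)
  have hzY : z ∈ Y := hY (Finset.mem_union_left _ P.zc)
  have hzY' : z' ∈ Y := hY (Finset.mem_union_right _ P.zd)
  have ia : a ⊆ Y ↔ x ∈ Y ∧ x₂ ∈ Y := by
    rw [P.ea]
    simp only [Finset.insert_subset_iff, Finset.singleton_subset_iff]
    tauto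
  have ib : b ⊆ Y ↔ y ∈ Y ∧ y₂ ∈ Y := by
    rw [P.eb]
    simp only [Finset.insert_subset_iff, Finset.singleton_subset_iff]
    tauto
  have ir : r ⊆ Y ↔ x ∈ Y ∧ y ∈ Y := by
    rw [P.er]
    simp only [Finset.insert_subset_iff, Finset.singleton_subset_iff]
    tauto
  have is : s ⊆ Y ↔ x' ∈ Y ∧ y' ∈ Y := by
    rw [P.es]
    simp only [Finset.insert_subset_iff, Finset.singleton_subset_iff]
    tauto
  -- the number of triples in `Y`
  have he : e H Y ≤ (if x ∈ Y ∧ x₂ ∈ Y then 1 else 0) + (if y ∈ Y ∧ y₂ ∈ Y then 1 else 0) +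
      (if x ∈ Y ∧ y ∈ Y then 1 else 0) + (if x' ∈ Y ∧ y' ∈ Y then 1 else 0) + 2 := by
    have h1 := st_list_card H [a, b, c, d, r, s] Y (fun t ht htY => by
      have h2 : t ∈ H.filter (fun h => h ⊆ a ∪ b ∪ c ∪ d) :=
        Finset.mem_filter.2 ⟨ht, htY.trans hYA⟩
      rw [hs.edges hH hM] at h2
      simpa using h2)
    simp only [List.countP_cons, List.countP_nil, decide_eq_true_eq, ia, ib, ir, is] at h1
    have h3 : (if c ⊆ Y then 1 else 0) ≤ 1 := by split_ifs <;> omega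
    have h4 : (if d ⊆ Y then 1 else 0) ≤ 1 := by split_ifs <;> omega
    omega
  -- the number of points of `Y`
  have hcard : 5 + ((if x ∈ Y then 1 else 0) + (if x₂ ∈ Y then 1 else 0) +
      (if y ∈ Y then 1 else 0) + (if y₂ ∈ Y then 1 else 0)) ≤ Y.card := by
    have h1 : ((c ∪ d) ∪ ({x, x₂, y, y₂} : Finset V).filter (fun t => t ∈ Y)).card ≤ Y.card := by
      apply Finset.card_le_card
      apply Finset.union_subset hY
      intro t ht
      exact (Finset.mem_filter.1 ht).2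
    rw [Finset.card_union_of_disjoint, (hs.cherry hH).card hH, Finset.card_filter] at h1
    · rw [Finset.sum_insert, Finset.sum_insert, Finset.sum_insert, Finset.sum_singleton] at h1
      · omega
      · simpa using P.yy
      · simp [P.x₂y, P.x₂y₂]
      · simp [P.xx, P.xy, P.xy₂]
    · rw [Finset.disjoint_right]
      intro t ht
      have h2 := (Finset.mem_filter.1 ht).1
      simp only [Finset.mem_insert, Finset.mem_singleton] at h2
      rcases h2 with rfl | rfl | rfl | rfl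
      · exact P.nx
      · exact P.nx₂
      · exact P.ny
      · exact P.ny₂
  have hgY : Y.card ≤ e H Y + 3 := by
    unfold g at hg
    omega
  have hne' : ¬ (x ∉ Y ∧ x₂ ∉ Y ∧ y ∉ Y ∧ y₂ ∉ Y) := by
    rintro ⟨h1, h2, h3, h4⟩
    apply hne
    apply Finset.Subset.antisymm _ hY
    intro t ht
    have h5 := hYA ht
    simp only [Finset.mem_union, or_assoc] at h5
    rcases h5 with h5 | h5 | h5 | h5
    · rw [P.ea] at h5
      simp only [Finset.mem_insert, Finset.mem_singleton] at h5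
      rcases h5 with rfl | rfl | rfl
      · exact Finset.mem_union_left _ P.vc
      · exact absurd ht h1
      · exact absurd ht h2
    · rw [P.eb] at h5
      simp only [Finset.mem_insert, Finset.mem_singleton] at h5
      rcases h5 with rfl | rfl | rfl
      · exact Finset.mem_union_left _ P.vc
      · exact absurd ht h3
      · exact absurd ht h4
    · exact Finset.mem_union_left _ h5
    · exact Finset.mem_union_right _ h5
  have key : 8 ≤ Y.card ∧ x ∈ Y ∧ y ∈ Y ∧ (x₂ ∈ Y ∨ y₂ ∈ Y) := by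
    rcases P.hx' with e1 | e1 <;> rcases P.hy' with e2 | e2
    · exact absurd ⟨e1, e2⟩ P.hxy'
    all_goals
      rw [e1, e2] at he
      by_cases h1 : x ∈ Y <;> by_cases h2 : x₂ ∈ Y <;> by_cases h3 : y ∈ Y <;>
        by_cases h4 : y₂ ∈ Y <;>
        simp only [h1, h2, h3, h4, and_true, and_false, true_and, false_and, if_true,
          if_false, not_true_eq_false, not_false_eq_true, true_or, or_true, or_false, false_or,
          or_self, and_self] at he hcard hne' ⊢ <;> omega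
  obtain ⟨h8, hx, hy, hor⟩ := key
  refine ⟨h8, ?_⟩
  have hw := wheel_gen hH hM hs.gen hs.w₁
  have cr : 2 ≤ (r \ (c ∪ d)).card := by
    have : ({x, y} : Finset V) ⊆ r \ (c ∪ d) := by
      intro t ht
      simp only [Finset.mem_insert, Finset.mem_singleton] at ht
      rw [Finset.mem_sdiff]
      rcases ht with rfl | rfl
      · exact ⟨by rw [P.er]; simp, P.nx⟩
      · exact ⟨by rw [P.er]; simp, P.ny⟩
    have h2 := Finset.card_le_card this
    rwa [Finset.card_pair P.xy] at h2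
  rcases hor with h | h
  · refine ⟨a, r, hw.1, ia.2 ⟨hx, h⟩, ir.2 ⟨hx, hy⟩, ?_, cr⟩
    have : ({x, x₂} : Finset V) ⊆ a \ (c ∪ d) := by
      intro t ht
      simp only [Finset.mem_insert, Finset.mem_singleton] at ht
      rw [Finset.mem_sdiff]
      rcases ht with rfl | rfl
      · exact ⟨by rw [P.ea]; simp, P.nx⟩
      · exact ⟨by rw [P.ea]; simp, P.nx₂⟩
    have h2 := Finset.card_le_card this
    rwa [Finset.card_pair P.xx] at h2
  · refine ⟨b, r, hw.2.1, ib.2 ⟨hy, h⟩, ir.2 ⟨hx, hy⟩, ?_, cr⟩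
    have : ({y, y₂} : Finset V) ⊆ b \ (c ∪ d) := by
      intro t ht
      simp only [Finset.mem_insert, Finset.mem_singleton] at ht
      rw [Finset.mem_sdiff]
      rcases ht with rfl | rfl
      · exact ⟨by rw [P.eb]; simp, P.ny⟩
      · exact ⟨by rw [P.eb]; simp, P.ny₂⟩
    have h2 := Finset.card_le_card this
    rwa [Finset.card_pair P.yy] at h2

/-- (DC) -/
theorem Star.dc (hH : Lin H) (hM : IsCls H M) (hs : Star H M a b c d r s) {P N : Finset V}
    (hr : Reach H P N) (hgP : g H P ≤ 3) (hPA : P ∩ (a ∪ b ∪ c ∪ d) = c ∪ d)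
    (hg : ∀ X, P ⊆ X → X ⊆ N → 3 ≤ g H (X ∪ (a ∪ b ∪ c ∪ d))) :
    N ∩ (a ∪ b ∪ c ∪ d) = c ∪ d := by
  induction hr with
  | refl => exact hPA
  | @step N h x hr hh hxh hxN hsub ih =>
    have ih' := ih (fun X h1 h2 => hg X h1 (h2.trans (Finset.subset_insert _ _)))
    by_contra hne
    have hreach : Reach H P (insert x N) := Reach.step hr hh hxh hxN hsub
    have hle : g H (insert x N) ≤ 3 := (hreach.g_le hH).trans hgP
    have hsm := g_submod H (insert x N) (a ∪ b ∪ c ∪ d)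
    have h3 := hg (insert x N) hreach.subset subset_rfl
    have hgA := hs.g_eq hH hM
    have hgI : g H (insert x N ∩ (a ∪ b ∪ c ∪ d)) ≤ 3 := by linarith
    have hcd : c ∪ d ⊆ insert x N ∩ (a ∪ b ∪ c ∪ d) := by
      rw [← ih']
      exact Finset.inter_subset_inter_right (Finset.subset_insert _ _)
    obtain ⟨h8, -⟩ := hs.absorb hH hM hcd Finset.inter_subset_right hgI hne
    have h6 : (insert x N ∩ (a ∪ b ∪ c ∪ d)).card ≤ (N ∩ (a ∪ b ∪ c ∪ d)).card + 1 := by
      have : insert x N ∩ (a ∪ b ∪ c ∪ d) ⊆ insert x (N ∩ (a ∪ b ∪ c ∪ d)) := by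
        intro t ht
        rw [Finset.mem_inter, Finset.mem_insert] at ht
        rw [Finset.mem_insert, Finset.mem_inter]
        rcases ht.1 with h | h
        · exact Or.inl h
        · exact Or.inr ⟨h, ht.2⟩
      exact (Finset.card_le_card this).trans (Finset.card_insert_le _ _)
    rw [ih', (hs.cherry hH).card hH] at h6
    omega

/-- Block steps do not increase `g`. -/
theorem Star.g_union_le (hH : Lin H) (hM : IsCls H M) (hs : Star H M a b c d r s) {N : Finset V}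
    (hN : c ∪ d ⊆ N) : g H (N ∪ (a ∪ b)) ≤ g H N := by
  have h1 := g_submod H N (a ∪ b ∪ c ∪ d)
  have h2 : N ∪ (a ∪ b ∪ c ∪ d) = N ∪ (a ∪ b) := by
    ext t
    have h3 := @hN t
    simp only [Finset.mem_union] at h3 ⊢
    tauto
  have h3 : 3 ≤ g H (N ∩ (a ∪ b ∪ c ∪ d)) := by
    refine Sparse.three_le hH (hM.sparse hH)
      (Finset.inter_subset_right.trans (hs.subset hH hM)) ?_
    have h4 : c ∪ d ⊆ N ∩ (a ∪ b ∪ c ∪ d) := by
      refine Finset.subset_inter hN ?_
      intro t ht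
      simp only [Finset.mem_union] at ht ⊢
      tauto
    have h5 := Finset.card_le_card h4
    rw [(hs.cherry hH).card hH] at h5
    omega
  rw [h2, hs.g_eq hH hM] at h1
  linarith

/-- A star can be added to a set containing its opposite pair by adding one point of `a`, then
single steps. -/
theorem Star.exists_reach (hH : Lin H) (hs : Star H M a b c d r s) {N : Finset V}
    (hN : c ∪ d ⊆ N) : ∃ x, Reach H (insert x N) (N ∪ (a ∪ b)) := by
  obtain ⟨v, x, x₂, y, y₂, z, x', y', z', P⟩ := hs.pts hH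
  have hvN : v ∈ N := hN (Finset.mem_union_left _ P.vc)
  have hzN : z ∈ N := hN (Finset.mem_union_left _ P.zc)
  have pair : ∀ {l S : Finset V} {p q : V}, p ≠ q → p ∈ l → q ∈ l → p ∈ S → q ∈ S →
      2 ≤ (l ∩ S).card := fun {l S p q} hpq h1 h2 h3 h4 => by
    have : ({p, q} : Finset V) ⊆ l ∩ S := by
      intro t ht
      simp only [Finset.mem_insert, Finset.mem_singleton] at ht
      rcases ht with rfl | rfl
      · exact Finset.mem_inter.2 ⟨h1, h3⟩
      · exact Finset.mem_inter.2 ⟨h2, h4⟩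
    have h5 := Finset.card_le_card this
    rwa [Finset.card_pair hpq] at h5
  have h1 : Reach H (insert x N) (insert x N ∪ a) :=
    reach_edge hH hs.w₁.ha (pair P.xv (by rw [P.ea]; simp) (by rw [P.ea]; simp)
      (Finset.mem_insert_self _ _) (Finset.mem_insert_of_mem hvN))
  have h2 : Reach H (insert x N ∪ a) (insert x N ∪ a ∪ r) :=
    reach_edge hH hs.w₁.hr (pair (p := x) (q := z)
      (fun h => P.nx (h ▸ Finset.mem_union_left _ P.zc)) (by rw [P.er]; simp) (by rw [P.er]; simp)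
      (by simp) (by simp [hzN]))
  have h3 : Reach H (insert x N ∪ a ∪ r) (insert x N ∪ a ∪ r ∪ b) :=
    reach_edge hH hs.w₁.hb (pair (p := v) (q := y) P.yv.symm (by rw [P.eb]; simp)
      (by rw [P.eb]; simp) (by simp [hvN]) (by rw [P.er]; simp))
  have h4 : insert x N ∪ a ∪ r ∪ b = N ∪ (a ∪ b) := by
    ext t
    rw [P.er, P.ea, P.eb]
    simp only [Finset.mem_union, Finset.mem_insert, Finset.mem_singleton]
    constructor
    · rintro ((((h | h) | h) | h) | h)
      · simp [h]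
      · simp [h]
      · tauto
      · rcases h with h | h | h
        · simp [h]
        · simp [h]
        · rw [h]; exact Or.inl hzN
      · tauto
    · tauto
  exact ⟨x, h4 ▸ (h1.trans h2).trans h3⟩

/-- The closure of the opposite pair meets the star only in the opposite pair. -/
theorem Star.cl_inter (hH : Lin H) (hM : IsCls H M) (hs : Star H M a b c d r s) :
    cl H (c ∪ d) ∩ (a ∪ b ∪ c ∪ d) = c ∪ d := by
  have hsub : c ∪ d ⊆ a ∪ b ∪ c ∪ d := by
    intro t ht
    simp only [Finset.mem_union] at ht ⊢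
    tauto
  have hclM : cl H (c ∪ d) ⊆ M := cl_subset hH hM.closed (hsub.trans (hs.subset hH hM))
  refine hs.dc hH hM (reach_cl H (c ∪ d)) ((hs.cherry hH).g_le hH)
    (Finset.inter_eq_left.2 hsub) ?_
  intro X _ hX
  refine Sparse.three_le hH (hM.sparse hH)
    (Finset.union_subset (hX.trans hclM) (hs.subset hH hM)) ?_
  have := Finset.card_le_card (Finset.subset_union_right (s₁ := X) (s₂ := a ∪ b ∪ c ∪ d))
  rw [hs.card hH hM] at this
  omega

theorem Star.cl_isCls (hH : Lin H) (hM : IsCls H M) (hs : Star H M a b c d r s) :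
    IsCls H (cl H (c ∪ d)) ∧ cl H (c ∪ d) ⊆ M ∧ ¬ hull H M ⊆ cl H (c ∪ d) := by
  have hsub : c ∪ d ⊆ a ∪ b ∪ c ∪ d := by
    intro t ht
    simp only [Finset.mem_union] at ht ⊢
    tauto
  have hM' := hsub.trans (hs.subset hH hM)
  refine ⟨hM.isCls_cl hH (hs.cherry hH) (Finset.subset_union_left.trans hM')
    (Finset.subset_union_right.trans hM'), cl_subset hH hM.closed hM', ?_⟩
  intro h
  have h1 := hs.cl_inter hH hM
  rw [Finset.inter_eq_right.2 ((hs.subset_hull hH hM).trans h)] at h1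
  have h2 := hs.card hH hM
  rw [h1, (hs.cherry hH).card hH] at h2
  omega

theorem mem_opp {p : Finset V × Finset V} :
    p ∈ opp H M ↔ ∃ a b r s, Star H M a b p.1 p.2 r s := by
  unfold opp
  simp only [Finset.mem_filter, Finset.mem_product]
  exact ⟨fun h => h.2, fun h => ⟨by
    obtain ⟨a, b, r, s, hs⟩ := h
    exact ⟨hs.w₁.hc, hs.w₂.hc⟩, h⟩⟩

theorem mem_kids {D : Finset V} :
    D ∈ kids H M ↔ ∃ a b c d r s, Star H M a b c d r s ∧ cl H (c ∪ d) = D := by
  unfold kids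
  rw [Finset.mem_image]
  constructor
  · rintro ⟨⟨c, d⟩, hp, rfl⟩
    obtain ⟨a, b, r, s, hs⟩ := mem_opp.1 hp
    exact ⟨a, b, c, d, r, s, hs, rfl⟩
  · rintro ⟨a, b, c, d, r, s, hs, rfl⟩
    exact ⟨(c, d), mem_opp.2 ⟨a, b, r, s, hs⟩, rfl⟩

theorem kid_isCls (hH : Lin H) (hM : IsCls H M) {D : Finset V} (hD : D ∈ kids H M) :
    IsCls H D ∧ D ⊆ M ∧ D.card < M.card := by
  obtain ⟨a, b, c, d, r, s, hs, rfl⟩ := mem_kids.1 hD
  obtain ⟨h1, h2, h3⟩ := hs.cl_isCls hH hM
  refine ⟨h1, h2, Finset.card_lt_card ⟨h2, fun h => h3 ?_⟩⟩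
  exact (hull_subset hH hM).trans h

/-- Two rims over the same three spokes of a class coincide. -/
theorem rim_unique (hH : Lin H) (hM : IsCls H M) {a b c r r' : Finset V} (hab : Gen H M a b)
    (hw : Wheel H a b c r) (hw' : Wheel H a b c r') : r = r' := by
  by_contra hne
  obtain ⟨v, x, y, z, hva, hvb, hvc, hx, hy, hz, hxv, hyv, hzv, hxy, hxz, hyz, hvr, er⟩ :=
    hw.coords hH
  obtain ⟨v', x', y', z', hva', hvb', hvc', hx', hy', hz', hxv', hyv', hzv', hxy', hxz', hyz',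
    hvr', er'⟩ := hw'.coords hH
  have hvv : v' = v := st_hub_uniq hH hw.ha hw.hb hw.ab hva hvb hva' hvb'
  subst hvv
  have hcM : c ⊆ M := (wheel_gen hH hM hab hw).2.2.2.1.subset.2
  have hsubM : a ∪ b ∪ c ⊆ M :=
    Finset.union_subset (Finset.union_subset hab.subset.1 hab.subset.2) hcM
  have h1 : a ∩ b = {v'} := by
    ext p
    simp only [Finset.mem_inter, Finset.mem_singleton]
    exact ⟨fun h => st_hub_uniq hH hw.ha hw.hb hw.ab hva hvb h.1 h.2, fun h => h ▸ ⟨hva, hvb⟩⟩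
  have h2 : (a ∪ b) ∩ c = {v'} := by
    ext p
    simp only [Finset.mem_inter, Finset.mem_union, Finset.mem_singleton]
    constructor
    · rintro ⟨h | h, h'⟩
      · exact st_hub_uniq hH hw.ha hw.hc hw.ac hva hvc h h'
      · exact st_hub_uniq hH hw.hb hw.hc hw.bc hvb hvc h h'
    · rintro rfl
      exact ⟨Or.inl hva, hvc⟩
  have e1 := Finset.card_union_add_card_inter a b
  have e2 := Finset.card_union_add_card_inter (a ∪ b) c
  rw [h1, Finset.card_singleton, hH.1 a hw.ha, hH.1 b hw.hb] at e1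
  rw [h2, Finset.card_singleton, hH.1 c hw.hc] at e2
  have hcard : (a ∪ b ∪ c).card = 7 := by omega
  have h3 : 3 ≤ g H (a ∪ b ∪ c) :=
    Sparse.three_le hH (hM.sparse hH) hsubM (by rw [hcard]; norm_num)
  have hra : a ≠ r := fun h => hvr (h ▸ hva)
  have hrb : b ≠ r := fun h => hvr (h ▸ hvb)
  have hrc : c ≠ r := fun h => hvr (h ▸ hvc)
  have hra' : a ≠ r' := fun h => hvr' (h ▸ hva)
  have hrb' : b ≠ r' := fun h => hvr' (h ▸ hvb)
  have hrc' : c ≠ r' := fun h => hvr' (h ▸ hvc)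
  have h5 : ({a, b, c, r, r'} : Finset (Finset V)).card = 5 := by
    rw [Finset.card_insert_of_notMem, Finset.card_insert_of_notMem,
      Finset.card_insert_of_notMem, Finset.card_insert_of_notMem, Finset.card_singleton]
    · simpa using hne
    · simp [hrc, hrc']
    · simp [hw.bc, hrb, hrb']
    · simp [hw.ab, hw.ac, hra, hra']
  have h6 : ({a, b, c, r, r'} : Finset (Finset V)) ⊆ H.filter (fun h => h ⊆ a ∪ b ∪ c) := by
    intro h hh
    simp only [Finset.mem_insert, Finset.mem_singleton] at hh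
    have s1 : a ⊆ a ∪ b ∪ c := fun t ht => by simp [ht]
    have s2 : b ⊆ a ∪ b ∪ c := fun t ht => by simp [ht]
    have s3 : c ⊆ a ∪ b ∪ c := fun t ht => by simp [ht]
    rw [Finset.mem_filter]
    rcases hh with rfl | rfl | rfl | rfl | rfl
    · exact ⟨hw.ha, s1⟩
    · exact ⟨hw.hb, s2⟩
    · exact ⟨hw.hc, s3⟩
    · refine ⟨hw.hr, ?_⟩
      rw [er]
      intro t ht
      simp only [Finset.mem_insert, Finset.mem_singleton] at ht
      rcases ht with rfl | rfl | rfl
      · exact s1 hx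
      · exact s2 hy
      · exact s3 hz
    · refine ⟨hw'.hr, ?_⟩
      rw [er']
      intro t ht
      simp only [Finset.mem_insert, Finset.mem_singleton] at ht
      rcases ht with rfl | rfl | rfl
      · exact s1 hx'
      · exact s2 hy'
      · exact s3 hz'
  have h7 := Finset.card_le_card h6
  rw [h5] at h7
  unfold g e at h3
  rw [hcard] at h3
  omega

theorem Wheel.swap {a b c r : Finset V} (hw : Wheel H a b c r) : Wheel H b a c r := by
  obtain ⟨v, h1, h2, h3, h4⟩ := hw.hub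
  exact ⟨hw.hb, hw.ha, hw.hc, hw.hr, hw.ab.symm, hw.bc, hw.ac, ⟨v, h2, h1, h3, h4⟩, hw.rb, hw.ra,
    hw.rc⟩

theorem Star.swap (hs : Star H M a b c d r s) : Star H M b a c d r s :=
  ⟨hs.gen.symm, hs.w₁.swap, hs.w₂.swap, hs.ne⟩

/-- Different stars of a class have different opposite pairs. -/
theorem Star.unique (hH : Lin H) (hM : IsCls H M) (hs : Star H M a b c d r s)
    {a' b' r' s' : Finset V} (hs' : Star H M a' b' c d r' s') :
    ((a = a' ∧ b = b') ∨ (a = b' ∧ b = a')) ∧ r = r' ∧ s = s' := by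
  obtain ⟨v, x, x₂, y, y₂, z, x', y', z', P⟩ := hs.pts hH
  obtain ⟨u, t, t₂, t', t₂', t₃, t₄, t₅, t₆, P'⟩ := hs'.pts hH
  have huv : u = v := st_hub_uniq hH hs.w₁.hc hs.w₂.hc hs.ne P.vc P.vd P'.vc P'.vd
  subst huv
  have hua : u ∈ a := by rw [P.ea]; simp
  have hub : u ∈ b := by rw [P.eb]; simp
  have hua' : u ∈ a' := by rw [P'.ea]; simp
  have hub' : u ∈ b' := by rw [P'.eb]; simp
  have hA9 := hs.card hH hM
  have hA9' := hs'.card hH hM
  have hAM := hs.subset hH hM
  have hAM' := hs'.subset hH hM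
  -- the intersection of the two stars
  have hg : g H ((a ∪ b ∪ c ∪ d) ∩ (a' ∪ b' ∪ c ∪ d)) ≤ 3 := by
    have h1 := g_submod H (a ∪ b ∪ c ∪ d) (a' ∪ b' ∪ c ∪ d)
    have h2 : 3 ≤ g H ((a ∪ b ∪ c ∪ d) ∪ (a' ∪ b' ∪ c ∪ d)) := by
      refine Sparse.three_le hH (hM.sparse hH) (Finset.union_subset hAM hAM') ?_
      have := Finset.card_le_card (Finset.subset_union_left
        (s₁ := a ∪ b ∪ c ∪ d) (s₂ := a' ∪ b' ∪ c ∪ d))
      omega
    rw [hs.g_eq hH hM, hs'.g_eq hH hM] at h1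
    linarith
  have hcd : c ∪ d ⊆ (a ∪ b ∪ c ∪ d) ∩ (a' ∪ b' ∪ c ∪ d) := by
    intro p hp
    simp only [Finset.mem_inter, Finset.mem_union] at hp ⊢
    tauto
  have hmain : (a = a' ∧ b = b') ∨ (a = b' ∧ b = a') := by
    by_cases hY : (a ∪ b ∪ c ∪ d) ∩ (a' ∪ b' ∪ c ∪ d) = c ∪ d
    · exfalso
      have hr : Reach H (a' ∪ b' ∪ c ∪ d) M :=
        hs'.gen.reach.mono (fun p hp => by
          simp only [Finset.mem_union] at hp ⊢
          tauto) hAM'
      have h1 := hs.dc hH hM hr (hs'.g_eq hH hM).le (by rw [Finset.inter_comm]; exact hY)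
        (fun X hX1 hX2 => by
          refine Sparse.three_le hH (hM.sparse hH) (Finset.union_subset hX2 hAM) ?_
          have := Finset.card_le_card (Finset.subset_union_right (s₁ := X)
            (s₂ := a ∪ b ∪ c ∪ d))
          omega)
      rw [Finset.inter_eq_right.2 hAM] at h1
      rw [h1, (hs.cherry hH).card hH] at hA9
      omega
    · obtain ⟨h8, -⟩ := hs.absorb hH hM hcd Finset.inter_subset_left hg hY
      -- a line of the second star through the hub with a further point in the first star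
      have hline : ∀ l ∈ H, u ∈ l → l ≠ c → l ≠ d → l ⊆ a' ∪ b' ∪ c ∪ d → l = a ∨ l = b := by
        intro l hl hul hlc hld hlA
        have h1 : ∃ p ∈ l, p ≠ u ∧ p ∈ a ∪ b ∪ c ∪ d := by
          by_contra hcon
          push Not at hcon
          have h2 : (l.erase u) ⊆ (a' ∪ b' ∪ c ∪ d) \ ((a ∪ b ∪ c ∪ d) ∩ (a' ∪ b' ∪ c ∪ d)) := by
            intro p hp
            rw [Finset.mem_erase] at hp
            rw [Finset.mem_sdiff, Finset.mem_inter]
            exact ⟨hlA hp.2, fun h => hcon p hp.2 hp.1 h.1⟩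
          have h3 := Finset.card_le_card h2
          rw [Finset.card_sdiff_of_subset Finset.inter_subset_right,
            Finset.card_erase_of_mem hul, hH.1 l hl, hA9'] at h3
          omega
        obtain ⟨p, hpl, hpu, hpA⟩ := h1
        simp only [Finset.mem_union, or_assoc] at hpA
        rcases hpA with h | h | h | h
        · exact Or.inl (line_eq hH hl hs.w₁.ha hpu hpl hul h hua)
        · exact Or.inr (line_eq hH hl hs.w₁.hb hpu hpl hul h hub)
        · exact absurd (line_eq hH hl hs.w₁.hc hpu hpl hul h P.vc) hlc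
        · exact absurd (line_eq hH hl hs.w₂.hc hpu hpl hul h P.vd) hld
      have h1 := hline a' hs'.w₁.ha hua' hs'.w₁.ac hs'.w₂.ac (fun p hp => by simp [hp])
      have h2 := hline b' hs'.w₁.hb hub' hs'.w₁.bc hs'.w₂.bc (fun p hp => by simp [hp])
      have h3 := hs'.w₁.ab
      rcases h1 with h1 | h1 <;> rcases h2 with h2 | h2
      · exact absurd (h1.trans h2.symm) h3
      · exact Or.inl ⟨h1.symm, h2.symm⟩
      · exact Or.inr ⟨h2.symm, h1.symm⟩
      · exact absurd (h1.trans h2.symm) h3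
  refine ⟨hmain, ?_⟩
  rcases hmain with ⟨rfl, rfl⟩ | ⟨rfl, rfl⟩
  · exact ⟨rim_unique hH hM hs.gen hs.w₁ hs'.w₁, rim_unique hH hM hs.gen hs.w₂ hs'.w₂⟩
  · exact ⟨rim_unique hH hM hs.gen hs.w₁ hs'.w₁.swap, rim_unique hH hM hs.gen hs.w₂ hs'.w₂.swap⟩

/-- (SA) Absorption by closed sets not containing the hull. -/
theorem Star.sa (hH : Lin H) (hM : IsCls H M) (hs : Star H M a b c d r s) {X F G : Finset V}
    (hX : X ∩ (a ∪ b ∪ c ∪ d) = c ∪ d) (hF : Closed H F) (hMF : ¬ hull H M ⊆ F) (hGF : G ⊆ F)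
    (hg : g H (X ∪ G) ≤ 3) (hg' : 3 ≤ g H (X ∪ G ∪ (a ∪ b ∪ c ∪ d))) :
    (X ∪ G) ∩ (a ∪ b ∪ c ∪ d) = c ∪ d := by
  by_contra hne
  have hcdX : c ∪ d ⊆ X := by rw [← hX]; exact Finset.inter_subset_left
  have hcd : c ∪ d ⊆ (X ∪ G) ∩ (a ∪ b ∪ c ∪ d) := by
    intro p hp
    have := hcdX hp
    simp only [Finset.mem_inter, Finset.mem_union] at hp ⊢
    tauto
  have h1 := g_submod H (X ∪ G) (a ∪ b ∪ c ∪ d)
  rw [hs.g_eq hH hM] at h1
  obtain ⟨-, p, p', hpp, hp, hp', hc1, hc2⟩ := hs.absorb hH hM hcd Finset.inter_subset_right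
    (by linarith) hne
  have key : ∀ l ∈ H, l ⊆ (X ∪ G) ∩ (a ∪ b ∪ c ∪ d) → 2 ≤ (l \ (c ∪ d)).card → l ⊆ F := by
    intro l hl hlY hlc
    apply hF l hl
    refine hlc.trans (Finset.card_le_card ?_)
    intro t ht
    rw [Finset.mem_sdiff] at ht
    have h2 := Finset.mem_inter.1 (hlY ht.1)
    rw [Finset.mem_inter]
    refine ⟨ht.1, ?_⟩
    rcases Finset.mem_union.1 h2.1 with h | h
    · exact absurd (hX ▸ Finset.mem_inter.2 ⟨h, h2.2⟩) ht.2
    · exact hGF h
  exact hMF ((hull_subset hH hM).trans (hM.subset_of_gen hH hpp hF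
    (key p hpp.cherry.ha hp hc1) (key p' hpp.cherry.hb hp' hc2)))

/-- (Q3) The trace of a tight set on the hull lies in a set with at most three triples. -/
theorem Star.exists_Q (hH : Lin H) (hM : IsCls H M) (hs : Star H M a b c d r s) {X : Finset V}
    (hX : X ∩ (a ∪ b ∪ c ∪ d) = c ∪ d) (hg : g H X ≤ 3) (hg' : 3 ≤ g H (hull H M ∪ X)) :
    ∃ Q, hull H M ∩ X ⊆ Q ∧ Q ⊆ hull H M ∧ e H Q ≤ 3 ∧ g H Q ≤ 3 := by
  have hfull := hull_full hH hM
  have hAh := hs.subset_hull hH hM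
  have hhM := hull_subset hH hM
  have hAM := hs.subset hH hM
  have hcdX : c ∪ d ⊆ X := by rw [← hX]; exact Finset.inter_subset_left
  have hcdA : c ∪ d ⊆ a ∪ b ∪ c ∪ d := by rw [← hX]; exact Finset.inter_subset_right
  have hgP : g H (hull H M ∩ X) ≤ 3 := by
    have h1 := g_submod H (hull H M) X
    rw [hfull.g_eq] at h1
    linarith
  have hPM : hull H M ∩ X ⊆ M := Finset.inter_subset_left.trans hhM
  have hclM : cl H (hull H M ∩ X) ⊆ M := cl_subset hH hM.closed hPM
  have hPA : (hull H M ∩ X) ∩ (a ∪ b ∪ c ∪ d) = c ∪ d := by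
    rw [Finset.inter_assoc, hX]
    exact Finset.inter_eq_right.2 (hcdA.trans hAh)
  have hgcl : g H (cl H (hull H M ∩ X)) ≤ 3 := ((reach_cl H _).g_le hH).trans hgP
  have h9 := hs.card hH hM
  refine ⟨hull H M ∩ cl H (hull H M ∩ X),
    Finset.subset_inter Finset.inter_subset_left (subset_cl H _), Finset.inter_subset_left, ?_, ?_⟩
  rotate_left
  · have h1 := g_submod H (hull H M) (cl H (hull H M ∩ X))
    rw [hfull.g_eq] at h1
    have h2 : 3 ≤ g H (hull H M ∪ cl H (hull H M ∩ X)) := by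
      refine Sparse.three_le hH (hM.sparse hH) (Finset.union_subset hhM hclM) ?_
      have := Finset.card_le_card (hAh.trans (Finset.subset_union_left
        (s₁ := hull H M) (s₂ := cl H (hull H M ∩ X))))
      omega
    linarith
  · apply foreign_e_le hH hfull Finset.inter_subset_left
    · intro h hh hhN h2
      refine Finset.subset_inter hhN ?_
      apply closed_cl hH _ h hh
      refine h2.trans (Finset.card_le_card ?_)
      exact Finset.inter_subset_inter_left Finset.inter_subset_right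
    · intro p p' hpp hp hp'
      have h1 : Gen H M p p' := (gen_hull_iff hH hM).1 hpp
      have h2 : M ⊆ cl H (hull H M ∩ X) :=
        hM.subset_of_gen hH h1 (closed_cl hH _) (hp.trans Finset.inter_subset_right)
          (hp'.trans Finset.inter_subset_right)
      have h3 := hs.dc hH hM (reach_cl H (hull H M ∩ X)) hgP hPA (fun X' _ hX' => by
        refine Sparse.three_le hH (hM.sparse hH)
          (Finset.union_subset (hX'.trans hclM) hAM) ?_
        have := Finset.card_le_card (Finset.subset_union_right (s₁ := X')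
          (s₂ := a ∪ b ∪ c ∪ d))
        omega)
      rw [Finset.inter_eq_right.2 (hAM.trans h2)] at h3
      rw [h3, (hs.cherry hH).card hH] at h9
      omega
    · have h1 := g_submod H (hull H M) (cl H (hull H M ∩ X))
      rw [hfull.g_eq] at h1
      have h2 : 3 ≤ g H (hull H M ∪ cl H (hull H M ∩ X)) := by
        refine Sparse.three_le hH (hM.sparse hH) (Finset.union_subset hhM hclM) ?_
        have := Finset.card_le_card (hAh.trans (Finset.subset_union_left
          (s₁ := hull H M) (s₂ := cl H (hull H M ∩ X))))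
        omega
      linarith

theorem st_subset_cl (hH : Lin H) {Q h : Finset V} (hQ : Q.card ≤ 6) (hcd : Cherry H c d)
    (hsub : c ∪ d ⊆ Q) (hh : h ∈ H) (hhQ : h ⊆ Q) : h ⊆ cl H (c ∪ d) := by
  apply closed_cl hH _ h hh
  have h1 : (h ∩ (c ∪ d)).card + (h \ (c ∪ d)).card = 3 := by
    rw [Finset.card_inter_add_card_sdiff, hH.1 h hh]
  have h2 : (h \ (c ∪ d)).card ≤ (Q \ (c ∪ d)).card :=
    Finset.card_le_card (Finset.sdiff_subset_sdiff hhQ subset_rfl)
  rw [Finset.card_sdiff_of_subset hsub, hcd.card hH] at h2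
  have h3 : (h ∩ (c ∪ d)).card ≤ (h ∩ cl H (c ∪ d)).card :=
    Finset.card_le_card (Finset.inter_subset_inter_left (subset_cl H _))
  omega

/-- Two cherries inside such a set `Q` have the same closure. -/
theorem cl_eq_of_Q (hH : Lin H) (_hM : IsCls H M) {Q c' d' : Finset V} (_hQM : Q ⊆ hull H M)
    (hQ : e H Q ≤ 3) (hg : g H Q ≤ 3) (hcd : Cherry H c d) (hcd' : Cherry H c' d')
    (h1 : c ∪ d ⊆ Q) (h2 : c' ∪ d' ⊆ Q) : cl H (c ∪ d) = cl H (c' ∪ d') := by
  have h6 : Q.card ≤ 6 := by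
    unfold g at hg
    omega
  apply Finset.Subset.antisymm
  · apply cl_subset hH (closed_cl hH _)
    exact Finset.union_subset
      (st_subset_cl hH h6 hcd' h2 hcd.ha (Finset.subset_union_left.trans h1))
      (st_subset_cl hH h6 hcd' h2 hcd.hb (Finset.subset_union_right.trans h1))
  · apply cl_subset hH (closed_cl hH _)
    exact Finset.union_subset
      (st_subset_cl hH h6 hcd h1 hcd'.ha (Finset.subset_union_left.trans h2))
      (st_subset_cl hH h6 hcd h1 hcd'.hb (Finset.subset_union_right.trans h2))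

/-- At most three leaves of the hull lie in a tight set meeting the star in the opposite pair. -/
theorem Star.card_leaves_inter_le (hH : Lin H) (hM : IsCls H M) (hs : Star H M a b c d r s)
    {X : Finset V} (hX : X ∩ (a ∪ b ∪ c ∪ d) = c ∪ d) (hg : g H X ≤ 3)
    (hg' : 3 ≤ g H (hull H M ∪ X)) : (leaves H (hull H M) ∩ X).card ≤ 3 := by
  obtain ⟨Q, hQ1, hQ2, hQ3, hQ4⟩ := hs.exists_Q hH hM hX hg hg'
  have hfull := hull_full hH hM
  have hAh := hs.subset_hull hH hM
  have h9 := hs.card hH hM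
  have h6 : 6 ≤ (hull H M).card := by
    have := Finset.card_le_card hAh
    omega
  have hcdX : c ∪ d ⊆ X := by rw [← hX]; exact Finset.inter_subset_left
  have hcdA : c ∪ d ⊆ a ∪ b ∪ c ∪ d := by rw [← hX]; exact Finset.inter_subset_right
  have hcdQ : c ∪ d ⊆ Q := fun t ht =>
    hQ1 (Finset.mem_inter.2 ⟨hAh (hcdA ht), hcdX ht⟩)
  have hQ6 : Q.card ≤ 6 := by
    unfold g at hQ4
    omega
  have hsub : leaves H (hull H M) ∩ X ⊆
      (c ∩ leaves H (hull H M)) ∪ ((d ∩ leaves H (hull H M)) ∪ (Q \ (c ∪ d))) := by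
    intro t ht
    rw [Finset.mem_inter] at ht
    have htQ : t ∈ Q := hQ1 (Finset.mem_inter.2 ⟨(Finset.mem_filter.1 ht.1).1, ht.2⟩)
    simp only [Finset.mem_union, Finset.mem_inter, Finset.mem_sdiff]
    by_cases h1 : t ∈ c
    · exact Or.inl ⟨h1, ht.1⟩
    by_cases h2 : t ∈ d
    · exact Or.inr (Or.inl ⟨h2, ht.1⟩)
    · exact Or.inr (Or.inr ⟨htQ, by tauto⟩)
  have h1 := Finset.card_le_card hsub
  have h2 := Finset.card_union_le (c ∩ leaves H (hull H M))
    ((d ∩ leaves H (hull H M)) ∪ (Q \ (c ∪ d)))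
  have h3 := Finset.card_union_le (d ∩ leaves H (hull H M)) (Q \ (c ∪ d))
  have h4 := card_inter_leaves_le hH hfull h6 hs.w₁.hc
    ((Finset.subset_union_left.trans hcdA).trans hAh)
  have h5 := card_inter_leaves_le hH hfull h6 hs.w₂.hc
    ((Finset.subset_union_right.trans hcdA).trans hAh)
  have h7 : (Q \ (c ∪ d)).card ≤ 1 := by
    rw [Finset.card_sdiff_of_subset hcdQ, (hs.cherry hH).card hH]
    omega
  omega

/-- The number of ordered opposite pairs. -/
theorem card_opp_le (hH : Lin H) (hM : IsCls H M) : (opp H M).card ≤ 6 * (kids H M).card := by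
  classical
  have hmaps : ∀ p ∈ opp H M, cl H (p.1 ∪ p.2) ∈ kids H M := fun p hp =>
    Finset.mem_image_of_mem _ hp
  refine Finset.card_le_mul_card_image_of_maps_to hmaps 6 ?_
  intro D hD
  obtain ⟨a, b, c, d, r, s, hs, rfl⟩ := mem_kids.1 hD
  obtain ⟨h1, h2, h3⟩ := hs.cl_isCls hH hM
  have hg' : 3 ≤ g H (hull H M ∪ cl H (c ∪ d)) := by
    refine Sparse.three_le hH (hM.sparse hH) (Finset.union_subset (hull_subset hH hM) h2) ?_
    have h4 := Finset.card_le_card ((hs.subset_hull hH hM).trans (Finset.subset_union_left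
      (s₁ := hull H M) (s₂ := cl H (c ∪ d))))
    rw [hs.card hH hM] at h4
    omega
  obtain ⟨Q, hQ1, hQ2, hQ3, hQ4⟩ := hs.exists_Q hH hM (hs.cl_inter hH hM) h1.g_eq.le hg'
  have hsub : (opp H M).filter (fun p => cl H (p.1 ∪ p.2) = cl H (c ∪ d)) ⊆
      (H.filter (fun h => h ⊆ Q)).offDiag := by
    rintro ⟨c', d'⟩ hp
    rw [Finset.mem_filter] at hp
    obtain ⟨hp1, hp2⟩ := hp
    obtain ⟨a', b', r', s', hs'⟩ := mem_opp.1 hp1
    have hA := hs'.subset_hull hH hM
    have hc : c' ∪ d' ⊆ hull H M ∩ cl H (c ∪ d) := by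
      refine Finset.subset_inter ?_ ?_
      · refine subset_trans ?_ hA
        intro t ht
        simp only [Finset.mem_union] at ht ⊢
        tauto
      · rw [← hp2]
        exact subset_cl H _
    rw [Finset.mem_offDiag, Finset.mem_filter, Finset.mem_filter]
    exact ⟨⟨hs'.w₁.hc, (Finset.subset_union_left.trans hc).trans hQ1⟩,
      ⟨hs'.w₂.hc, (Finset.subset_union_right.trans hc).trans hQ1⟩, hs'.ne⟩
  refine (Finset.card_le_card hsub).trans ?_
  rw [Finset.offDiag_card]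
  have h5 : (H.filter (fun h => h ⊆ Q)).card ≤ 3 := hQ3
  generalize (H.filter (fun h => h ⊆ Q)).card = n at h5
  interval_cases n <;> norm_num

/-- The number of pairs of different wheels over the same hub pair. -/
theorem sum_offDiag_le (hH : Lin H) (hM : IsCls H M) :
    ∑ p ∈ cher H M, (q H p.1 p.2 * q H p.1 p.2 - q H p.1 p.2) ≤ 2 * (opp H M).card := by
  classical
  let W : Finset V × Finset V → Finset (Finset V × Finset V) := fun p =>
    (H ×ˢ H).filter (fun t => Wheel H p.1 p.2 t.1 t.2)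
  let T := (cher H M).sigma fun p => (W p).offDiag
  have hT : T.card = ∑ p ∈ cher H M, (q H p.1 p.2 * q H p.1 p.2 - q H p.1 p.2) := by
    rw [Finset.card_sigma]
    refine Finset.sum_congr rfl fun p _ => ?_
    rw [Finset.offDiag_card]
    unfold q
    rfl
  rw [← hT]
  have hstar : ∀ t ∈ T, Star H M t.1.1 t.1.2 t.2.1.1 t.2.2.1 t.2.1.2 t.2.2.2 := by
    rintro ⟨⟨a, b⟩, ⟨⟨c, r⟩, ⟨d, s⟩⟩⟩ ht
    have h1 := Finset.mem_sigma.1 ht
    have hgen : Gen H M a b := mem_cher.1 h1.1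
    have h2 := Finset.mem_offDiag.1 h1.2
    have hw1 : Wheel H a b c r := (Finset.mem_filter.1 h2.1).2
    have hw2 : Wheel H a b d s := (Finset.mem_filter.1 h2.2.1).2
    have hne : (c, r) ≠ (d, s) := h2.2.2
    refine ⟨hgen, hw1, hw2, ?_⟩
    intro hcd
    have hcd' : c = d := hcd
    subst hcd'
    exact hne (by rw [rim_unique hH hM hgen hw1 hw2])
  have hmaps : ∀ t ∈ T, ((t.2.1.1, t.2.2.1) : Finset V × Finset V) ∈ opp H M := by
    intro t ht
    exact mem_opp.2 ⟨_, _, _, _, hstar t ht⟩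
  refine Finset.card_le_mul_card_image_of_maps_to hmaps 2 ?_
  rintro ⟨c, d⟩ -
  rcases Finset.eq_empty_or_nonempty (T.filter fun t => (t.2.1.1, t.2.2.1) = (c, d)) with h | h
  · rw [h, Finset.card_empty]; norm_num
  · obtain ⟨t₀, ht₀⟩ := h
    obtain ⟨⟨a, b⟩, ⟨⟨c₀, r⟩, ⟨d₀, s⟩⟩⟩ := t₀
    rw [Finset.mem_filter] at ht₀
    obtain ⟨ht₀, hcd⟩ := ht₀
    simp only [Prod.mk.injEq] at hcd
    obtain ⟨rfl, rfl⟩ := hcd
    have hs := hstar _ ht₀
    have hsub : (T.filter fun t => (t.2.1.1, t.2.2.1) = (c₀, d₀)) ⊆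
        {⟨(a, b), ((c₀, r), (d₀, s))⟩, ⟨(b, a), ((c₀, r), (d₀, s))⟩} := by
      rintro ⟨⟨a', b'⟩, ⟨⟨c₁, r'⟩, ⟨d₁, s'⟩⟩⟩ ht
      rw [Finset.mem_filter] at ht
      obtain ⟨ht, hcd⟩ := ht
      simp only [Prod.mk.injEq] at hcd
      obtain ⟨rfl, rfl⟩ := hcd
      have hs' := hstar _ ht
      obtain ⟨h1, h2, h3⟩ := hs.unique hH hM hs'
      simp only at h1 h2 h3
      subst h2 h3
      rw [Finset.mem_insert, Finset.mem_singleton]
      rcases h1 with ⟨rfl, rfl⟩ | ⟨rfl, rfl⟩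
      · exact Or.inl rfl
      · exact Or.inr rfl
    exact (Finset.card_le_card hsub).trans Finset.card_le_two

/-- The main inequality for one class. -/
theorem S_ge (hH : Lin H) (hM : IsCls H M) : 3 - 3 * ((kids H M).card : ℤ) ≤ S H M := by
  have h1 := two_S_ge hH hM
  have h2 := sum_offDiag_le hH hM
  have h3 := card_opp_le hH hM
  have h4 : ∑ p ∈ cher H M, 2 * ((q H p.1 p.2 : ℤ) - 1) ≤
      ((∑ p ∈ cher H M, (q H p.1 p.2 * q H p.1 p.2 - q H p.1 p.2) : ℕ) : ℤ) := by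
    rw [Nat.cast_sum]
    refine Finset.sum_le_sum fun p _ => ?_
    have h5 : q H p.1 p.2 ≤ q H p.1 p.2 * q H p.1 p.2 := Nat.le_mul_self _
    rw [Nat.cast_sub h5]
    push_cast
    generalize q H p.1 p.2 = n
    rcases n with _ | _ | n
    · norm_num
    · norm_num
    · push_cast
      nlinarith [Int.natCast_nonneg n]
  have h6 : ∑ p ∈ cher H M, (1 - (q H p.1 p.2 : ℤ)) =
      -∑ p ∈ cher H M, ((q H p.1 p.2 : ℤ) - 1) := by
    rw [← Finset.sum_neg_distrib]
    exact Finset.sum_congr rfl fun p _ => by ring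
  rw [← Finset.mul_sum] at h4
  rw [h6] at h1
  have h7 : ((∑ p ∈ cher H M, (q H p.1 p.2 * q H p.1 p.2 - q H p.1 p.2) : ℕ) : ℤ) ≤
      2 * ((opp H M).card : ℤ) := by exact_mod_cast h2
  have h8 : ((opp H M).card : ℤ) ≤ 6 * ((kids H M).card : ℤ) := by exact_mod_cast h3
  linarith

end Pool.Agent.Lib.MP_c82047_co18
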