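import Pool.Agent.Lib.MP_c82047_co18.Main
import Pool.Agent.Lib.MP_c82047_co97.ThetaCherry

/-!
# The sums over cherries and `theta`, `cnt`, `wheels`
-/

namespace Pool.Agent.Lib.MP_c82047_co18

open Pool.Agent.Lib.MP_c82047_co97 (Lin e deg Adj jj f theta cnt wt wheels thr jj_eq_thr jj_le_three)

variable {V : Type*} [DecidableEq V] {H : Finset (Finset V)} {k : ℕ}

theorem loose_iff {a b c : Finset V} : Loose a b c ↔ Pool.Agent.Lib.MP_c82047_co97.Loose a b c := by
  unfold Loose Pool.Agent.Lib.MP_c82047_co97.Loose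
  constructor
  · rintro ⟨-, -, -, h1, h2, h3, h4⟩
    exact ⟨h1, h2, h3, h4⟩
  · rintro ⟨h1, h2, h3, h4⟩
    refine ⟨?_, ?_, ?_, h1, h2, h3, h4⟩
    · rintro rfl
      rw [Finset.inter_self] at h4
      rw [h4] at h2
      exact Finset.not_nonempty_empty h2
    · rintro rfl
      rw [Finset.inter_comm a b, Finset.inter_assoc, Finset.inter_self, Finset.inter_comm] at h4
      rw [h4] at h1
      exact Finset.not_nonempty_empty h1
    · rintro rfl
      rw [Finset.inter_assoc, Finset.inter_self] at h4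
      rw [h4] at h1
      exact Finset.not_nonempty_empty h1

theorem w_eq_wt (a b : Finset V) : w H a b = wt H a b := by
  unfold w wt
  congr 1
  refine Finset.filter_congr fun c _ => ?_
  exact loose_iff

variable [Fintype V]

theorem cherries_eq : cherries H = Pool.Agent.Lib.MP_c82047_co97.cherries H := by
  ext ⟨a, b⟩
  unfold cherries Pool.Agent.Lib.MP_c82047_co97.cherries
  simp only [Finset.mem_filter, Finset.mem_product]
  constructor
  · rintro ⟨h, h1⟩
    exact ⟨h, h1.ne, h1.meet⟩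
  · rintro ⟨h, h1, h2⟩
    exact ⟨h, ⟨h.1, h.2, h1, h2⟩⟩

theorem theta_eq_sum (hH : Lin H) :
    theta H = ∑ p ∈ cherries H, (2 - (w H p.1 p.2 : ℤ)) := by
  rw [Pool.Agent.Lib.MP_c82047_co97.theta_cherries hH, cherries_eq]
  exact Finset.sum_congr rfl fun p _ => by rw [w_eq_wt]

theorem cnt_le_cherries (hH : Lin H) : cnt H ≤ 2 * (cherries H).card := by
  rw [cherries_eq, ← Pool.Agent.Lib.MP_c82047_co97.sum_jj_cherries hH]
  unfold cnt
  refine Finset.sum_le_sum fun E _ => ?_
  rw [Finset.card_filter]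
  refine Finset.sum_le_sum fun x _ => ?_
  split_ifs with h
  · exact h
  · exact Nat.zero_le _

open Classical in
/-- Every wheel is counted at most six times. -/
theorem sum_q_le_wheels (hH : Lin H) :
    ∑ p ∈ cherries H, q H p.1 p.2 ≤ 6 * wheels H := by
  -- quadruples
  set Q : Finset ((Finset V × Finset V) × (Finset V × Finset V)) :=
    ((H ×ˢ H) ×ˢ (H ×ˢ H)).filter (fun t => Wheel H t.1.1 t.1.2 t.2.1 t.2.2) with hQ
  have h1 : ∑ p ∈ cherries H, q H p.1 p.2 ≤ Q.card := by
    rw [hQ, Finset.card_filter, Finset.sum_product]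
    calc ∑ p ∈ cherries H, q H p.1 p.2 ≤ ∑ p ∈ H ×ˢ H, q H p.1 p.2 := by
          refine Finset.sum_le_sum_of_subset ?_
          unfold cherries
          exact Finset.filter_subset _ _
      _ = _ := by
          refine Finset.sum_congr rfl fun p _ => ?_
          unfold q
          rw [Finset.card_filter]
  refine h1.trans ?_
  have hdec : wheels H = ((H ×ˢ (Finset.univ : Finset V)).filter
      (fun t => t.2 ∉ t.1 ∧ jj H t.1 t.2 = 3)).card := by
    unfold wheels
    rw [Finset.card_filter, Finset.sum_product]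
    refine Finset.sum_congr rfl fun E _ => ?_
    rw [← Finset.card_filter]
    congr 1
    ext x
    simp
  set Wh := (H ×ˢ (Finset.univ : Finset V)).filter
      (fun t => t.2 ∉ t.1 ∧ jj H t.1 t.2 = 3) with hWh
  set R : Finset V × V → Finset ((Finset V × Finset V) × (Finset V × Finset V)) := fun t =>
    ((thr H t.1 t.2 ×ˢ thr H t.1 t.2) ×ˢ (thr H t.1 t.2 ×ˢ {t.1})).filter
      (fun u => u.1.1 ≠ u.1.2 ∧ u.1.1 ≠ u.2.1 ∧ u.1.2 ≠ u.2.1) with hR
  have hcov : Q ⊆ Wh.biUnion R := by
    rintro ⟨⟨a, b⟩, c, r⟩ ht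
    rw [hQ, Finset.mem_filter] at ht
    have hw := ht.2
    simp only at hw
    obtain ⟨v, hva, hvb, hvc, hvr⟩ := hw.hub
    have ha : a ∈ thr H r v := Finset.mem_filter.2 ⟨hw.ha, hva, hw.ra⟩
    have hb : b ∈ thr H r v := Finset.mem_filter.2 ⟨hw.hb, hvb, hw.rb⟩
    have hc : c ∈ thr H r v := Finset.mem_filter.2 ⟨hw.hc, hvc, hw.rc⟩
    rw [Finset.mem_biUnion]
    refine ⟨(r, v), ?_, ?_⟩
    · rw [hWh, Finset.mem_filter, Finset.mem_product]
      refine ⟨⟨hw.hr, Finset.mem_univ _⟩, hvr, ?_⟩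
      have h3 : ({a, b, c} : Finset (Finset V)).card = 3 :=
        Finset.card_eq_three.2 ⟨a, b, c, hw.ab, hw.ac, hw.bc, rfl⟩
      have h4 : ({a, b, c} : Finset (Finset V)) ⊆ thr H r v := by
        intro x hx
        simp only [Finset.mem_insert, Finset.mem_singleton] at hx
        rcases hx with rfl | rfl | rfl <;> assumption
      have h5 := Finset.card_le_card h4
      have h6 := jj_eq_thr hH hw.hr hvr
      have h7 := jj_le_three (H := H) (hH.1 r hw.hr) v
      simp only
      omega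
    · rw [hR]
      simp only [Finset.mem_filter, Finset.mem_product, Finset.mem_singleton, ne_eq]
      exact ⟨⟨⟨ha, hb⟩, hc, trivial⟩, hw.ab, hw.ac, hw.bc⟩
  have hR6 : ∀ t ∈ Wh, (R t).card ≤ 6 := by
    rintro ⟨r, v⟩ ht
    rw [hWh, Finset.mem_filter, Finset.mem_product] at ht
    obtain ⟨⟨hr, -⟩, hvr, hj⟩ := ht
    simp only at hr hvr hj
    have h3 : (thr H r v).card = 3 := by rw [← jj_eq_thr hH hr hvr, hj]
    have h6 : ((thr H r v).offDiag).card = 6 := by rw [Finset.offDiag_card, h3]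
    rw [← h6]
    refine Finset.card_le_card_of_injOn (fun u => u.1) ?_ ?_
    · rintro ⟨⟨a, b⟩, c, r'⟩ hu
      rw [Finset.mem_coe, hR] at hu
      simp only [Finset.mem_filter, Finset.mem_product, Finset.mem_singleton, ne_eq] at hu
      rw [Finset.mem_coe, Finset.mem_offDiag]
      exact ⟨hu.1.1.1, hu.1.1.2, hu.2.1⟩
    · rintro ⟨⟨a, b⟩, c, r'⟩ hu ⟨⟨a', b'⟩, c', r''⟩ hu' heq
      rw [Finset.mem_coe, hR] at hu hu'
      simp only [Finset.mem_filter, Finset.mem_product, Finset.mem_singleton, ne_eq] at hu hu'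
      simp only [Prod.mk.injEq] at heq
      obtain ⟨rfl, rfl⟩ := heq
      have e1 : r' = r'' := hu.1.2.2.trans hu'.1.2.2.symm
      have e2 : c = c' := by
        have h7 : (((thr H r v).erase a).erase b).card = 1 := by
          rw [Finset.card_erase_of_mem (Finset.mem_erase.2 ⟨fun h => hu.2.1 h.symm, hu.1.1.2⟩),
            Finset.card_erase_of_mem hu.1.1.1, h3]
        rw [Finset.card_eq_one] at h7
        obtain ⟨z, hz⟩ := h7
        have m1 : c ∈ ((thr H r v).erase a).erase b :=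
          Finset.mem_erase.2 ⟨fun h => hu.2.2.2 h.symm,
            Finset.mem_erase.2 ⟨fun h => hu.2.2.1 h.symm, hu.1.2.1⟩⟩
        have m2 : c' ∈ ((thr H r v).erase a).erase b :=
          Finset.mem_erase.2 ⟨fun h => hu'.2.2.2 h.symm,
            Finset.mem_erase.2 ⟨fun h => hu'.2.2.1 h.symm, hu'.1.2.1⟩⟩
        rw [hz, Finset.mem_singleton] at m1 m2
        rw [m1, m2]
      rw [e1, e2]
  calc Q.card ≤ (Wh.biUnion R).card := Finset.card_le_card hcov
    _ ≤ ∑ t ∈ Wh, (R t).card := Finset.card_biUnion_le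
    _ ≤ ∑ _t ∈ Wh, 6 := Finset.sum_le_sum hR6
    _ = 6 * wheels H := by rw [Finset.sum_const, smul_eq_mul, hdec, mul_comm]

end Pool.Agent.Lib.MP_c82047_co18
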